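import Pool.Agent.Lib.MP_99e3ed_co.Ratio.Defs
import Pool.Agent.Lib.MP_99e3ed_co.H98.ZFinal

/-!
(F-B): definitions and module statements.  Everything is at fixed `d`, `k` and fixed real `s`;
the recursion runs in `m ≤ n`.  With `T_m = TT d k m s`:
`Y m = m T_{m-1}/T_m - (m-k)`, `y`, `z` its first and second derivative in `s`.
-/

set_option autoImplicit false

open Finset
open Pool.Agent.Lib.MP_99e3ed_co.Ratio

namespace Pool.Agent.Lib.MP_99e3ed_co.H59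

/-- `g_t = t - k + Y_t` -/
noncomputable def gg (k : ℕ) (Y : ℕ → ℝ) (t : ℕ) : ℝ := (t : ℝ) - k + Y t

/-- `α_{j+d} = ∏_{j < t ≤ j+d} g_t / t` -/
noncomputable def al (d k : ℕ) (Y : ℕ → ℝ) (j : ℕ) : ℝ := ∏ t ∈ Ioc j (j + d), gg k Y t / t

/-- `Ψ = k - (j-s) Φ_j = s (k - Y_j)/j + Y_j` -/
noncomputable def Psi (k : ℕ) (s : ℝ) (Y : ℕ → ℝ) (j : ℕ) : ℝ := s * (k - Y j) / j + Y j

/-- its derivative -/
noncomputable def Psi1 (k : ℕ) (s : ℝ) (Y y : ℕ → ℝ) (j : ℕ) : ℝ :=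
  (k - Y j) / j + (1 - s / j) * y j

/-- its second derivative -/
noncomputable def Psi2 (s : ℝ) (y z : ℕ → ℝ) (j : ℕ) : ℝ := -2 * y j / j + (1 - s / j) * z j

/-- logarithmic derivative of `α_{j+d}` -/
noncomputable def DD (d k : ℕ) (Y y : ℕ → ℝ) (j : ℕ) : ℝ := ∑ t ∈ Ioc j (j + d), y t / gg k Y t

/-- its derivative -/
noncomputable def DD1 (d k : ℕ) (Y y z : ℕ → ℝ) (j : ℕ) : ℝ :=
  ∑ t ∈ Ioc j (j + d), (z t / gg k Y t - (y t / gg k Y t) ^ 2)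

/-- The recursion satisfied by `Y`, `Y'`, `Y''` at a fixed `s`. -/
structure Sys (d k n : ℕ) (s : ℝ) (Y y z : ℕ → ℝ) : Prop where
  zero : ∀ m, k ≤ m → m ≤ n → m < k + d → Y m = 0 ∧ y m = 0 ∧ z m = 0
  gpos : ∀ m, k < m → m ≤ n → 0 < gg k Y m
  recY : ∀ j, k ≤ j → j + d ≤ n → 2 * Y (j + d) = al d k Y j * Psi k s Y j
  recy : ∀ j, k ≤ j → j + d ≤ n →
    2 * y (j + d) = al d k Y j * (DD d k Y y j * Psi k s Y j + Psi1 k s Y y j)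
  recz : ∀ j, k ≤ j → j + d ≤ n →
    2 * z (j + d) = al d k Y j * ((DD d k Y y j ^ 2 + DD1 d k Y y z j) * Psi k s Y j +
      2 * DD d k Y y j * Psi1 k s Y y j + Psi2 s y z j)

/-- module JetSys: the actual functions satisfy the recursion.
(`Y m x = m T_{m-1}(x)/T_m(x) - (m-k)`, `y`, `z` its derivatives; from the contiguity relation
`(m-k) T_m = m T_{m-1} + ((m-d-x-k) T_{m-d} - (m-d-x) T_{m-d-1})/2`.) -/
def JetSys : Prop := ∀ d k n : ℕ, 1 ≤ d → 1 ≤ k → k ≤ n → ∃ Y y z : ℕ → ℝ → ℝ,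
  (∀ x : ℝ, 0 ≤ x → x < k * d → (n : ℝ) * GT d k n x = k - Y n x) ∧
  (∀ x : ℝ, 0 < x → x < k * d →
    Sys d k n x (fun m => Y m x) (fun m => y m x) (fun m => z m x) ∧
    HasDerivAt (fun x => GT d k n x) (-(y n x) / n) x ∧
    HasDerivAt (fun x => -(y n x) / n) (-(z n x) / n) x) ∧
  ContinuousOn (fun x => GT d k n x) (Set.Ico 0 (k * d : ℝ))

/-- `a_m = C(m-d,k)/C(m,k)` (zero for `m < k+d`) -/
noncomputable def aa (d k m : ℕ) : ℝ := ((m - d).choose k : ℝ) / (m.choose k : ℝ)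

/-- module ABh: `2 h_m = a_m m/(m-d) ≤ (1 - d/(m-k/2))^(k-1)` -/
def ABh : Prop := ∀ d k m : ℕ, 1 ≤ d → 2 ≤ k → k + d ≤ m →
  aa d k m * m / ((m : ℝ) - d) ≤ (1 - d / ((m : ℝ) - k / 2)) ^ (k - 1)

/-- module ABc: the increments of `a` -/
def ABc : Prop := ∀ d k m : ℕ, 3 ≤ d → 5 ≤ k → k + d ≤ m →
  ((k : ℝ) * d) ^ 2 * aa d k m / (((m : ℝ) - d) * (m - k)) ≤ 0.55 * ((d : ℝ) ^ 2 / (d ^ 2 - 1))

/-- module ABe -/
def ABe : Prop := ∀ d k m : ℕ, 3 ≤ d → 5 ≤ k → k + d ≤ m →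
  ((k : ℝ) * d) ^ 2 * aa d k m * m / (((m : ℝ) - d) ^ 2 * (m - k)) ≤
    4 * (1 - 2 / (k : ℝ)) ^ (k - 2) * ((d : ℝ) ^ 2 / (d ^ 2 - 1))

/-- module Conc34 (the cases `k = 3, 4`) -/
def Conc34 : Prop := ∀ d k n s : ℕ, 3 ≤ d → (k = 3 ∨ k = 4) → k ≤ n → s < n → s < (k - 1) * d →
  ¬ H98.ZRegB d k n s → ConcaveOn ℝ (Set.Icc 0 (s : ℝ)) (fun x => GT d k n x)

/-- module Conc5 (the cases `k ≥ 5`, helper59) -/
def Conc5 : Prop := ∀ d k n s : ℕ, 3 ≤ d → 5 ≤ k → k ≤ n → s < n → s < (k - 1) * d →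
  ¬ H98.ZRegB d k n s → ConcaveOn ℝ (Set.Icc 0 (s : ℝ)) (fun x => GT d k n x)

/-- module Small: the case `s < d` of (F-B) from concavity on `[0,s]` -/
def Small : Prop := ∀ d k n s δ : ℕ, 3 ≤ d → 3 ≤ k → k ≤ n → 1 ≤ s → s < n → s < d →
  1 ≤ δ → δ < d → k + δ ≤ n + s → n ≤ k * (d + 1) →
  ConcaveOn ℝ (Set.Icc 0 (s : ℝ)) (fun x => GT d k n x) →
  (1 - (δ : ℝ) / d) * GT d k n s + (δ : ℝ) / d * GT d k n ((s : ℝ) - d) ≤
    GTp d k n ((s : ℝ) - δ)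

end Pool.Agent.Lib.MP_99e3ed_co.H59
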