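import Pool.Agent.Lib.MP_99e3ed_co.H59.NumB
import Pool.Agent.Lib.MP_99e3ed_co.H84.JetSys
import Pool.Agent.Lib.MP_99e3ed_co.H98.AB

/-!
(F-B): concavity of `s ↦ G_k(n,s)` on `[0,s]` for `k ≥ 5`, in the region not covered by (Z).
-/

set_option autoImplicit false

open Finset
open Pool.Agent.Lib.MP_99e3ed_co.Ratio

namespace Pool.Agent.Lib.MP_99e3ed_co.H59

/-- `z_n ≥ 0` at every real `x ∈ (0,s]` -/
theorem z_nonneg (hAB : ABh) (hABc : ABc) (hABe : ABe) {d k n s : ℕ} (hd : 3 ≤ d) (hk : 5 ≤ k)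
    (hkn : k ≤ n) (hsn : s < n) (hreg : ¬ H98.ZRegB d k n s) {x : ℝ} (hx0 : 0 < x)
    (hxs : x ≤ s) {Y y z : ℕ → ℝ} (S : Sys d k n x Y y z) : 0 ≤ z n := by
  have hdr : (3 : ℝ) ≤ d := by exact_mod_cast hd
  have hkr : (5 : ℝ) ≤ k := by exact_mod_cast hk
  have hsnr : (s : ℝ) + 1 ≤ n := by exact_mod_cast hsn
  rcases Nat.lt_or_ge d 6 with hd6 | hd6
  · -- class B
    have q1 : ¬ (k * d + 2 * k ≤ 2 * n) := fun hc =>
      hreg (Or.inr (Or.inr (Or.inr (Or.inr ⟨hk, by omega, Or.inl hc⟩))))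
    have q2 : ¬ (10 * (k * d) + 9 * k ≤ 9 * (n + s)) := fun hc =>
      hreg (Or.inr (Or.inr (Or.inr (Or.inr ⟨hk, by omega, Or.inr hc⟩))))
    have q1r : 2 * (n : ℝ) < k * d + 2 * k := by exact_mod_cast not_le.1 q1
    have q2r : 9 * ((n : ℝ) + s) < 10 * (k * d) + 9 * k := by exact_mod_cast not_le.1 q2
    have hd5 : (d : ℝ) ≤ 5 := by
      have : d ≤ 5 := by omega
      exact_mod_cast this
    have hN3 : 3 * (k : ℝ) ≤ k * d := by nlinarith
    have hB : RB d k n x ((k : ℝ) * d) := by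
      refine ⟨rfl, hdr, hd5, hkr, by linarith, by linarith, ?_⟩
      have : (s : ℝ) ≤ 0.7223 * (k * d) := by linarith
      linarith
    exact mainZ S (by omega) (by omega) hx0 (numB hAB hABc hABe hx0 hB hd hk) hkn
  · -- class A
    have hd6r : (6 : ℝ) ≤ d := by exact_mod_cast hd6
    have hN6 : 6 * (k : ℝ) ≤ k * d := by nlinarith
    have q : 83 * ((n : ℝ) + s) < 100 * (k * d) + 83 * k ∧
        31 * ((n : ℝ) - k) ≤ 20 * (k * d) ∧
        (k = 5 ∨ ((6 : ℝ) ≤ k ∧ 8 * ((n : ℝ) - k) ≤ 5 * (k * d))) := by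
      rcases Nat.lt_or_ge k 6 with hk6 | hk6
      · have hk5 : k = 5 := by omega
        have q1 : ¬ (20 * (k * d) + 31 * k ≤ 31 * n) := fun hc =>
          hreg (Or.inr (Or.inr (Or.inl ⟨hk5, hd6, Or.inl hc⟩)))
        have q2 : ¬ (100 * (k * d) + 83 * k ≤ 83 * (n + s)) := fun hc =>
          hreg (Or.inr (Or.inr (Or.inl ⟨hk5, hd6, Or.inr hc⟩)))
        have q1r : 31 * (n : ℝ) < 20 * (k * d) + 31 * k := by exact_mod_cast not_le.1 q1
        have q2r : 83 * ((n : ℝ) + s) < 100 * (k * d) + 83 * k := by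
          exact_mod_cast not_le.1 q2
        exact ⟨q2r, by linarith, Or.inl hk5⟩
      · have q1 : ¬ (5 * (k * d) + 8 * k ≤ 8 * n) := fun hc =>
          hreg (Or.inr (Or.inr (Or.inr (Or.inl ⟨hk6, hd6, Or.inl hc⟩))))
        have q2 : ¬ (100 * (k * d) + 83 * k ≤ 83 * (n + s)) := fun hc =>
          hreg (Or.inr (Or.inr (Or.inr (Or.inl ⟨hk6, hd6, Or.inr hc⟩))))
        have q1r : 8 * (n : ℝ) < 5 * (k * d) + 8 * k := by exact_mod_cast not_le.1 q1
        have q2r : 83 * ((n : ℝ) + s) < 100 * (k * d) + 83 * k := by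
          exact_mod_cast not_le.1 q2
        have hk6r : (6 : ℝ) ≤ k := by exact_mod_cast hk6
        exact ⟨q2r, by linarith, Or.inr ⟨hk6r, by linarith⟩⟩
    obtain ⟨q2r, q1r, q1r'⟩ := q
    have hA : RA d k n x ((k : ℝ) * d) := by
      refine ⟨rfl, hd6r, hkr, q1r, q1r', by linarith, ?_⟩
      have : (s : ℝ) ≤ 0.686 * (k * d) := by linarith
      linarith
    exact mainZ S (by omega) (by omega) hx0 (numA hAB hABc hABe hx0 hA hd6 hk) hkn

theorem conc5_of (hJ : JetSys) (hAB : ABh) (hABc : ABc) (hABe : ABe) : Conc5 := by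
  intro d k n s hd hk hkn hsn hsk hreg
  obtain ⟨Y, y, z, -, hS, hcont⟩ := hJ d k n (by omega) (by omega) hkn
  have hn : (0 : ℝ) < n := by
    have : 0 < n := by omega
    exact_mod_cast this
  have hsN : (s : ℝ) < k * d := by
    have h1 : (k - 1) * d ≤ k * d := Nat.mul_le_mul_right _ (by omega)
    exact_mod_cast lt_of_lt_of_le hsk h1
  refine concaveOn_of_hasDerivWithinAt2_nonpos (convex_Icc 0 (s : ℝ))
    (f' := fun x => -(y n x) / n) (f'' := fun x => -(z n x) / n) ?_ ?_ ?_ ?_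
  · exact hcont.mono fun x hx => ⟨hx.1, lt_of_le_of_lt hx.2 hsN⟩
  · intro x hx
    rw [interior_Icc] at hx
    exact (hS x hx.1 (hx.2.trans hsN)).2.1.hasDerivWithinAt
  · intro x hx
    rw [interior_Icc] at hx
    exact (hS x hx.1 (hx.2.trans hsN)).2.2.hasDerivWithinAt
  · intro x hx
    rw [interior_Icc] at hx
    have h := z_nonneg hAB hABc hABe hd hk hkn hsn hreg hx.1 hx.2.le
      (hS x hx.1 (hx.2.trans hsN)).1
    exact div_nonpos_of_nonpos_of_nonneg (by simpa using h) hn.le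

theorem conc5 : Conc5 :=
  conc5_of Pool.Agent.MP_99e3ed_co.H84.jetSys H98.abh H98.abc H98.abe

end Pool.Agent.Lib.MP_99e3ed_co.H59
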