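import Pool.Agent.Lib.MP_99e3ed_co.Ratio.Interfaces
import Pool.Agent.Lib.MP_99e3ed_co.H59.Conc5
import Pool.Agent.Lib.MP_99e3ed_co.H98.Conc34
import Pool.Agent.Lib.MP_99e3ed_co.H64.Small

/-!
(F-B) of the ratio form of Kahn's conjecture.
-/

set_option autoImplicit false

open Finset
open Pool.Agent.Lib.MP_99e3ed_co.Ratio

namespace Pool.Agent.Lib.MP_99e3ed_co.H59

theorem conc_all {d k n s : ℕ} (hd : 3 ≤ d) (hk : 3 ≤ k) (hkn : k ≤ n) (hsn : s < n)
    (hsk : s < (k - 1) * d) (hreg : ¬ ZReg d k n s) :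
    ConcaveOn ℝ (Set.Icc 0 (s : ℝ)) (fun x => GT d k n x) := by
  rcases Nat.lt_or_ge k 5 with h5 | h5
  · exact H98.conc34 d k n s hd (by omega) hkn hsn hsk hreg
  · exact conc5 d k n s hd h5 hkn hsn hsk hreg

theorem fb : FB := by
  intro d k n s δ hd hk hkn hs hsn hsk hδ hδd hkδ hreg
  have hC := conc_all hd hk hkn hsn hsk hreg
  have hdr : (3 : ℝ) ≤ d := by exact_mod_cast hd
  have hδr : (δ : ℝ) < d := by exact_mod_cast hδd
  have hδ0 : (1 : ℝ) ≤ δ := by exact_mod_cast hδ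
  rcases Nat.lt_or_ge s d with hsd | hsd
  · refine Pool.Agent.MP_99e3ed_co.H64.small d k n s δ hd hk hkn hs hsn hsd hδ hδd hkδ ?_ hC
    by_contra hc
    have hc' : k * d + k < n := by
      have := not_le.1 hc
      rw [Nat.mul_add, Nat.mul_one] at this
      exact this
    apply hreg
    have h1 : 3 * k ≤ k * d := by
      rw [Nat.mul_comm]
      exact Nat.mul_le_mul_left k hd
    rcases Nat.lt_or_ge k 4 with h4 | h4
    · exact Or.inl ⟨by omega, Or.inl (by omega)⟩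
    rcases Nat.lt_or_ge k 5 with h5 | h5
    · exact Or.inr (Or.inl ⟨by omega, Or.inl (by omega)⟩)
    rcases Nat.lt_or_ge d 6 with h6 | h6
    · exact Or.inr (Or.inr (Or.inr (Or.inr ⟨h5, by omega, Or.inl (by omega)⟩)))
    rcases Nat.lt_or_ge k 6 with h7 | h7
    · exact Or.inr (Or.inr (Or.inl ⟨by omega, h6, Or.inl (by omega)⟩))
    · exact Or.inr (Or.inr (Or.inr (Or.inl ⟨h7, h6, Or.inl (by omega)⟩)))
  · have hsdr : (d : ℝ) ≤ s := by exact_mod_cast hsd
    have hpos : ¬ ((s : ℝ) - δ ≤ 0) := by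
      rw [not_le]
      linarith
    unfold GTp
    rw [if_neg hpos]
    have ht0 : 0 ≤ (δ : ℝ) / d := by positivity
    have ht1 : 0 ≤ 1 - (δ : ℝ) / d := by
      rw [sub_nonneg, div_le_one (by linarith)]
      exact hδr.le
    have h := hC.2 (x := (s : ℝ)) (y := (s : ℝ) - d) ⟨by linarith, le_refl _⟩
      ⟨by linarith, by linarith⟩ ht1 ht0 (by ring)
    simp only [smul_eq_mul] at h
    have e : (1 - (δ : ℝ) / d) * s + (δ : ℝ) / d * (s - d) = s - δ := by
      field_simp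
      ring
    rw [e] at h
    exact h

end Pool.Agent.Lib.MP_99e3ed_co.H59
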