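import Pool.Agent.Lib.MP_99e3ed_co.H59.NumField

/-!
(F-B): the numerical hypotheses for `k ≥ 5`.
-/

set_option autoImplicit false

open Finset

namespace Pool.Agent.Lib.MP_99e3ed_co.H59

theorem foA {y v X : ℝ} (hv0 : 0 ≤ v) (hvy : v ≤ y) (hy : y ≤ 0.7) (h1 : X ≤ 50 / 83 - v / 2)
    (h2 : X ≤ y + 1 / 10 - v) :
    1.348 * ((y + 0.408552 * v) * X + v * 0.1623) ≤ 0.92117 * y := by
  have hq : 0 ≤ y + 0.408552 * v := by linarith
  rcases le_or_gt 0.47 y with hc | hc
  · have h3 : (y + 0.408552 * v) * X ≤ (y + 0.408552 * v) * (50 / 83 - v / 2) :=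
      mul_le_mul_of_nonneg_left h1 hq
    have h4 : 1.348 * ((y + 0.408552 * v) * (50 / 83 - v / 2) + v * 0.1623) ≤ 0.92117 * y := by
      have e : (y + 0.408552 * v) * (50 / 83 - v / 2) + v * 0.1623 =
          50 / 83 * y + (0.408552 * 50 / 83 + 0.1623 - y / 2) * v - 0.204276 * v ^ 2 := by ring
      rw [e]
      have h5 : (0.408552 * 50 / 83 + 0.1623 - y / 2) * v - 0.204276 * v ^ 2 ≤
          (0.408552 * 50 / 83 + 0.1623 - y / 2) ^ 2 / 0.817104 := by
        rw [le_div_iff₀ (by norm_num)]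
        nlinarith [sq_nonneg ((0.408552 * 50 / 83 + 0.1623 - y / 2) - 0.408552 * v)]
      have h6 : (0.408552 * 50 / 83 + 0.1623 - y / 2) ^ 2 / 0.817104 ≤ 0.0809 * y := by
        rw [div_le_iff₀ (by norm_num)]
        nlinarith [mul_nonneg (show 0 ≤ y - 0.47 by linarith) (show 0 ≤ 1.4 - y by linarith)]
      linarith
    linarith
  · have h3 : (y + 0.408552 * v) * X ≤ (y + 0.408552 * v) * (y + 1 / 10 - v) :=
      mul_le_mul_of_nonneg_left h2 hq
    have h4 : 1.348 * ((y + 0.408552 * v) * (y + 1 / 10 - v) + v * 0.1623) ≤ 0.92117 * y := by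
      have e : (y + 0.408552 * v) * (y + 1 / 10 - v) + v * 0.1623 =
          y * (y + 1 / 10) + v * (0.2031552 - 0.591448 * y) - 0.408552 * v ^ 2 := by ring
      rw [e]
      have h5 : 0 ≤ v ^ 2 := sq_nonneg v
      rcases le_or_gt y 0.3434 with hd | hd
      · have h6 : v * (0.2031552 - 0.591448 * y) ≤ y * (0.2031552 - 0.591448 * y) :=
          mul_le_mul_of_nonneg_right hvy (by linarith)
        nlinarith
      · have h6 : v * (0.2031552 - 0.591448 * y) ≤ v * 0.0001 :=
          mul_le_mul_of_nonneg_left (by linarith) hv0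
        nlinarith
    linarith

theorem p2A {y v τ xt : ℝ} (hv0 : 0 ≤ v) (hτ0 : 0 ≤ τ) (hτ : τ ≤ 1 / 5) (hvy : v ≤ y - τ)
    (hy : y ≤ 0.7) (h1 : xt ≤ (100 / 83 + τ - v) / 2) (h2 : xt ≤ y + τ - v) :
    y * xt + v * ((y - v + τ) * 0.69 + 0.1623) ≤ 0.8377 * y := by
  have hy0 : 0 ≤ y := by linarith
  rcases le_or_gt 0.4 y with hc | hc
  · have h3 : y * xt ≤ y * ((100 / 83 + 1 / 5 - v) / 2) :=
      mul_le_mul_of_nonneg_left (by linarith) hy0
    have h4 : v * ((y - v + τ) * 0.69 + 0.1623) ≤ v * ((y - v + 1 / 5) * 0.69 + 0.1623) :=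
      mul_le_mul_of_nonneg_left (by linarith) hv0
    have e : y * ((100 / 83 + 1 / 5 - v) / 2) + v * ((y - v + 1 / 5) * 0.69 + 0.1623) =
        (583 / 830) * y + (0.19 * y + 0.3003) * v - 0.69 * v ^ 2 := by ring
    have h5 : (0.19 * y + 0.3003) * v - 0.69 * v ^ 2 ≤ (0.19 * y + 0.3003) ^ 2 / 2.76 := by
      rw [le_div_iff₀ (by norm_num)]
      nlinarith [sq_nonneg ((0.19 * y + 0.3003) - 1.38 * v)]
    have h6 : (0.19 * y + 0.3003) ^ 2 / 2.76 ≤ 0.1352 * y := by
      rw [div_le_iff₀ (by norm_num)]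
      nlinarith [mul_nonneg (show 0 ≤ y - 0.4 by linarith) (show 0 ≤ 1 - y by linarith)]
    linarith
  · have h3 : y * xt ≤ y * (y + τ - v) := mul_le_mul_of_nonneg_left h2 hy0
    have e : y * (y + τ - v) + v * ((y - v + τ) * 0.69 + 0.1623) =
        y * (y + τ) + v * (0.1623 - 0.31 * y + 0.69 * τ) - 0.69 * v ^ 2 := by ring
    have h5 : 0 ≤ v ^ 2 := sq_nonneg v
    have h6 : v * (0.1623 - 0.31 * y + 0.69 * τ) ≤ (y - τ) * (0.1623 - 0.31 * y + 0.69 * τ) :=
      mul_le_mul_of_nonneg_right hvy (by linarith)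
    have h7 : y * (y + τ) + (y - τ) * (0.1623 - 0.31 * y + 0.69 * τ) ≤ 0.8377 * y := by
      nlinarith [mul_nonneg hτ0 (show 0 ≤ 1 / 5 - τ by linarith), mul_nonneg hy0
        (show 0 ≤ 0.4 - y by linarith), mul_nonneg (show 0 ≤ y - τ by linarith)
        (show 0 ≤ 1 / 5 - τ by linarith)]
    linarith

theorem foB {y v X : ℝ} (hv0 : 0 ≤ v) (hvy : v ≤ y) (hy : y ≤ 0.73) (h1 : X ≤ 5 / 9 - v / 2)
    (h2 : X ≤ y + 1 / 10 - v) :
    1.456 * ((y + 0.559968 * v) * X + v * 0.1565) ≤ 0.92112 * y := by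
  have hq : 0 ≤ y + 0.559968 * v := by linarith
  rcases le_or_gt 0.52 y with hc | hc
  · have h3 : (y + 0.559968 * v) * X ≤ (y + 0.559968 * v) * (5 / 9 - v / 2) :=
      mul_le_mul_of_nonneg_left h1 hq
    have h4 : 1.456 * ((y + 0.559968 * v) * (5 / 9 - v / 2) + v * 0.1565) ≤ 0.92112 * y := by
      have e : (y + 0.559968 * v) * (5 / 9 - v / 2) + v * 0.1565 =
          5 / 9 * y + (0.559968 * 5 / 9 + 0.1565 - y / 2) * v - 0.279984 * v ^ 2 := by ring
      rw [e]
      have h5 : (0.559968 * 5 / 9 + 0.1565 - y / 2) * v - 0.279984 * v ^ 2 ≤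
          (0.559968 * 5 / 9 + 0.1565 - y / 2) ^ 2 / 1.119936 := by
        rw [le_div_iff₀ (by norm_num)]
        nlinarith [sq_nonneg ((0.559968 * 5 / 9 + 0.1565 - y / 2) - 0.559968 * v)]
      have h6 : (0.559968 * 5 / 9 + 0.1565 - y / 2) ^ 2 / 1.119936 ≤ 0.077 * y := by
        rw [div_le_iff₀ (by norm_num)]
        nlinarith [mul_nonneg (show 0 ≤ y - 0.52 by linarith) (show 0 ≤ 1.4 - y by linarith)]
      linarith
    linarith
  · have h3 : (y + 0.559968 * v) * X ≤ (y + 0.559968 * v) * (y + 1 / 10 - v) :=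
      mul_le_mul_of_nonneg_left h2 hq
    have h4 : 1.456 * ((y + 0.559968 * v) * (y + 1 / 10 - v) + v * 0.1565) ≤ 0.92112 * y := by
      have e : (y + 0.559968 * v) * (y + 1 / 10 - v) + v * 0.1565 =
          y * (y + 1 / 10) + v * (0.2124968 - 0.440032 * y) - 0.559968 * v ^ 2 := by ring
      rw [e]
      have h5 : 0 ≤ v ^ 2 := sq_nonneg v
      rcases le_or_gt y 0.4829 with hd | hd
      · have h6 : v * (0.2124968 - 0.440032 * y) ≤ y * (0.2124968 - 0.440032 * y) :=
          mul_le_mul_of_nonneg_right hvy (by linarith)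
        nlinarith
      · have h6 : v * (0.2124968 - 0.440032 * y) ≤ v * 0.0001 :=
          mul_le_mul_of_nonneg_left (by linarith) hv0
        nlinarith
    linarith

theorem p2B {y v τ xt : ℝ} (hv0 : 0 ≤ v) (hτ0 : 0 ≤ τ) (hτ : τ ≤ 1 / 5) (hvy : v ≤ y - τ - 1 / 5)
    (hy : y ≤ 0.7223) (h1 : xt ≤ (10 / 9 + τ - v) / 2) (h2 : xt ≤ y + τ - v) :
    y * xt + v * ((y - v + τ) * 0.97 + 0.1565) ≤ 0.8435 * y := by
  have hy0 : 0 ≤ y := by linarith
  rcases le_or_gt 0.45 y with hc | hc
  · have h3 : y * xt ≤ y * ((10 / 9 + 1 / 5 - v) / 2) :=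
      mul_le_mul_of_nonneg_left (by linarith) hy0
    have h4 : v * ((y - v + τ) * 0.97 + 0.1565) ≤ v * ((y - v + 1 / 5) * 0.97 + 0.1565) :=
      mul_le_mul_of_nonneg_left (by linarith) hv0
    have e : y * ((10 / 9 + 1 / 5 - v) / 2) + v * ((y - v + 1 / 5) * 0.97 + 0.1565) =
        (59 / 90) * y + (0.47 * y + 0.3505) * v - 0.97 * v ^ 2 := by ring
    have h5 : (0.47 * y + 0.3505) * v - 0.97 * v ^ 2 ≤ (0.47 * y + 0.3505) ^ 2 / 3.88 := by
      rw [le_div_iff₀ (by norm_num)]
      nlinarith [sq_nonneg ((0.47 * y + 0.3505) - 1.94 * v)]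
    have h6 : (0.47 * y + 0.3505) ^ 2 / 3.88 ≤ 0.1879 * y := by
      rw [div_le_iff₀ (by norm_num)]
      nlinarith [mul_nonneg (show 0 ≤ y - 0.45 by linarith) (show 0 ≤ 0.7223 - y by linarith)]
    linarith
  · have h3 : y * xt ≤ y * (y + τ - v) := mul_le_mul_of_nonneg_left h2 hy0
    have e : y * (y + τ - v) + v * ((y - v + τ) * 0.97 + 0.1565) =
        y * (y + τ) + v * (0.1565 - 0.03 * y + 0.97 * τ) - 0.97 * v ^ 2 := by ring
    have h5 : 0 ≤ v ^ 2 := sq_nonneg v
    have h6 : v * (0.1565 - 0.03 * y + 0.97 * τ) ≤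
        (y - τ - 1 / 5) * (0.1565 - 0.03 * y + 0.97 * τ) :=
      mul_le_mul_of_nonneg_right hvy (by linarith)
    have h7 : y * (y + τ) + (y - τ - 1 / 5) * (0.1565 - 0.03 * y + 0.97 * τ) ≤ 0.8435 * y := by
      nlinarith [mul_nonneg hτ0 (show 0 ≤ 1 / 5 - τ by linarith), mul_nonneg hy0
        (show 0 ≤ 0.45 - y by linarith), mul_nonneg (show 0 ≤ y - τ by linarith)
        (show 0 ≤ 1 / 5 - τ by linarith)]
    linarith

theorem exp_le4 {x : ℝ} (h0 : 0 ≤ x) (h1 : x ≤ 1) :
    Real.exp x ≤ 1 + x + x ^ 2 / 2 + x ^ 3 / 6 + x ^ 4 * (5 / 96) := by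
  have h := Real.exp_bound' h0 h1 (n := 4) (by norm_num)
  refine le_trans h (le_of_eq ?_)
  simp [sum_range_succ, Nat.factorial]
  ring

theorem exp_neg_le {x c : ℝ} (hx : 0 ≤ x) (hc : 0 < c)
    (h : 1 / c ≤ 1 + x + x ^ 2 / 2 + x ^ 3 / 6 + x ^ 4 / 24 + x ^ 5 / 120 + x ^ 6 / 720) :
    Real.exp (-x) ≤ c := by
  have h1 := Real.sum_le_exp_of_nonneg hx 7
  have h2 : 1 / c ≤ Real.exp x := by
    refine le_trans h (le_trans (le_of_eq ?_) h1)
    simp [sum_range_succ, Nat.factorial]
  rw [Real.exp_neg]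
  rw [one_div] at h2
  exact inv_le_of_inv_le₀ hc h2

/-- combination for `w > 0` -/
theorem fo_conv {s N V X E C F0 B : ℝ} (hs : 0 < s) (hN : 0 < N)
    (h : E * ((s / N + C / 2 * (V / N)) * (X / N) + V / N * B) ≤ F0 * (s / N)) :
    E * (1 + V / s * C / 2) * X ≤ N * (F0 - V / s * E * B) := by
  have e1 : E * (1 + V / s * C / 2) * X = N * N / s *
      (E * ((s / N + C / 2 * (V / N)) * (X / N))) := by
    field_simp
  have e2 : N * (F0 - V / s * E * B) = N * N / s * (F0 * (s / N) - E * (V / N * B)) := by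
    field_simp
  rw [e1, e2]
  apply mul_le_mul_of_nonneg_left _ (by positivity)
  linarith

section classA

variable {d k n sT : ℕ} {s : ℝ}

/-- region facts, class A -/
structure RA (d k n : ℕ) (s N : ℝ) : Prop where
  hN : N = (k : ℝ) * d
  hd : (6 : ℝ) ≤ d
  hk : (5 : ℝ) ≤ k
  r1 : 31 * ((n : ℝ) - k) ≤ 20 * N
  r1' : k = 5 ∨ ((6 : ℝ) ≤ k ∧ 8 * ((n : ℝ) - k) ≤ 5 * N)
  r2 : 83 * ((n : ℝ) + s - k) ≤ 100 * N
  r3 : s ≤ 0.686 * N

theorem zB_A (hAB : ABh) {N : ℝ} (hs : 0 < s) (h : RA d k n s N) (hd' : 1 ≤ d) (hk' : 2 ≤ k)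
    {j : ℕ} (hjn : j + d ≤ n) : 1.33 * ZZm d k s j ≤ 0.1623 * k := by
  obtain ⟨hN, hd, hk, r1, r1', r2, r3⟩ := h
  by_cases hj : k + d ≤ j
  · have hjn' : (j : ℝ) + d ≤ n := by exact_mod_cast hjn
    have hj' : (k : ℝ) + d ≤ j := by exact_mod_cast hj
    have hN5 : 5 * (d : ℝ) ≤ N := by rw [hN]; nlinarith
    have hN6 : 6 * (k : ℝ) ≤ N := by rw [hN]; nlinarith
    refine zz_lin hAB hd' hk' hs (ρ := 1.33) (t0 := 1.7) (a := 0.122) (B := 0.1623)
      (L := 12 / 17 * k) (by norm_num) hj ?_ (by norm_num) ?_ ?_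
    · have := exp_neg_le (x := 1.7) (c := 0.1834) (by norm_num) (by norm_num) (by norm_num)
      linarith
    · have h1 : (j : ℝ) - k / 2 ≤ 17 / 24 * ((k - 1) * d) := by
        rcases r1' with h5 | ⟨h6, h7⟩
        · have h5r : (k : ℝ) = 5 := by exact_mod_cast h5
          rw [hN, h5r] at r1
          rw [h5r] at hj' ⊢
          linarith
        · rw [hN] at h7
          nlinarith
      have := mul_le_mul_of_nonneg_left h1 (show (0 : ℝ) ≤ 12 / 17 * k by positivity)
      linarith
    · have h2 : ((k : ℝ) - 1) * d = N - d := by rw [hN]; ring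
      rw [h2]
      nlinarith
  · rw [ZZm_zero (by omega) (by omega)]
    have : (0 : ℝ) ≤ 0.1623 * k := by positivity
    linarith

theorem zB'_A (hAB : ABh) {N : ℝ} (hs : 0 < s) (h : RA d k n s N) (hd' : 1 ≤ d) (hk' : 2 ≤ k)
    {m : ℕ} (hmn : m ≤ n) : 1.33 * ZZm d k s m ≤ 0.2 * k := by
  obtain ⟨hN, hd, hk, r1, r1', r2, r3⟩ := h
  by_cases hm : k + d ≤ m
  · have hmn' : (m : ℝ) ≤ n := by exact_mod_cast hmn
    have hm' : (k : ℝ) + d ≤ m := by exact_mod_cast hm
    have hN5 : 5 * (d : ℝ) ≤ N := by rw [hN]; nlinarith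
    have hN6 : 6 * (k : ℝ) ≤ N := by rw [hN]; nlinarith
    refine zz_lin hAB hd' hk' hs (ρ := 1.33) (t0 := 1.4) (a := 0.165) (B := 0.2)
      (L := 0.549 * k) (by norm_num) hm ?_ (by norm_num) ?_ ?_
    · have := exp_neg_le (x := 1.4) (c := 0.248) (by norm_num) (by norm_num) (by norm_num)
      linarith
    · have h1 : (m : ℝ) - k / 2 ≤ 0.7285 * N := by linarith
      have h2 := mul_le_mul_of_nonneg_left h1 (show (0 : ℝ) ≤ 0.549 * k by positivity)
      have h3 : ((k : ℝ) - 1) * d * (k / 2) = (N - d) * (k / 2) := by rw [hN]; ring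
      rw [h3]
      have h4 : 0.8 * N * (k / 2) ≤ (N - d) * (k / 2) := by
        apply mul_le_mul_of_nonneg_right _ (by positivity)
        linarith
      have hNk : 0 ≤ N * k := by rw [hN]; positivity
      nlinarith
    · have h2 : ((k : ℝ) - 1) * d = N - d := by rw [hN]; ring
      rw [h2]
      nlinarith
  · rw [ZZm_zero (by omega) (by omega)]
    have : (0 : ℝ) ≤ 0.2 * k := by positivity
    linarith

theorem hH_A (hAB : ABh) {N : ℝ} (h : RA d k n s N) (hd' : 1 ≤ d) (hk' : 2 ≤ k)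
    {j : ℕ} (hjn : j + d ≤ n) : hhm d k j ≤ 0.122 := by
  obtain ⟨hN, hd, hk, r1, r1', r2, r3⟩ := h
  by_cases hj : k + d ≤ j
  · have hjn' : (j : ℝ) + d ≤ n := by exact_mod_cast hjn
    have hj' : (k : ℝ) + d ≤ j := by exact_mod_cast hj
    refine hhm_le_H hAB hd' hk' (Q := 17 / 24) (by norm_num) hj ?_ ?_
    · rcases r1' with h5 | ⟨h6, h7⟩
      · have h5r : (k : ℝ) = 5 := by exact_mod_cast h5
        rw [hN, h5r] at r1
        rw [h5r] at hj' ⊢
        linarith
      · rw [hN] at h7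
        nlinarith
    · have := exp_neg_le (x := 1 / (17 / 24)) (c := 0.244) (by norm_num) (by norm_num)
        (by norm_num)
      linarith
  · unfold hhm
    rw [aa_zero (by omega) (by omega)]
    norm_num

theorem numA (hAB : ABh) (hABc : ABc) (hABe : ABe) {N : ℝ} (hs : 0 < s) (h : RA d k n s N)
    (hd6 : 6 ≤ d) (hk5 : 5 ≤ k) : Num d k n s 1.33 1.348 0.817104 0.69 0.1623 := by
  have hRA := h
  obtain ⟨hN, hd, hk, r1, r1', r2, r3⟩ := h
  have hd1 : 1 ≤ d := by omega
  have hk1 : 1 ≤ k := by omega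
  have hk2 : 2 ≤ k := by omega
  have hN5 : 5 * (d : ℝ) ≤ N := by rw [hN]; nlinarith
  have hN6 : 6 * (k : ℝ) ≤ N := by rw [hN]; nlinarith
  have hN0 : 0 < N := by linarith
  have hdd : (d : ℝ) ^ 2 / ((d : ℝ) ^ 2 - 1) ≤ 36 / 35 := by
    rw [div_le_div_iff₀ (by nlinarith) (by norm_num)]
    nlinarith
  have hc : ∀ t : ℕ, k + d ≤ t →
      ((k : ℝ) * d) ^ 2 * aa d k t / (((t : ℝ) - d) * (t - k)) ≤ 0.5658 := by
    intro t ht
    refine le_trans (hABc d k t (by omega) hk5 ht) ?_
    have := mul_le_mul_of_nonneg_left hdd (show (0 : ℝ) ≤ 0.55 by norm_num)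
    linarith
  have he : ∀ t : ℕ, k + d ≤ t →
      ((k : ℝ) * d) ^ 2 * aa d k t * t / (((t : ℝ) - d) ^ 2 * (t - k)) ≤ 0.8887 := by
    intro t ht
    refine le_trans (hABe d k t (by omega) hk5 ht) ?_
    have h1 := pow_k_le hk5
    have h2 : 0 ≤ (d : ℝ) ^ 2 / ((d : ℝ) ^ 2 - 1) := by
      apply div_nonneg (by positivity)
      nlinarith
    calc 4 * (1 - 2 / (k : ℝ)) ^ (k - 2) * ((d : ℝ) ^ 2 / ((d : ℝ) ^ 2 - 1))
        ≤ 4 * (27 / 125) * ((d : ℝ) ^ 2 / ((d : ℝ) ^ 2 - 1)) := by
          apply mul_le_mul_of_nonneg_right _ h2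
          linarith
      _ ≤ 4 * (27 / 125) * (36 / 35) := mul_le_mul_of_nonneg_left hdd (by norm_num)
      _ ≤ 0.8887 := by norm_num
  have hjR : ∀ j : ℕ, j + d ≤ n → (j : ℝ) ≤ 19 / 24 * N := by
    intro j hjn
    have hjn' : (j : ℝ) + d ≤ n := by exact_mod_cast hjn
    rcases r1' with h5 | ⟨h6, h7⟩
    · have h5r : (k : ℝ) = 5 := by exact_mod_cast h5
      rw [hN, h5r] at r1 ⊢
      linarith
    · linarith
  have hX : ∀ j : ℕ, j + d ≤ n → (j : ℝ) - k + (d + 1) / 2 ≤ 5 / 8 * N := by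
    intro j hjn
    have hjn' : (j : ℝ) + d ≤ n := by exact_mod_cast hjn
    rcases r1' with h5 | ⟨h6, h7⟩
    · have h5r : (k : ℝ) = 5 := by exact_mod_cast h5
      rw [hN, h5r] at r1 ⊢
      linarith
    · linarith
  constructor
  · norm_num
  · norm_num
  · norm_num
  · norm_num
  · norm_num
  · norm_num
  · norm_num
  · -- zle
    intro j _ hjn
    exact zB_A hAB hs hRA hd1 hk2 hjn
  · -- n1
    intro j hj hjn
    refine f_n1 hd1 hk1 hs (N := N) (y1 := 0.686) (μ := 0.5658) (H := 0.122) (R := 19 / 24)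
      (e1 := 1.2946) hN (by norm_num) (by norm_num) (by norm_num) (by norm_num) r3 (by norm_num)
      hc hj (hjR j hjn) (hH_A hAB hRA hd1 hk2 hjn) (by norm_num) ?_ (by norm_num)
    refine le_trans (exp_le4 (by norm_num) (by norm_num)) (by norm_num)
  · -- p2a
    intro j hj hjn hsj b hb0 hb1
    apply f_p2a hd1 hk1 hj
    have hjn' : (j : ℝ) + d ≤ n := by exact_mod_cast hjn
    have hb2 := zB_A hAB hs hRA hd1 hk2 hjn
    have hb3 : b * (d + 1) ≤ 0.1623 * k * (d + 1) :=
      mul_le_mul_of_nonneg_right (by linarith) (by linarith)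
    have e : 0.1623 * (k : ℝ) * (d + 1) = 0.1623 * N + 0.1623 * k := by rw [hN]; ring
    rw [← hN]
    linarith
  · -- p2b
    intro j hj hjn hsj b hb0 hb1
    have hjn' : (j : ℝ) + d ≤ n := by exact_mod_cast hjn
    have hj' : (k : ℝ) + 1 ≤ j := by exact_mod_cast hj
    have hb2 := zB_A hAB hs hRA hd1 hk2 hjn
    have hw0 : 0 ≤ 1 - (j : ℝ) / s := by rw [sub_nonneg, div_le_one hs]; exact hsj.le
    have hw1 : 1 - (j : ℝ) / s ≤ 1 := by
      have : 0 ≤ (j : ℝ) / s := by positivity
      linarith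
    rcases Nat.lt_or_ge j (k + d) with hlt | hge
    · have hb : b = 0 := by
        rw [ZZm_zero hk1 hlt] at hb1
        linarith
      apply f_p2b hd1 hk2 hs hj hsj hb0 (fun _ => hb)
      · rw [← hN]; linarith
      · have hlt' : (j : ℝ) < k + d := by exact_mod_cast hlt
        rw [hb, ← hN]
        have h1 : (1 - (j : ℝ) / s) * (((j : ℝ) + d) * 0.69 + d * 0) ≤
            1 * (((j : ℝ) + d) * 0.69 + d * 0) := mul_le_mul_of_nonneg_right hw1 (by positivity)
        linarith
    · apply f_p2b hd1 hk2 hs hj hsj hb0 (fun h => absurd h (by omega))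
      · rw [← hN]; linarith
      · have hge' : (k : ℝ) + d ≤ j := by exact_mod_cast hge
        have hkey := p2A (y := s / N) (v := (s - j) / N) (τ := d / N)
          (xt := ((j : ℝ) + d - k + 0.3246 * k) / N)
          (by apply div_nonneg (by linarith) hN0.le) (by positivity)
          (by rw [div_le_div_iff₀ hN0 (by norm_num)]; linarith)
          (by rw [← sub_div]; apply div_le_div_of_nonneg_right _ hN0.le; linarith)
          (by rw [div_le_iff₀ hN0]; linarith)
          (by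
            rw [div_le_div_iff₀ hN0 (by norm_num)]
            have e : (100 / 83 + (d : ℝ) / N - (s - j) / N) * N = 100 / 83 * N + d - (s - j) := by
              field_simp
            rw [e]; linarith)
          (by
            have e : s / N + (d : ℝ) / N - (s - j) / N = (j + d) / N := by ring
            rw [e]
            apply div_le_div_of_nonneg_right _ hN0.le
            linarith)
        have e1 : s / N * (((j : ℝ) + d - k + 0.3246 * k) / N) +
            (s - j) / N * ((s / N - (s - j) / N + d / N) * 0.69 + 0.1623) =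
            s / N * ((((j : ℝ) + d - k + 0.3246 * k) +
              (1 - j / s) * (((j : ℝ) + d) * 0.69 + 0.1623 * N)) / N) := by
          field_simp
          ring
        rw [e1] at hkey
        have h2 : (((j : ℝ) + d - k + 0.3246 * k) +
              (1 - j / s) * (((j : ℝ) + d) * 0.69 + 0.1623 * N)) / N ≤ 0.8377 := by
          have h3 : s / N * ((((j : ℝ) + d - k + 0.3246 * k) +
              (1 - j / s) * (((j : ℝ) + d) * 0.69 + 0.1623 * N)) / N) ≤ s / N * 0.8377 := by
            linarith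
          exact le_of_mul_le_mul_left h3 (by positivity)
        rw [div_le_iff₀ hN0] at h2
        rw [← hN]
        have hbk : b ≤ 0.1623 * k := by linarith
        have hdb : d * b ≤ 0.1623 * N := by
          rw [hN]
          have := mul_le_mul_of_nonneg_left hbk (show (0 : ℝ) ≤ d by linarith)
          linarith
        have h4 : (1 - (j : ℝ) / s) * (((j : ℝ) + d) * 0.69 + d * b) ≤
            (1 - (j : ℝ) / s) * (((j : ℝ) + d) * 0.69 + 0.1623 * N) :=
          mul_le_mul_of_nonneg_left (by linarith) hw0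
        linarith
  · -- n6
    intro j hj hjn hjs
    exact f_n6 hd1 hk1 hs (N := N) (y1 := 0.686) (μe := 0.8887) hN (by norm_num) (by norm_num)
      (by norm_num) r3 he hj (by norm_num)
  · -- n2
    intro j hj hjn
    exact f_n2 hd1 hk1 hs (N := N) (y1 := 0.686) (μ := 0.5658) (H := 0.122) (R := 19 / 24)
      hN (by norm_num) (by norm_num) (by norm_num) (by norm_num) (by norm_num) r3 (by norm_num)
      hc hj (hjR j (by omega)) (hH_A hAB hRA hd1 hk2 (by omega)) (by norm_num) (by norm_num)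
      (by norm_num)
  · -- n4
    intro j hj hjn _
    exact f_n4 hd1 hk1 hs (N := N) (μ := 0.5658) (R := 19 / 24) hN (by norm_num) (by norm_num)
      (by norm_num) hc hj (hjR j (by omega)) (by norm_num)
  · -- fl
    intro j hj hjn b b' hb0 hb1 hb0' hb1'
    have hjn' : (j : ℝ) + d ≤ n := by exact_mod_cast hjn
    have hj' : (k : ℝ) + d ≤ j := by exact_mod_cast hj
    have hb2 := zB_A hAB hs hRA hd1 hk2 hjn
    have hb2' := zB'_A hAB hs hRA hd1 hk2 hjn
    have hX1 := hX j hjn
    have hdb : d * b ≤ 0.1623 * N := by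
      rw [hN]
      have := mul_le_mul_of_nonneg_left (show b ≤ 0.1623 * k by linarith)
        (show (0 : ℝ) ≤ d by linarith)
      linarith
    have hR : 0.8377 * N ≤ d * (k - b) := by
      have e : (d : ℝ) * (k - b) = N - d * b := by rw [hN]; ring
      rw [e]; linarith
    refine le_trans ?_ hR
    rcases le_or_gt s j with h1 | h1
    · have hw : max 0 (1 - (j : ℝ) / s) = 0 := by
        apply max_eq_left
        rw [sub_nonpos, le_div_iff₀ hs]; linarith
      rw [hw]
      linarith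
    · have hw : max 0 (1 - (j : ℝ) / s) = (s - j) / s := by
        rw [max_eq_right]
        · field_simp
        · rw [sub_nonneg, div_le_one hs]; exact h1.le
      rw [hw]
      set X := (j : ℝ) - k + (d + 1) / 2 + b' with hXd
      have hX0 : 0 ≤ X := by rw [hXd]; linarith
      have hfo := foA (y := s / N) (v := (s - j) / N) (X := X / N)
        (by apply div_nonneg (by linarith) hN0.le)
        (by apply div_le_div_of_nonneg_right _ hN0.le; linarith)
        (by rw [div_le_iff₀ hN0]; linarith)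
        (by
          rw [div_le_iff₀ hN0]
          have e : (50 / 83 - (s - j) / N / 2) * N = 50 / 83 * N - (s - j) / 2 := by
            field_simp
          rw [e, hXd]; linarith)
        (by
          rw [div_le_iff₀ hN0]
          have e : (s / N + 1 / 10 - (s - j) / N) * N = j + N / 10 := by
            field_simp
            ring
          rw [e, hXd]; linarith)
      have hv0 : 0 ≤ (s - j) / N := div_nonneg (by linarith) hN0.le
      have hXN : 0 ≤ X / N := by positivity
      have hy0 : 0 < s / N := by positivity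
      have h2 : (s / N + 0.348 * ((s - j) / N)) * (X / N) ≤ 0.8377 * (s / N) := by
        have h3 : (s / N + 0.348 * ((s - j) / N)) * (X / N) ≤
            (s / N + 0.408552 * ((s - j) / N)) * (X / N) :=
          mul_le_mul_of_nonneg_right (by linarith) hXN
        linarith
      have e2 : (1 + (s - j) / s * (1.348 - 1)) * X =
          N * N / s * ((s / N + 0.348 * ((s - j) / N)) * (X / N)) := by
        field_simp
        ring
      rw [e2]
      have e3 : 0.8377 * N = N * N / s * (0.8377 * (s / N)) := by field_simp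
      rw [e3]
      exact mul_le_mul_of_nonneg_left h2 (by positivity)
  · -- fo
    intro j hj hjn b b' hb0 hb1 hb0' hb1'
    have hjn' : (j : ℝ) + d ≤ n := by exact_mod_cast hjn
    have hj' : (k : ℝ) + d ≤ j := by exact_mod_cast hj
    have hb2 := zB_A hAB hs hRA hd1 hk2 hjn
    have hb2' := zB'_A hAB hs hRA hd1 hk2 hjn
    have hX1 := hX j hjn
    refine f_fo hd1 hk1 (B := 0.1623) (c0 := 0.614) (F0 := 0.92117) (le_max_left _ _)
      (by norm_num) hb0 (by linarith) (by norm_num) (by norm_num) (by norm_num) (by linarith)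
      ?_ (by norm_num) ?_
    · have e : ((d : ℝ) - 1) * k = N - k := by rw [hN]; ring
      rw [e]; linarith
    · rw [← hN]
      rcases le_or_gt s j with h1 | h1
      · have hw : max 0 (1 - (j : ℝ) / s) = 0 := by
          apply max_eq_left
          rw [sub_nonpos, le_div_iff₀ hs]; linarith
        rw [hw]
        linarith
      · have hw : max 0 (1 - (j : ℝ) / s) = (s - j) / s := by
          rw [max_eq_right]
          · field_simp
          · rw [sub_nonneg, div_le_one hs]; exact h1.le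
        rw [hw]
        set X := (j : ℝ) - k + (d + 1) / 2 + b' with hXd
        have hfo := foA (y := s / N) (v := (s - j) / N) (X := X / N)
          (by apply div_nonneg (by linarith) hN0.le)
          (by apply div_le_div_of_nonneg_right _ hN0.le; linarith)
          (by rw [div_le_iff₀ hN0]; linarith)
          (by
            rw [div_le_iff₀ hN0]
            have e : (50 / 83 - (s - j) / N / 2) * N = 50 / 83 * N - (s - j) / 2 := by
              field_simp
            rw [e, hXd]; linarith)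
          (by
            rw [div_le_iff₀ hN0]
            have e : (s / N + 1 / 10 - (s - j) / N) * N = j + N / 10 := by
              field_simp
              ring
            rw [e, hXd]; linarith)
        apply fo_conv hs hN0
        have e5 : (0.817104 : ℝ) / 2 = 0.408552 := by norm_num
        rw [e5]
        exact hfo

end classA

end Pool.Agent.Lib.MP_99e3ed_co.H59
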