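import Pool.Agent.Lib.MP_99e3ed_co.H59.NumA

/-!
(F-B): the numerical hypotheses for `k ≥ 5`, `d = 3, 4, 5`.
-/

set_option autoImplicit false

open Finset

namespace Pool.Agent.Lib.MP_99e3ed_co.H59

variable {d k n sT : ℕ} {s : ℝ}

/-- region facts, class B -/
structure RB (d k n : ℕ) (s N : ℝ) : Prop where
  hN : N = (k : ℝ) * d
  hd : (3 : ℝ) ≤ d
  hd5 : (d : ℝ) ≤ 5
  hk : (5 : ℝ) ≤ k
  r1 : 2 * ((n : ℝ) - k) ≤ N
  r2 : 9 * ((n : ℝ) + s - k) ≤ 10 * N
  r3 : s ≤ 0.7223 * N

theorem zB_B (hAB : ABh) {N : ℝ} (hs : 0 < s) (h : RB d k n s N) (hd' : 1 ≤ d) (hk' : 2 ≤ k)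
    {j : ℕ} (hjn : j + d ≤ n) : 1.4 * ZZm d k s j ≤ 0.1565 * k := by
  obtain ⟨hN, hd, hd5, hk, r1, r2, r3⟩ := h
  by_cases hj : k + d ≤ j
  · have hjn' : (j : ℝ) + d ≤ n := by exact_mod_cast hjn
    have hj' : (k : ℝ) + d ≤ j := by exact_mod_cast hj
    have hN5 : 5 * (d : ℝ) ≤ N := by rw [hN]; nlinarith
    have hN6 : 3 * (k : ℝ) ≤ N := by rw [hN]; nlinarith
    refine zz_lin hAB hd' hk' hs (ρ := 1.4) (t0 := 1.7) (a := 0.1285) (B := 0.1565)
      (L := 3 / 4 * k) (by norm_num) hj ?_ (by norm_num) ?_ ?_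
    · have := exp_neg_le (x := 1.7) (c := 0.1834) (by norm_num) (by norm_num) (by norm_num)
      linarith
    · have h1 : (j : ℝ) - k / 2 ≤ 2 / 3 * ((k - 1) * d) := by
        rw [hN] at r1
        nlinarith
      have := mul_le_mul_of_nonneg_left h1 (show (0 : ℝ) ≤ 3 / 4 * k by positivity)
      linarith
    · have h2 : ((k : ℝ) - 1) * d = N - d := by rw [hN]; ring
      rw [h2]
      nlinarith
  · rw [ZZm_zero (by omega) (by omega)]
    have : (0 : ℝ) ≤ 0.1565 * k := by positivity
    linarith

theorem zB'_B (hAB : ABh) {N : ℝ} (hs : 0 < s) (h : RB d k n s N) (hd' : 1 ≤ d) (hk' : 2 ≤ k)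
    {m : ℕ} (hmn : m ≤ n) : 1.4 * ZZm d k s m ≤ 0.2 * k := by
  obtain ⟨hN, hd, hd5, hk, r1, r2, r3⟩ := h
  by_cases hm : k + d ≤ m
  · have hmn' : (m : ℝ) ≤ n := by exact_mod_cast hmn
    have hm' : (k : ℝ) + d ≤ m := by exact_mod_cast hm
    have hN5 : 5 * (d : ℝ) ≤ N := by rw [hN]; nlinarith
    have hN6 : 3 * (k : ℝ) ≤ N := by rw [hN]; nlinarith
    refine zz_lin hAB hd' hk' hs (ρ := 1.4) (t0 := 1.4) (a := 0.1735) (B := 0.2)
      (L := 0.6 * k) (by norm_num) hm ?_ (by norm_num) ?_ ?_
    · have := exp_neg_le (x := 1.4) (c := 0.2475) (by norm_num) (by norm_num) (by norm_num)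
      linarith
    · have h1 : (m : ℝ) - k / 2 ≤ 2 / 3 * N := by linarith
      have h2 := mul_le_mul_of_nonneg_left h1 (show (0 : ℝ) ≤ 0.6 * k by positivity)
      have h3 : ((k : ℝ) - 1) * d * (k / 2) = (N - d) * (k / 2) := by rw [hN]; ring
      rw [h3]
      have h4 : 0.8 * N * (k / 2) ≤ (N - d) * (k / 2) := by
        apply mul_le_mul_of_nonneg_right _ (by positivity)
        linarith
      have hNk : 0 ≤ N * k := by rw [hN]; positivity
      nlinarith
    · have h2 : ((k : ℝ) - 1) * d = N - d := by rw [hN]; ring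
      rw [h2]
      nlinarith
  · rw [ZZm_zero (by omega) (by omega)]
    have : (0 : ℝ) ≤ 0.2 * k := by positivity
    linarith

theorem hH_B (hAB : ABh) {N : ℝ} (h : RB d k n s N) (hd' : 1 ≤ d) (hk' : 2 ≤ k)
    {j : ℕ} (hjn : j + d ≤ n) : hhm d k j ≤ 0.112 := by
  obtain ⟨hN, hd, hd5, hk, r1, r2, r3⟩ := h
  by_cases hj : k + d ≤ j
  · have hjn' : (j : ℝ) + d ≤ n := by exact_mod_cast hjn
    have hj' : (k : ℝ) + d ≤ j := by exact_mod_cast hj
    refine hhm_le_H hAB hd' hk' (Q := 2 / 3) (by norm_num) hj ?_ ?_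
    · rw [hN] at r1
      nlinarith
    · have := exp_neg_le (x := 1 / (2 / 3)) (c := 0.2239) (by norm_num) (by norm_num)
        (by norm_num)
      linarith
  · unfold hhm
    rw [aa_zero (by omega) (by omega)]
    norm_num

theorem numB (hAB : ABh) (hABc : ABc) (hABe : ABe) {N : ℝ} (hs : 0 < s) (h : RB d k n s N)
    (hd3 : 3 ≤ d) (hk5 : 5 ≤ k) : Num d k n s 1.4 1.456 1.119936 0.97 0.1565 := by
  have hRA := h
  obtain ⟨hN, hd, hd5, hk, r1, r2, r3⟩ := h
  have hd1 : 1 ≤ d := by omega
  have hk1 : 1 ≤ k := by omega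
  have hk2 : 2 ≤ k := by omega
  have hN5 : 5 * (d : ℝ) ≤ N := by rw [hN]; nlinarith
  have hN6 : 3 * (k : ℝ) ≤ N := by rw [hN]; nlinarith
  have hNk5 : N ≤ 5 * (k : ℝ) := by rw [hN]; nlinarith
  have hN0 : 0 < N := by linarith
  have hdd : (d : ℝ) ^ 2 / ((d : ℝ) ^ 2 - 1) ≤ 9 / 8 := by
    rw [div_le_div_iff₀ (by nlinarith) (by norm_num)]
    nlinarith
  have hc : ∀ t : ℕ, k + d ≤ t →
      ((k : ℝ) * d) ^ 2 * aa d k t / (((t : ℝ) - d) * (t - k)) ≤ 0.61875 := by
    intro t ht
    refine le_trans (hABc d k t (by omega) hk5 ht) ?_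
    have := mul_le_mul_of_nonneg_left hdd (show (0 : ℝ) ≤ 0.55 by norm_num)
    linarith
  have he : ∀ t : ℕ, k + d ≤ t →
      ((k : ℝ) * d) ^ 2 * aa d k t * t / (((t : ℝ) - d) ^ 2 * (t - k)) ≤ 0.972 := by
    intro t ht
    refine le_trans (hABe d k t (by omega) hk5 ht) ?_
    have h1 := pow_k_le hk5
    have h2 : 0 ≤ (d : ℝ) ^ 2 / ((d : ℝ) ^ 2 - 1) := by
      apply div_nonneg (by positivity)
      nlinarith
    calc 4 * (1 - 2 / (k : ℝ)) ^ (k - 2) * ((d : ℝ) ^ 2 / ((d : ℝ) ^ 2 - 1))
        ≤ 4 * (27 / 125) * ((d : ℝ) ^ 2 / ((d : ℝ) ^ 2 - 1)) := by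
          apply mul_le_mul_of_nonneg_right _ h2
          linarith
      _ ≤ 4 * (27 / 125) * (9 / 8) := mul_le_mul_of_nonneg_left hdd (by norm_num)
      _ ≤ 0.972 := by norm_num
  have hjR : ∀ j : ℕ, j + d ≤ n → (j : ℝ) ≤ 5 / 6 * N := by
    intro j hjn
    have hjn' : (j : ℝ) + d ≤ n := by exact_mod_cast hjn
    linarith
  have hX : ∀ j : ℕ, j + d ≤ n → (j : ℝ) - k + (d + 1) / 2 ≤ 1 / 2 * N := by
    intro j hjn
    have hjn' : (j : ℝ) + d ≤ n := by exact_mod_cast hjn
    linarith
  constructor
  · norm_num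
  · norm_num
  · norm_num
  · norm_num
  · norm_num
  · norm_num
  · norm_num
  · -- zle
    intro j _ hjn
    exact zB_B hAB hs hRA hd1 hk2 hjn
  · -- n1
    intro j hj hjn
    refine f_n1 hd1 hk1 hs (N := N) (y1 := 0.7223) (μ := 0.61875) (H := 0.112) (R := 5 / 6)
      (e1 := 1.3675) hN (by norm_num) (by norm_num) (by norm_num) (by norm_num) r3 (by norm_num)
      hc hj (hjR j hjn) (hH_B hAB hRA hd1 hk2 hjn) (by norm_num) ?_ (by norm_num)
    refine le_trans (exp_le4 (by norm_num) (by norm_num)) (by norm_num)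
  · -- p2a
    intro j hj hjn hsj b hb0 hb1
    apply f_p2a hd1 hk1 hj
    have hjn' : (j : ℝ) + d ≤ n := by exact_mod_cast hjn
    have hb2 := zB_B hAB hs hRA hd1 hk2 hjn
    have hb3 : b * (d + 1) ≤ 0.1565 * k * (d + 1) :=
      mul_le_mul_of_nonneg_right (by linarith) (by linarith)
    have e : 0.1565 * (k : ℝ) * (d + 1) = 0.1565 * N + 0.1565 * k := by rw [hN]; ring
    rw [← hN]
    linarith
  · -- p2b
    intro j hj hjn hsj b hb0 hb1
    have hjn' : (j : ℝ) + d ≤ n := by exact_mod_cast hjn
    have hj' : (k : ℝ) + 1 ≤ j := by exact_mod_cast hj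
    have hb2 := zB_B hAB hs hRA hd1 hk2 hjn
    have hw0 : 0 ≤ 1 - (j : ℝ) / s := by rw [sub_nonneg, div_le_one hs]; exact hsj.le
    have hw1 : 1 - (j : ℝ) / s ≤ 0.7232 := by
      have : 0.2768 ≤ (j : ℝ) / s := by
        rw [le_div_iff₀ hs]
        linarith
      linarith
    rcases Nat.lt_or_ge j (k + d) with hlt | hge
    · have hb : b = 0 := by
        rw [ZZm_zero hk1 hlt] at hb1
        linarith
      apply f_p2b hd1 hk2 hs hj hsj hb0 (fun _ => hb)
      · rw [← hN]; linarith
      · have hlt' : (j : ℝ) < k + d := by exact_mod_cast hlt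
        rw [hb, ← hN]
        have h1 : (1 - (j : ℝ) / s) * (((j : ℝ) + d) * 0.97 + d * 0) ≤
            0.7232 * (((j : ℝ) + d) * 0.97 + d * 0) :=
          mul_le_mul_of_nonneg_right hw1 (by positivity)
        linarith
    · apply f_p2b hd1 hk2 hs hj hsj hb0 (fun h => absurd h (by omega))
      · rw [← hN]; linarith
      · have hge' : (k : ℝ) + d ≤ j := by exact_mod_cast hge
        have hkey := p2B (y := s / N) (v := (s - j) / N) (τ := d / N)
          (xt := ((j : ℝ) + d - k + 0.313 * k) / N)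
          (by apply div_nonneg (by linarith) hN0.le) (by positivity)
          (by rw [div_le_div_iff₀ hN0 (by norm_num)]; linarith)
          (by
            have e : s / N - d / N - 1 / 5 = (s - d - N / 5) / N := by field_simp
            rw [e]; apply div_le_div_of_nonneg_right _ hN0.le; linarith)
          (by rw [div_le_iff₀ hN0]; linarith)
          (by
            rw [div_le_div_iff₀ hN0 (by norm_num)]
            have e : (10 / 9 + (d : ℝ) / N - (s - j) / N) * N = 10 / 9 * N + d - (s - j) := by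
              field_simp
            rw [e]; linarith)
          (by
            have e : s / N + (d : ℝ) / N - (s - j) / N = (j + d) / N := by ring
            rw [e]
            apply div_le_div_of_nonneg_right _ hN0.le
            linarith)
        have e1 : s / N * (((j : ℝ) + d - k + 0.313 * k) / N) +
            (s - j) / N * ((s / N - (s - j) / N + d / N) * 0.97 + 0.1565) =
            s / N * ((((j : ℝ) + d - k + 0.313 * k) +
              (1 - j / s) * (((j : ℝ) + d) * 0.97 + 0.1565 * N)) / N) := by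
          field_simp
          ring
        rw [e1] at hkey
        have h2 : (((j : ℝ) + d - k + 0.313 * k) +
              (1 - j / s) * (((j : ℝ) + d) * 0.97 + 0.1565 * N)) / N ≤ 0.8435 := by
          have h3 : s / N * ((((j : ℝ) + d - k + 0.313 * k) +
              (1 - j / s) * (((j : ℝ) + d) * 0.97 + 0.1565 * N)) / N) ≤ s / N * 0.8435 := by
            linarith
          exact le_of_mul_le_mul_left h3 (by positivity)
        rw [div_le_iff₀ hN0] at h2
        rw [← hN]
        have hbk : b ≤ 0.1565 * k := by linarith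
        have hdb : d * b ≤ 0.1565 * N := by
          rw [hN]
          have := mul_le_mul_of_nonneg_left hbk (show (0 : ℝ) ≤ d by linarith)
          linarith
        have h4 : (1 - (j : ℝ) / s) * (((j : ℝ) + d) * 0.97 + d * b) ≤
            (1 - (j : ℝ) / s) * (((j : ℝ) + d) * 0.97 + 0.1565 * N) :=
          mul_le_mul_of_nonneg_left (by linarith) hw0
        linarith
  · -- n6
    intro j hj hjn hjs
    exact f_n6 hd1 hk1 hs (N := N) (y1 := 0.7223) (μe := 0.972) hN (by norm_num) (by norm_num)
      (by norm_num) r3 he hj (by norm_num)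
  · -- n2
    intro j hj hjn
    exact f_n2 hd1 hk1 hs (N := N) (y1 := 0.7223) (μ := 0.61875) (H := 0.112) (R := 5 / 6)
      hN (by norm_num) (by norm_num) (by norm_num) (by norm_num) (by norm_num) r3 (by norm_num)
      hc hj (hjR j (by omega)) (hH_B hAB hRA hd1 hk2 (by omega)) (by norm_num) (by norm_num)
      (by norm_num)
  · -- n4
    intro j hj hjn _
    exact f_n4 hd1 hk1 hs (N := N) (μ := 0.61875) (R := 5 / 6) hN (by norm_num) (by norm_num)
      (by norm_num) hc hj (hjR j (by omega)) (by norm_num)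
  · -- fl
    intro j hj hjn b b' hb0 hb1 hb0' hb1'
    have hjn' : (j : ℝ) + d ≤ n := by exact_mod_cast hjn
    have hj' : (k : ℝ) + d ≤ j := by exact_mod_cast hj
    have hb2 := zB_B hAB hs hRA hd1 hk2 hjn
    have hb2' := zB'_B hAB hs hRA hd1 hk2 hjn
    have hX1 := hX j hjn
    have hdb : d * b ≤ 0.1565 * N := by
      rw [hN]
      have := mul_le_mul_of_nonneg_left (show b ≤ 0.1565 * k by linarith)
        (show (0 : ℝ) ≤ d by linarith)
      linarith
    have hR : 0.8435 * N ≤ d * (k - b) := by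
      have e : (d : ℝ) * (k - b) = N - d * b := by rw [hN]; ring
      rw [e]; linarith
    refine le_trans ?_ hR
    rcases le_or_gt s j with h1 | h1
    · have hw : max 0 (1 - (j : ℝ) / s) = 0 := by
        apply max_eq_left
        rw [sub_nonpos, le_div_iff₀ hs]; linarith
      rw [hw]
      linarith
    · have hw : max 0 (1 - (j : ℝ) / s) = (s - j) / s := by
        rw [max_eq_right]
        · field_simp
        · rw [sub_nonneg, div_le_one hs]; exact h1.le
      rw [hw]
      set X := (j : ℝ) - k + (d + 1) / 2 + b' with hXd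
      have hX0 : 0 ≤ X := by rw [hXd]; linarith
      have hfo := foB (y := s / N) (v := (s - j) / N) (X := X / N)
        (by apply div_nonneg (by linarith) hN0.le)
        (by apply div_le_div_of_nonneg_right _ hN0.le; linarith)
        (by rw [div_le_iff₀ hN0]; linarith)
        (by
          rw [div_le_iff₀ hN0]
          have e : (5 / 9 - (s - j) / N / 2) * N = 5 / 9 * N - (s - j) / 2 := by
            field_simp
          rw [e, hXd]; linarith)
        (by
          rw [div_le_iff₀ hN0]
          have e : (s / N + 1 / 10 - (s - j) / N) * N = j + N / 10 := by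
            field_simp
            ring
          rw [e, hXd]; linarith)
      have hv0 : 0 ≤ (s - j) / N := div_nonneg (by linarith) hN0.le
      have hXN : 0 ≤ X / N := by positivity
      have hy0 : 0 < s / N := by positivity
      have h2 : (s / N + 0.456 * ((s - j) / N)) * (X / N) ≤ 0.8435 * (s / N) := by
        have h3 : (s / N + 0.456 * ((s - j) / N)) * (X / N) ≤
            (s / N + 0.559968 * ((s - j) / N)) * (X / N) :=
          mul_le_mul_of_nonneg_right (by linarith) hXN
        linarith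
      have e2 : (1 + (s - j) / s * (1.456 - 1)) * X =
          N * N / s * ((s / N + 0.456 * ((s - j) / N)) * (X / N)) := by
        field_simp
        ring
      rw [e2]
      have e3 : 0.8435 * N = N * N / s * (0.8435 * (s / N)) := by field_simp
      rw [e3]
      exact mul_le_mul_of_nonneg_left h2 (by positivity)
  · -- fo
    intro j hj hjn b b' hb0 hb1 hb0' hb1'
    have hjn' : (j : ℝ) + d ≤ n := by exact_mod_cast hjn
    have hj' : (k : ℝ) + d ≤ j := by exact_mod_cast hj
    have hb2 := zB_B hAB hs hRA hd1 hk2 hjn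
    have hb2' := zB'_B hAB hs hRA hd1 hk2 hjn
    have hX1 := hX j hjn
    refine f_fo hd1 hk1 (B := 0.1565) (c0 := 0.588) (F0 := 0.92112) (le_max_left _ _)
      (by norm_num) hb0 (by linarith) (by norm_num) (by norm_num) (by norm_num) (by linarith)
      ?_ (by norm_num) ?_
    · have e : ((d : ℝ) - 1) * k = N - k := by rw [hN]; ring
      rw [e]; linarith
    · rw [← hN]
      rcases le_or_gt s j with h1 | h1
      · have hw : max 0 (1 - (j : ℝ) / s) = 0 := by
          apply max_eq_left
          rw [sub_nonpos, le_div_iff₀ hs]; linarith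
        rw [hw]
        linarith
      · have hw : max 0 (1 - (j : ℝ) / s) = (s - j) / s := by
          rw [max_eq_right]
          · field_simp
          · rw [sub_nonneg, div_le_one hs]; exact h1.le
        rw [hw]
        set X := (j : ℝ) - k + (d + 1) / 2 + b' with hXd
        have hfo := foB (y := s / N) (v := (s - j) / N) (X := X / N)
          (by apply div_nonneg (by linarith) hN0.le)
          (by apply div_le_div_of_nonneg_right _ hN0.le; linarith)
          (by rw [div_le_iff₀ hN0]; linarith)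
          (by
            rw [div_le_iff₀ hN0]
            have e : (5 / 9 - (s - j) / N / 2) * N = 5 / 9 * N - (s - j) / 2 := by
              field_simp
            rw [e, hXd]; linarith)
          (by
            rw [div_le_iff₀ hN0]
            have e : (s / N + 1 / 10 - (s - j) / N) * N = j + N / 10 := by
              field_simp
              ring
            rw [e, hXd]; linarith)
        apply fo_conv hs hN0
        have e5 : (1.119936 : ℝ) / 2 = 0.559968 := by norm_num
        rw [e5]
        exact hfo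

end Pool.Agent.Lib.MP_99e3ed_co.H59
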