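import Pool.Agent.Lib.MP_99e3ed_co.H59.NumGen

/-!
(F-B): the fields of `Num` from normalised inequalities.
-/

set_option autoImplicit false

open Finset

namespace Pool.Agent.Lib.MP_99e3ed_co.H59

variable {d k : ℕ} {s : ℝ}

theorem sigma_le {N R : ℝ} {j : ℕ} (hs : 0 < s) (hR : 0 < R) (hj0 : 0 < j)
    (hj : (j : ℝ) ≤ R * N) (hyR : s / N ≤ R) :
    max 0 (1 - s / j) ≤ 1 - s / N / R := by
  have hjr : (0 : ℝ) < j := by exact_mod_cast hj0
  apply max_le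
  · rw [sub_nonneg, div_le_one hR]; exact hyR
  · have : s / N / R ≤ s / j := by
      rw [div_div]
      apply div_le_div_of_nonneg_left hs.le hjr
      rw [mul_comm]; exact hj
    linarith

theorem f_n1 (hd : 1 ≤ d) (hk : 1 ≤ k) (hs : 0 < s) {N y1 μ ρ H R e1 : ℝ} (hN : N = k * d)
    (hρ : 0 < ρ) (hμ : 0 ≤ μ) (hH : 0 ≤ H) (hR : 0 < R) (hy : s ≤ y1 * N) (hyR : y1 ≤ R)
    (hc : ∀ t : ℕ, k + d ≤ t →
      ((k : ℝ) * d) ^ 2 * aa d k t / (((t : ℝ) - d) * (t - k)) ≤ μ)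
    {j : ℕ} (hj : k ≤ j) (hjR : (j : ℝ) ≤ R * N) (hh : hhm d k j ≤ H)
    (hA : ρ * H / R ≤ ρ * μ / 2) (he : Real.exp (ρ * μ / 2 * y1) ≤ e1)
    (hfin : e1 * (1 + ρ * H * (1 - y1 / R)) ≤ ρ) :
    Real.exp (ρ * QQ d k s j) * (1 + max 0 (1 - s / j) * (ρ * ZZm d k s j * j / (s * k))) ≤ ρ := by
  have hdr : (1 : ℝ) ≤ d := by exact_mod_cast hd
  have hkr : (1 : ℝ) ≤ k := by exact_mod_cast hk
  have hN0 : 0 < N := by rw [hN]; positivity
  have hy' : s / N ≤ y1 := by rw [div_le_iff₀ hN0]; exact hy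
  have hy0 : 0 ≤ s / N := by positivity
  have hQ := QQ_le hd hk hs hμ hc j
  rw [← hN] at hQ
  have h1 : ρ * QQ d k s j ≤ ρ * μ / 2 * (s / N) := by
    have := mul_le_mul_of_nonneg_left hQ hρ.le
    linarith
  have h2 := Real.exp_le_exp.2 h1
  rw [ZZm_ratio hd hk hs hj]
  have hσ := sigma_le hs hR (by omega : 0 < j) hjR (by linarith)
  have h0 := hhm_nonneg hd hk j
  have h3 : max 0 (1 - s / (j : ℝ)) * (ρ * hhm d k j) ≤ ρ * H * (1 - s / N / R) := by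
    have h4 : max 0 (1 - s / (j : ℝ)) * (ρ * hhm d k j) ≤ (1 - s / N / R) * (ρ * hhm d k j) :=
      mul_le_mul_of_nonneg_right hσ (by positivity)
    have h5 : 0 ≤ 1 - s / N / R := le_trans (le_max_left _ _) hσ
    have h6 : (1 - s / N / R) * (ρ * hhm d k j) ≤ (1 - s / N / R) * (ρ * H) :=
      mul_le_mul_of_nonneg_left (mul_le_mul_of_nonneg_left hh hρ.le) h5
    linarith
  have h7 := n1_real (A := ρ * μ / 2) (b := ρ * H) hy' hyR (by positivity) hR hA he hfin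
  refine le_trans ?_ h7
  apply mul_le_mul h2 (by linarith) _ (Real.exp_pos _).le
  have : 0 ≤ max 0 (1 - s / (j : ℝ)) * (ρ * hhm d k j) :=
    mul_nonneg (le_max_left _ _) (by positivity)
  linarith

theorem f_n2 (hd : 1 ≤ d) (hk : 1 ≤ k) (hs : 0 < s) {N y1 μ ρ H R E B : ℝ} (hN : N = k * d)
    (hρ : 0 < ρ) (hμ : 0 ≤ μ) (hR : 0 < R) (hE : 1 ≤ E) (hB : B < 1)
    (hy : s ≤ y1 * N) (hyR : y1 ≤ R)
    (hc : ∀ t : ℕ, k + d ≤ t →
      ((k : ℝ) * d) ^ 2 * aa d k t / (((t : ℝ) - d) * (t - k)) ≤ μ)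
    {j : ℕ} (hj : k ≤ j) (hjR : (j : ℝ) ≤ R * N) (hh : hhm d k j ≤ H)
    (hAR : ρ * μ / 2 * R ≤ 1) (hbB : ρ * H ≤ 1 - B) (hfin : E * (ρ * μ / 2 * y1) ≤ E - 1) :
    E * (ρ * QQ d k s j) + max 0 (max 0 (1 - s / j) * E - 1) *
      (ρ * ZZm d k s j * j / (s * k)) / (1 - B) ≤ E - 1 := by
  have hdr : (1 : ℝ) ≤ d := by exact_mod_cast hd
  have hkr : (1 : ℝ) ≤ k := by exact_mod_cast hk
  have hN0 : 0 < N := by rw [hN]; positivity
  have hy' : s / N ≤ y1 := by rw [div_le_iff₀ hN0]; exact hy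
  have hy0 : 0 ≤ s / N := by positivity
  have hQ := QQ_le hd hk hs hμ hc j
  rw [← hN] at hQ
  have h1 : ρ * QQ d k s j ≤ ρ * μ / 2 * (s / N) := by
    have := mul_le_mul_of_nonneg_left hQ hρ.le
    linarith
  rw [ZZm_ratio hd hk hs hj]
  have hσ := sigma_le hs hR (by omega : 0 < j) hjR (by linarith)
  have h0 := hhm_nonneg hd hk j
  have h2 : ρ * μ / 2 * (s / N) ≤ ρ * μ / 2 * y1 := mul_le_mul_of_nonneg_left hy' (by positivity)
  have h3 := n2_real (E := E) (A := ρ * μ / 2) (b := ρ * H) (B := B) (R := R) (y := s / N)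
    (σ := max 0 (1 - s / (j : ℝ))) (h := ρ * hhm d k j) hy0 hR hE hAR hB hbB
    (by positivity) (mul_le_mul_of_nonneg_left hh hρ.le) hσ (by
      have := mul_le_mul_of_nonneg_left h2 (show (0:ℝ) ≤ E by linarith)
      linarith)
  have h4 := mul_le_mul_of_nonneg_left h1 (show (0:ℝ) ≤ E by linarith)
  linarith

theorem f_n4 (hd : 1 ≤ d) (hk : 1 ≤ k) (hs : 0 < s) {N μ ρ R E : ℝ} (hN : N = k * d)
    (hρ : 0 < ρ) (hμ : 0 ≤ μ) (hE : 1 ≤ E)
    (hc : ∀ t : ℕ, k + d ≤ t →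
      ((k : ℝ) * d) ^ 2 * aa d k t / (((t : ℝ) - d) * (t - k)) ≤ μ)
    {j : ℕ} (hj : k ≤ j) (hjR : (j : ℝ) ≤ R * N) (hEAR : E * (ρ * μ / 2) * R ≤ 1) :
    E * (ρ * QQ d k s j) ≤ s / j := by
  have hdr : (1 : ℝ) ≤ d := by exact_mod_cast hd
  have hkr : (1 : ℝ) ≤ k := by exact_mod_cast hk
  have hN0 : 0 < N := by rw [hN]; positivity
  have hjr : (0 : ℝ) < j := by
    have : 0 < j := by omega
    exact_mod_cast this
  have hQ := QQ_le hd hk hs hμ hc j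
  rw [← hN] at hQ
  have h1 : E * (ρ * QQ d k s j) ≤ E * (ρ * μ / 2) * (s / N) := by
    have := mul_le_mul_of_nonneg_left (mul_le_mul_of_nonneg_left hQ hρ.le)
      (show (0:ℝ) ≤ E by linarith)
    linarith
  refine le_trans h1 ?_
  rw [le_div_iff₀ hjr, ← mul_div_assoc, div_mul_eq_mul_div, div_le_iff₀ hN0]
  have h2 : E * (ρ * μ / 2) * s * j ≤ E * (ρ * μ / 2) * s * (R * N) :=
    mul_le_mul_of_nonneg_left hjR (by positivity)
  have h3 : E * (ρ * μ / 2) * R * (s * N) ≤ 1 * (s * N) :=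
    mul_le_mul_of_nonneg_right hEAR (by positivity)
  linarith

theorem f_n6 (hd : 1 ≤ d) (hk : 1 ≤ k) (hs : 0 < s) {N y1 μe ρ η : ℝ} (hN : N = k * d)
    (hρ : 0 < ρ) (hμe : 0 ≤ μe) (hη : 0 ≤ η) (hy : s ≤ y1 * N)
    (he : ∀ t : ℕ, k + d ≤ t →
      ((k : ℝ) * d) ^ 2 * aa d k t * t / (((t : ℝ) - d) ^ 2 * (t - k)) ≤ μe)
    {j : ℕ} (hj : k ≤ j) (hfin : ρ * (y1 / 2) * (1 + η) * μe ≤ η) :
    ρ * ZZm d k s (j + d) * ((j : ℝ) + d) * d * (1 + η) ≤ η * ((j : ℝ) + d - k) * j := by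
  have hdr : (1 : ℝ) ≤ d := by exact_mod_cast hd
  have hkr : (1 : ℝ) ≤ k := by exact_mod_cast hk
  have hN0 : 0 < N := by rw [hN]; positivity
  have hkj : (k : ℝ) ≤ j := by exact_mod_cast hj
  have hjr : (0 : ℝ) < j := by linarith
  have h1 := he (j + d) (by omega)
  push_cast at h1
  have e0 : (j : ℝ) + d - d = j := by ring
  rw [e0] at h1
  have hpos : (0 : ℝ) < (j : ℝ) ^ 2 * ((j : ℝ) + d - k) := by
    apply mul_pos (by positivity)
    linarith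
  rw [div_le_iff₀ hpos] at h1
  have e1 : ρ * ZZm d k s (j + d) * ((j : ℝ) + d) * d * (1 + η) =
      ρ * (s / 2) * (1 + η) / (N * j) *
        (((k : ℝ) * d) ^ 2 * aa d k (j + d) * ((j : ℝ) + d)) := by
    unfold ZZm
    push_cast
    rw [e0, hN]
    field_simp
  rw [e1]
  have h2 : ρ * (s / 2) * (1 + η) / (N * j) *
      (((k : ℝ) * d) ^ 2 * aa d k (j + d) * ((j : ℝ) + d)) ≤
      ρ * (s / 2) * (1 + η) / (N * j) * (μe * ((j : ℝ) ^ 2 * ((j : ℝ) + d - k))) :=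
    mul_le_mul_of_nonneg_left h1 (by positivity)
  refine le_trans h2 ?_
  have e2 : ρ * (s / 2) * (1 + η) / (N * j) * (μe * ((j : ℝ) ^ 2 * ((j : ℝ) + d - k))) =
      (ρ * (s / N / 2) * (1 + η) * μe) * (((j : ℝ) + d - k) * j) := by
    field_simp
  rw [e2]
  have hy' : s / N ≤ y1 := by rw [div_le_iff₀ hN0]; exact hy
  have h3 : ρ * (s / N / 2) * (1 + η) * μe ≤ η := by
    refine le_trans ?_ hfin
    apply mul_le_mul_of_nonneg_right _ hμe
    apply mul_le_mul_of_nonneg_right _ (by linarith)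
    apply mul_le_mul_of_nonneg_left _ hρ.le
    linarith
  have h4 : 0 ≤ ((j : ℝ) + d - k) * j := mul_nonneg (by linarith) hjr.le
  have := mul_le_mul_of_nonneg_right h3 h4
  linarith

theorem f_p2a (hd : 1 ≤ d) (hk : 1 ≤ k) {j : ℕ} {b : ℝ} (hj : k < j)
    (h : (j : ℝ) + d - k + b * (d + 1) ≤ k * d) :
    ((j : ℝ) + d) * (j - k + b) ≤ d * ((j : ℝ) - 1) * (k - b) := by
  have hdr : (1 : ℝ) ≤ d := by exact_mod_cast hd
  have hkr : (1 : ℝ) ≤ k := by exact_mod_cast hk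
  have hjr : (0 : ℝ) < j := by
    have : 0 < j := by omega
    exact_mod_cast this
  have e : d * ((j : ℝ) - 1) * (k - b) - ((j : ℝ) + d) * (j - k + b) =
      j * (k * d - (j + d - k + b * (d + 1))) := by ring
  have := mul_nonneg hjr.le (show 0 ≤ (k : ℝ) * d - (j + d - k + b * (d + 1)) by linarith)
  linarith

theorem f_p2b (hd : 1 ≤ d) (hk : 2 ≤ k) (hs : 0 < s) {j : ℕ} {b η : ℝ} (hj : k < j)
    (hjs : (j : ℝ) < s) (hb0 : 0 ≤ b) (hbz : j < k + d → b = 0)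
    (hx : (j : ℝ) + d - k ≤ k * d)
    (h : (j : ℝ) + d - k + (2 + d) * b + (1 - j / s) * (((j : ℝ) + d) * η + d * b) ≤ k * d) :
    ((j : ℝ) + d) * (j - k + b) * k / ((j : ℝ) - 1) + (1 - j / s) * ((j : ℝ) + d) * (η * k) ≤
      d * (k - b) * (k - (1 - j / s) * b) := by
  have hdr : (1 : ℝ) ≤ d := by exact_mod_cast hd
  have hkr : (2 : ℝ) ≤ k := by exact_mod_cast hk
  have hkj : (k : ℝ) + 1 ≤ j := by exact_mod_cast hj
  have hj1 : (0 : ℝ) < (j : ℝ) - 1 := by linarith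
  set w := 1 - (j : ℝ) / s with hw
  have hw0 : 0 ≤ w := by rw [hw, sub_nonneg, div_le_one hs]; exact hjs.le
  have h1 : ((j : ℝ) + d) * (j - k + b) / ((j : ℝ) - 1) ≤ (j : ℝ) + d - k + 2 * b := by
    rw [div_le_iff₀ hj1]
    have e : ((j : ℝ) + d) * (j - k) = (k * d) * (j - 1) - j * (k * d - (j + d - k)) := by ring
    have h2 : ((j : ℝ) + d) * (j - k) ≤ ((j : ℝ) + d - k) * (j - 1) := by
      rw [e]
      nlinarith
    have h3 : ((j : ℝ) + d) * b ≤ 2 * b * (j - 1) := by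
      rcases Nat.lt_or_ge j (k + d) with h4 | h4
      · rw [hbz h4]; simp
      · have h5 : (k : ℝ) + d ≤ j := by exact_mod_cast h4
        nlinarith
    nlinarith
  have h2 := mul_le_mul_of_nonneg_right h1 (show (0 : ℝ) ≤ k by linarith)
  have e1 : ((j : ℝ) + d) * (j - k + b) / ((j : ℝ) - 1) * k =
      ((j : ℝ) + d) * (j - k + b) * k / ((j : ℝ) - 1) := by ring
  rw [e1] at h2
  have e2 : d * (k - b) * (k - w * b) = k * (k * d - d * b - w * (d * b)) + d * w * b ^ 2 := by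
    ring
  have h3 : 0 ≤ d * w * b ^ 2 := by positivity
  have h4 := mul_le_mul_of_nonneg_left h (show (0 : ℝ) ≤ k by linarith)
  rw [e2]
  linarith

theorem f_fo (hd : 1 ≤ d) (hk : 1 ≤ k) {j : ℕ} {b b' w E C B c0 F0 : ℝ}
    (hw : 0 ≤ w) (hE : 0 ≤ E) (hb0 : 0 ≤ b) (hbB : b ≤ B * k) (hB1 : B ≤ 1)
    (hc1 : c0 ≤ 1) (hc0 : 0 ≤ c0)
    (hpos : 0 < (j : ℝ) + d - k + b')
    (hc : 2 * c0 * ((j : ℝ) + d - k + b') ≤ (d - 1) * k)
    (hF : F0 ≤ (1 - B) * (1 + c0 * B))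
    (h : E * (1 + w * C / 2) * ((j : ℝ) - k + (d + 1) / 2 + b') ≤ k * d * (F0 - w * E * B)) :
    E * (1 + w * C / 2) * ((j : ℝ) - k + (d + 1) / 2 + b') ≤
      d * ((k - b) * (1 + ((d : ℝ) - 1) * b / (2 * ((j : ℝ) + d - k + b'))) - w * E * b) := by
  have hdr : (1 : ℝ) ≤ d := by exact_mod_cast hd
  have hkr : (1 : ℝ) ≤ k := by exact_mod_cast hk
  refine le_trans h ?_
  set M := (j : ℝ) + d - k + b' with hM
  have h1 : c0 * (b / k) ≤ ((d : ℝ) - 1) * b / (2 * M) := by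
    rw [← mul_div_assoc, div_le_div_iff₀ (by linarith) (by linarith)]
    have := mul_le_mul_of_nonneg_right hc hb0
    linarith
  set β := b / (k : ℝ) with hβ
  have hbk : b = β * k := by rw [hβ]; field_simp
  have hβ0 : 0 ≤ β := by positivity
  have hβB : β ≤ B := by rw [hβ, div_le_iff₀ (by linarith)]; exact hbB
  have hB0 : 0 ≤ B := le_trans hβ0 hβB
  have h2 : (1 - B) * (1 + c0 * B) - w * E * B ≤ (1 - β) * (1 + c0 * β) - w * E * β := by
    have e : ((1 - β) * (1 + c0 * β) - w * E * β) - ((1 - B) * (1 + c0 * B) - w * E * B) =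
        (B - β) * (1 - c0 + c0 * (B + β) + w * E) := by ring
    have : 0 ≤ (B - β) * (1 - c0 + c0 * (B + β) + w * E) := by
      apply mul_nonneg (by linarith)
      have := mul_nonneg hc0 (show 0 ≤ B + β by linarith)
      have := mul_nonneg hw hE
      linarith
    linarith
  have h3 : (k : ℝ) * d * (F0 - w * E * B) ≤ k * d * ((1 - β) * (1 + c0 * β) - w * E * β) := by
    apply mul_le_mul_of_nonneg_left _ (by positivity)
    linarith
  refine le_trans h3 ?_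
  have e2 : (k : ℝ) * d * ((1 - β) * (1 + c0 * β) - w * E * β) =
      d * ((k - b) * (1 + c0 * β) - w * E * b) := by rw [hbk]; ring
  rw [e2]
  apply mul_le_mul_of_nonneg_left _ (by linarith)
  have h4 : (k - b) * (1 + c0 * β) ≤ (k - b) * (1 + ((d : ℝ) - 1) * b / (2 * M)) := by
    apply mul_le_mul_of_nonneg_left (by linarith)
    have : B * k ≤ 1 * k := mul_le_mul_of_nonneg_right hB1 (by linarith)
    linarith
  linarith

end Pool.Agent.Lib.MP_99e3ed_co.H59
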