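import Pool.Agent.Lib.MP_99e3ed_co.H59.Seq4

/-!
(F-B): generic numerical lemmas.
-/

set_option autoImplicit false

open Finset

namespace Pool.Agent.Lib.MP_99e3ed_co.H59

variable {d k : ℕ} {s : ℝ}

theorem cast_facts {t : ℕ} (hd : 1 ≤ d) (hk : 1 ≤ k) (ht : k + d ≤ t) :
    (1 : ℝ) ≤ d ∧ (1 : ℝ) ≤ k ∧ (k : ℝ) + d ≤ t := by
  refine ⟨by exact_mod_cast hd, by exact_mod_cast hk, ?_⟩
  exact_mod_cast ht

theorem ZZm_term (hd : 1 ≤ d) (hk : 1 ≤ k) {t : ℕ} (ht : k + d ≤ t) :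
    ZZm d k s t / ((t : ℝ) - k) = s / (2 * ((k : ℝ) * d) * d) *
      (((k : ℝ) * d) ^ 2 * aa d k t / (((t : ℝ) - d) * (t - k))) := by
  obtain ⟨h1, h2, h3⟩ := cast_facts hd hk ht
  have h4 : (t : ℝ) - d ≠ 0 := by linarith
  have h5 : (t : ℝ) - k ≠ 0 := by linarith
  have h6 : (d : ℝ) ≠ 0 := by linarith
  have h7 : (k : ℝ) ≠ 0 := by linarith
  unfold ZZm
  field_simp

theorem QQ_le (hd : 1 ≤ d) (hk : 1 ≤ k) (hs : 0 < s) {μ : ℝ} (hμ : 0 ≤ μ)
    (hc : ∀ t : ℕ, k + d ≤ t →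
      ((k : ℝ) * d) ^ 2 * aa d k t / (((t : ℝ) - d) * (t - k)) ≤ μ) (j : ℕ) :
    QQ d k s j ≤ μ / 2 * (s / ((k : ℝ) * d)) := by
  have h1 : (1 : ℝ) ≤ d := by exact_mod_cast hd
  have h2 : (1 : ℝ) ≤ k := by exact_mod_cast hk
  have hterm : ∀ t ∈ Ioc j (j + d), ZZm d k s t / ((t : ℝ) - k) ≤
      s / (2 * ((k : ℝ) * d) * d) * μ := by
    intro t _
    by_cases h : k + d ≤ t
    · rw [ZZm_term hd hk h]
      exact mul_le_mul_of_nonneg_left (hc t h) (by positivity)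
    · rw [ZZm_zero hk (by omega), zero_div]
      positivity
  have h3 := sum_le_sum hterm
  rw [sum_const, nsmul_eq_mul] at h3
  have hcard : (Ioc j (j + d)).card = d := by simp
  rw [hcard] at h3
  have e : (d : ℝ) * (s / (2 * ((k : ℝ) * d) * d) * μ) = μ / 2 * (s / ((k : ℝ) * d)) := by
    field_simp
  unfold QQ
  linarith

/-- `h_m = a_m m/(2(m-d))` -/
noncomputable def hhm (d k m : ℕ) : ℝ := aa d k m * m / ((m : ℝ) - d) / 2

theorem hhm_nonneg (hd : 1 ≤ d) (hk : 1 ≤ k) (m : ℕ) : 0 ≤ hhm d k m := by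
  unfold hhm
  by_cases h : k + d ≤ m
  · obtain ⟨h1, h2, h3⟩ := cast_facts hd hk h
    have h4 : 0 < (m : ℝ) - d := by linarith
    have := aa_nonneg d k m
    positivity
  · rw [aa_zero hk (by omega)]
    simp

theorem ZZm_hhm (hd : 1 ≤ d) (hk : 1 ≤ k) {m : ℕ} :
    ZZm d k s m = s * k / m * hhm d k m := by
  by_cases h : k + d ≤ m
  · obtain ⟨h1, h2, h3⟩ := cast_facts hd hk h
    have h4 : (m : ℝ) - d ≠ 0 := by linarith
    have h5 : (m : ℝ) ≠ 0 := by linarith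
    unfold ZZm hhm
    field_simp
  · unfold hhm
    rw [ZZm_zero hk (by omega), aa_zero hk (by omega)]
    simp

theorem ZZm_ratio (hd : 1 ≤ d) (hk : 1 ≤ k) (hs : 0 < s) {m : ℕ} (hm : k ≤ m) {ρ : ℝ} :
    ρ * ZZm d k s m * m / (s * k) = ρ * hhm d k m := by
  rw [ZZm_hhm hd hk]
  have h2 : (0 : ℝ) < k := by exact_mod_cast hk
  have h5 : (0 : ℝ) < m := by
    have : 0 < m := by omega
    exact_mod_cast this
  field_simp

theorem hhm_le (hAB : ABh) (hd : 1 ≤ d) (hk : 2 ≤ k) {m : ℕ} (hm : k + d ≤ m) :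
    hhm d k m ≤ Real.exp (-(((k : ℝ) - 1) * d / ((m : ℝ) - k / 2))) / 2 := by
  obtain ⟨h1, h2, h3⟩ := cast_facts hd (by omega : 1 ≤ k) hm
  have h := hAB d k m hd hk hm
  have h4 : 0 < (m : ℝ) - k / 2 := by linarith
  unfold hhm
  apply div_le_div_of_nonneg_right _ (by norm_num)
  refine le_trans h ?_
  have h5 : 0 ≤ 1 - (d : ℝ) / ((m : ℝ) - k / 2) := by
    rw [sub_nonneg, div_le_one h4]; linarith
  have h6 : 1 - (d : ℝ) / ((m : ℝ) - k / 2) ≤ Real.exp (-((d : ℝ) / ((m : ℝ) - k / 2))) := by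
    have := Real.add_one_le_exp (-((d : ℝ) / ((m : ℝ) - k / 2)))
    linarith
  have h7 := pow_le_pow_left₀ h5 h6 (k - 1)
  refine le_trans h7 ?_
  rw [← Real.exp_nat_mul]
  apply le_of_eq
  congr 1
  rw [Nat.cast_sub (by omega)]
  push_cast
  ring

theorem hhm_le_H (hAB : ABh) (hd : 1 ≤ d) (hk : 2 ≤ k) {m : ℕ} {Q H : ℝ} (hQ : 0 < Q)
    (hm : k + d ≤ m) (hm2 : (m : ℝ) - k / 2 ≤ Q * (((k : ℝ) - 1) * d))
    (hH : Real.exp (-(1 / Q)) / 2 ≤ H) : hhm d k m ≤ H := by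
  obtain ⟨h1, h2, h3⟩ := cast_facts hd (by omega : 1 ≤ k) hm
  have h4 : 0 < (m : ℝ) - k / 2 := by linarith
  refine le_trans (hhm_le hAB hd hk hm) (le_trans ?_ hH)
  apply div_le_div_of_nonneg_right _ (by norm_num)
  apply Real.exp_le_exp.2
  rw [neg_le_neg_iff, div_le_div_iff₀ hQ h4]
  linarith

/-- linear bound for `Z` -/
theorem zz_lin (hAB : ABh) (hd : 1 ≤ d) (hk : 2 ≤ k) (hs : 0 < s) {ρ t0 a B L : ℝ} {m : ℕ}
    (hρ : 0 < ρ) (hm : k + d ≤ m) (ha : ρ * Real.exp (-t0) / 2 ≤ a)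
    (hB : 0 < B) (hL : L * ((m : ℝ) - k / 2) ≤ ((k : ℝ) - 1) * d * (k / 2))
    (hlin : a * s + B * (t0 - 1) * m ≤ B * (((k : ℝ) - 1) * d + L)) :
    ρ * ZZm d k s m ≤ B * k := by
  obtain ⟨h1, h2, h3⟩ := cast_facts hd (by omega : 1 ≤ k) hm
  have h4 : 0 < (m : ℝ) - k / 2 := by linarith
  have hmr : (0 : ℝ) < m := by linarith
  set T := ((k : ℝ) - 1) * d / ((m : ℝ) - k / 2) with hT
  have hTm : ((k : ℝ) - 1) * d + L ≤ T * m := by
    have e1 : T * m = ((k : ℝ) - 1) * d + ((k : ℝ) - 1) * d * (k / 2) / ((m : ℝ) - k / 2) := by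
      rw [hT]
      obtain ⟨X, hX⟩ : ∃ X : ℝ, X = (m : ℝ) - k / 2 := ⟨_, rfl⟩
      have hm' : (m : ℝ) = X + k / 2 := by rw [hX]; ring
      have hX0 : X ≠ 0 := by rw [hX]; exact h4.ne'
      rw [← hX, hm']
      field_simp
    rw [e1]
    have : L ≤ ((k : ℝ) - 1) * d * (k / 2) / ((m : ℝ) - k / 2) := by
      rw [le_div_iff₀ h4]; exact hL
    linarith
  have ha0 : 0 < a := lt_of_lt_of_le (by positivity) ha
  have h5 : a * s ≤ B * m * (1 + T - t0) := by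
    have := mul_le_mul_of_nonneg_left hTm hB.le
    nlinarith
  have h6 : 0 < 1 + T - t0 := by
    have h7 : 0 < B * m * (1 + T - t0) := lt_of_lt_of_le (by positivity) h5
    by_contra h8
    push Not at h8
    have : B * m * (1 + T - t0) ≤ 0 := mul_nonpos_of_nonneg_of_nonpos (by positivity) h8
    linarith
  have h7 : Real.exp (-T) ≤ Real.exp (-t0) / (1 + T - t0) := by
    rw [le_div_iff₀ h6]
    have h8 : 1 + T - t0 ≤ Real.exp (T - t0) := by
      have := Real.add_one_le_exp (T - t0)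
      linarith
    have h9 := mul_le_mul_of_nonneg_left h8 (Real.exp_pos (-T)).le
    rw [← Real.exp_add] at h9
    have e : -T + (T - t0) = -t0 := by ring
    rwa [e] at h9
  have h10 := hhm_le hAB hd hk hm
  rw [← hT] at h10
  rw [ZZm_hhm hd (by omega)]
  have h11 : hhm d k m ≤ Real.exp (-t0) / (1 + T - t0) / 2 := by
    refine le_trans h10 ?_
    exact div_le_div_of_nonneg_right h7 (by norm_num)
  have h12 : ρ * (s * k / m * hhm d k m) ≤ s * k / m * (a / (1 + T - t0)) := by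
    have e1 : ρ * (s * k / m * hhm d k m) = s * k / m * (ρ * hhm d k m) := by ring
    rw [e1]
    apply mul_le_mul_of_nonneg_left _ (by positivity)
    calc ρ * hhm d k m ≤ ρ * (Real.exp (-t0) / (1 + T - t0) / 2) :=
          mul_le_mul_of_nonneg_left h11 hρ.le
      _ = (ρ * Real.exp (-t0) / 2) / (1 + T - t0) := by ring
      _ ≤ a / (1 + T - t0) := div_le_div_of_nonneg_right ha h6.le
  refine le_trans h12 ?_
  have e2 : s * k / m * (a / (1 + T - t0)) = a * s * k / (m * (1 + T - t0)) := by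
    field_simp
  rw [e2, div_le_iff₀ (by positivity)]
  have := mul_le_mul_of_nonneg_right h5 (show (0 : ℝ) ≤ k by linarith)
  linarith

theorem n1_real {ρ A b R y1 e1 y : ℝ} (hy : y ≤ y1) (hyR : y1 ≤ R) (hb : 0 ≤ b)
    (hR : 0 < R) (hA : b / R ≤ A) (he : Real.exp (A * y1) ≤ e1)
    (hfin : e1 * (1 + b * (1 - y1 / R)) ≤ ρ) :
    Real.exp (A * y) * (1 + b * (1 - y / R)) ≤ ρ := by
  have hA0 : 0 ≤ A := le_trans (by positivity) hA
  have h1 : Real.exp (A * y) * (1 + A * (y1 - y)) ≤ e1 := by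
    have h2 : 1 + A * (y1 - y) ≤ Real.exp (A * (y1 - y)) := by
      have := Real.add_one_le_exp (A * (y1 - y))
      linarith
    have h3 := mul_le_mul_of_nonneg_left h2 (Real.exp_pos (A * y)).le
    rw [← Real.exp_add] at h3
    have e : A * y + A * (y1 - y) = A * y1 := by ring
    rw [e] at h3
    linarith
  have hy1R : 0 ≤ 1 - y1 / R := by rw [sub_nonneg, div_le_one hR]; exact hyR
  have h4 : 1 + b * (1 - y / R) ≤ (1 + A * (y1 - y)) * (1 + b * (1 - y1 / R)) := by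
    have e : 1 + b * (1 - y / R) = (1 + b * (1 - y1 / R)) + b / R * (y1 - y) := by
      field_simp; ring
    rw [e]
    have h5 : b / R * (y1 - y) ≤ A * (y1 - y) := mul_le_mul_of_nonneg_right hA (by linarith)
    have h6 : 0 ≤ b * (1 - y1 / R) := mul_nonneg hb hy1R
    have h7 : 0 ≤ A * (y1 - y) := mul_nonneg hA0 (by linarith)
    nlinarith [mul_nonneg h6 h7]
  have h8 : 0 ≤ 1 + b * (1 - y1 / R) := by
    have := mul_nonneg hb hy1R
    linarith
  calc Real.exp (A * y) * (1 + b * (1 - y / R))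
      ≤ Real.exp (A * y) * ((1 + A * (y1 - y)) * (1 + b * (1 - y1 / R))) :=
        mul_le_mul_of_nonneg_left h4 (Real.exp_pos _).le
    _ = (Real.exp (A * y) * (1 + A * (y1 - y))) * (1 + b * (1 - y1 / R)) := by ring
    _ ≤ e1 * (1 + b * (1 - y1 / R)) := mul_le_mul_of_nonneg_right h1 h8
    _ ≤ ρ := hfin

theorem n2_real {E A b B R y σ h : ℝ} (hy0 : 0 ≤ y) (hR : 0 < R) (hE : 1 ≤ E)
    (hAR : A * R ≤ 1) (hB : B < 1) (hbB : b ≤ 1 - B) (hh0 : 0 ≤ h) (hhb : h ≤ b)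
    (hσ : σ ≤ 1 - y / R) (hfin : E * (A * y) ≤ E - 1) :
    E * (A * y) + max 0 (σ * E - 1) * h / (1 - B) ≤ E - 1 := by
  have hB' : 0 < 1 - B := by linarith
  rcases le_or_gt (σ * E) 1 with h1 | h1
  · rw [max_eq_left (by linarith)]
    simp only [zero_mul, zero_div, add_zero]
    exact hfin
  · rw [max_eq_right (by linarith)]
    have h2 : σ * E ≤ (1 - y / R) * E := mul_le_mul_of_nonneg_right hσ (by linarith)
    set r := (1 - y / R) * E - 1 with hr
    have hr0 : 0 < r := by linarith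
    have h3 : (σ * E - 1) * h / (1 - B) ≤ r := by
      rw [div_le_iff₀ hB']
      have h4 : (σ * E - 1) * h ≤ r * h := mul_le_mul_of_nonneg_right (by linarith) hh0
      have h5 : r * h ≤ r * (1 - B) := mul_le_mul_of_nonneg_left (by linarith) hr0.le
      linarith
    have h6 : E * (A * y) = A * R * (E - 1 - r) := by
      rw [hr]; field_simp; ring
    have h7 : 0 ≤ E - 1 - r := by
      have : E - 1 - r = y / R * E := by rw [hr]; ring
      rw [this]; positivity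
    have h8 : A * R * (E - 1 - r) ≤ 1 * (E - 1 - r) := mul_le_mul_of_nonneg_right hAR h7
    linarith

/-- Bernoulli: `(1-2/k)^(k-2) ≤ (3/5)^3` for `k ≥ 5` -/
theorem pow_k_le (hk : 5 ≤ k) : (1 - 2 / (k : ℝ)) ^ (k - 2) ≤ 27 / 125 := by
  have hkr : (5 : ℝ) ≤ k := by exact_mod_cast hk
  obtain ⟨M, rfl⟩ : ∃ M, k = M + 2 := ⟨k - 2, by omega⟩
  have hM : 3 ≤ M := by omega
  have hMr : (3 : ℝ) ≤ M := by exact_mod_cast hM
  rw [Nat.add_sub_cancel]
  push_cast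
  have e1 : 1 - 2 / ((M : ℝ) + 2) = (1 + 2 / (M : ℝ))⁻¹ := by
    field_simp
    ring
  rw [e1, inv_pow]
  have h1 : (5 / 3 : ℝ) ^ 3 ≤ (1 + 2 / (M : ℝ)) ^ M := by
    have h2 : 1 + ((M : ℝ) / 3) * (2 / M) ≤ (1 + 2 / (M : ℝ)) ^ ((M : ℝ) / 3) :=
      one_add_mul_self_le_rpow_one_add (by
        have : 0 ≤ 2 / (M : ℝ) := by positivity
        linarith) (by linarith)
    have e2 : 1 + ((M : ℝ) / 3) * (2 / M) = 5 / 3 := by
      field_simp
      ring
    rw [e2] at h2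
    have h3 := pow_le_pow_left₀ (by norm_num) h2 3
    refine le_trans h3 ?_
    rw [← Real.rpow_natCast, ← Real.rpow_mul (by positivity), ← Real.rpow_natCast]
    apply le_of_eq
    congr 1
    push_cast
    ring
  have h4 : (0 : ℝ) < (1 + 2 / (M : ℝ)) ^ M := by positivity
  rw [inv_le_comm₀ h4 (by norm_num)]
  refine le_trans (by norm_num) h1

end Pool.Agent.Lib.MP_99e3ed_co.H59
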