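import Pool.Agent.Lib.MP_99e3ed_co.H59.Defs

/-!
(F-B): first-order part of the recursion (bounds and monotonicity of `Y`).
-/

set_option autoImplicit false

open Finset

namespace Pool.Agent.Lib.MP_99e3ed_co.H59

/-- the comparison sequence -/
noncomputable def ZZm (d k : ℕ) (s : ℝ) (m : ℕ) : ℝ := s / 2 * (k / ((m : ℝ) - d)) * aa d k m

theorem aa_zero {d k m : ℕ} (hk : 1 ≤ k) (h : m < k + d) : aa d k m = 0 := by
  unfold aa
  rw [Nat.choose_eq_zero_of_lt (by omega)]
  simp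

theorem aa_nonneg (d k m : ℕ) : 0 ≤ aa d k m := by unfold aa; positivity

theorem aa_pos {d k m : ℕ} (h : k + d ≤ m) : 0 < aa d k m := by
  unfold aa
  have h1 : 0 < (m - d).choose k := Nat.choose_pos (by omega)
  have h2 : 0 < m.choose k := Nat.choose_pos (by omega)
  positivity

theorem choose_step {k t : ℕ} (hkt : k ≤ t) :
    ((t.choose k : ℝ)) = ((t + 1).choose k : ℝ) * (((t + 1 : ℕ) : ℝ) - k) / ((t + 1 : ℕ) : ℝ) := by
  have h := Nat.choose_mul_succ_eq t k
  have h2 : ((t.choose k : ℝ)) * ((t : ℝ) + 1) = ((t + 1).choose k : ℝ) * ((t : ℝ) + 1 - k) := by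
    have h3 : ((t + 1 - k : ℕ) : ℝ) = (t : ℝ) + 1 - k := by
      rw [Nat.cast_sub (by omega)]; push_cast; ring
    rw [← h3]
    exact_mod_cast h
  have h4 : ((t + 1 : ℕ) : ℝ) ≠ 0 := by positivity
  rw [eq_div_iff h4]
  push_cast
  exact h2

/-- `a_{j+d}` as a product -/
theorem aa_prod {d k j : ℕ} (hj : k ≤ j) :
    aa d k (j + d) = ∏ t ∈ Ioc j (j + d), (((t : ℝ) - k) / t) := by
  have key : ∀ e : ℕ, ((j.choose k : ℝ)) = ((j + e).choose k : ℝ) *
      ∏ t ∈ Ioc j (j + e), (((t : ℝ) - k) / t) := by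
    intro e
    induction e with
    | zero => simp
    | succ e ih =>
      rw [← add_assoc, Finset.prod_Ioc_succ_top (by omega)]
      have h := choose_step (k := k) (t := j + e) (by omega)
      rw [ih, h]
      ring
  unfold aa
  have h2 : 0 < (j + d).choose k := Nat.choose_pos (by omega)
  have h3 : ((j + d).choose k : ℝ) ≠ 0 := by positivity
  rw [Nat.add_sub_cancel, div_eq_iff h3, key d]
  ring

theorem ZZm_zero {d k m : ℕ} {s : ℝ} (hk : 1 ≤ k) (h : m < k + d) : ZZm d k s m = 0 := by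
  unfold ZZm
  rw [aa_zero hk h, mul_zero]

theorem ZZm_pos {d k m : ℕ} {s : ℝ} (hk : 1 ≤ k) (hs : 0 < s) (h : k + d ≤ m) :
    0 < ZZm d k s m := by
  unfold ZZm
  have h1 := aa_pos h
  have h2 : (0 : ℝ) < k := by exact_mod_cast hk
  have h3 : (0 : ℝ) < (m : ℝ) - d := by
    have : ((k + d : ℕ) : ℝ) ≤ m := by exact_mod_cast h
    push_cast at this
    linarith
  positivity

theorem ZZm_nonneg {d k m : ℕ} {s : ℝ} (hk : 1 ≤ k) (hs : 0 < s) : 0 ≤ ZZm d k s m := by
  by_cases h : k + d ≤ m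
  · exact (ZZm_pos hk hs h).le
  · rw [ZZm_zero hk (by omega)]

variable {d k n : ℕ} {s : ℝ} {Y y z : ℕ → ℝ}

theorem al_pos (S : Sys d k n s Y y z) {j : ℕ} (hj : k ≤ j) (hjn : j + d ≤ n) :
    0 < al d k Y j := by
  unfold al
  apply prod_pos
  intro t ht
  rw [mem_Ioc] at ht
  have := S.gpos t (by omega) (by omega)
  have h2 : (0 : ℝ) < t := by
    have : 0 < t := by omega
    exact_mod_cast this
  positivity

/-- the product over the interior indices -/
noncomputable def bet (d k : ℕ) (Y : ℕ → ℝ) (j : ℕ) : ℝ :=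
  ∏ t ∈ Ioc j (j + d - 1), gg k Y t / t

theorem bet_pos (S : Sys d k n s Y y z) {j : ℕ} (hj : k ≤ j) (hjn : j + d ≤ n) :
    0 < bet d k Y j := by
  unfold bet
  apply prod_pos
  intro t ht
  rw [mem_Ioc] at ht
  have := S.gpos t (by omega) (by omega)
  have h2 : (0 : ℝ) < t := by
    have : 0 < t := by omega
    exact_mod_cast this
  positivity

theorem al_top (hd : 1 ≤ d) (j : ℕ) :
    al d k Y j = bet d k Y j * (gg k Y (j + d) / ((j : ℝ) + d)) := by
  unfold al bet
  obtain ⟨e, rfl⟩ : ∃ e, d = e + 1 := ⟨d - 1, by omega⟩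
  have h1 : j + (e + 1) - 1 = j + e := by omega
  rw [h1, ← add_assoc, Finset.prod_Ioc_succ_top (by omega)]
  push_cast
  ring

theorem al_bot (hd : 1 ≤ d) (i : ℕ) :
    al d k Y i = (gg k Y (i + 1) / ((i : ℝ) + 1)) * bet d k Y (i + 1) := by
  unfold al bet
  have h1 : i + 1 + d - 1 = i + d := by omega
  rw [h1, ← Finset.prod_Ioc_consecutive (fun t => gg k Y t / (t : ℝ)) (m := i) (n := i + 1)
    (k := i + d) (by omega) (by omega)]
  congr 1
  rw [Nat.Ioc_succ_singleton, prod_singleton]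
  push_cast
  ring

/-- step (P1) -/
theorem stepP1 (S : Sys d k n s Y y z) {ρ : ℝ} (hd : 1 ≤ d) (hk : 1 ≤ k) (hs : 0 < s)
    (hρ : 0 < ρ) {j : ℕ} (hj : k ≤ j) (hjn : j + d ≤ n)
    (hlt : ∀ t, k ≤ t → t < j + d → 0 ≤ Y t ∧ Y t ≤ ρ * ZZm d k s t)
    (hYk : Y j ≤ k)
    (N1 : (∏ t ∈ Ioc j (j + d), (1 + ρ * ZZm d k s t / ((t : ℝ) - k))) *
      (1 + max 0 (1 - s / j) * (ρ * ZZm d k s j * j / (s * k))) ≤ ρ) :
    0 ≤ Y (j + d) ∧ Y (j + d) ≤ ρ * ZZm d k s (j + d) := by
  have hkr : (0 : ℝ) < k := by exact_mod_cast hk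
  have hjr : (0 : ℝ) < j := by
    have : 0 < j := by omega
    exact_mod_cast this
  have hdr : (0 : ℝ) < d := by exact_mod_cast hd
  have hkj : (k : ℝ) ≤ j := by exact_mod_cast hj
  set m := j + d with hm
  have hmr : (m : ℝ) = j + d := by rw [hm]; push_cast; ring
  have hmk : (0 : ℝ) < (m : ℝ) - k := by rw [hmr]; linarith
  have hZ : ZZm d k s m = s * k / (2 * j) * aa d k m := by
    unfold ZZm
    rw [hmr]
    have : (j : ℝ) + d - d = j := by ring
    rw [this]
    field_simp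
  have hZpos : 0 < ZZm d k s m := ZZm_pos hk hs (by omega)
  -- decomposition of alpha
  set Pr := ∏ t ∈ Ioc j (m - 1), (1 + Y t / ((t : ℝ) - k)) with hPr
  have hdec : al d k Y j = aa d k m * (Pr * (gg k Y m / ((m : ℝ) - k))) := by
    have e1 : al d k Y j = aa d k m * ∏ t ∈ Ioc j m, (1 + Y t / ((t : ℝ) - k)) := by
      rw [hm, aa_prod hj, ← prod_mul_distrib]
      unfold al
      apply prod_congr rfl
      intro t ht
      rw [mem_Ioc] at ht
      have h1 : (k : ℝ) < t := by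
        have : k < t := by omega
        exact_mod_cast this
      have h2 : (t : ℝ) - k ≠ 0 := by linarith
      have h3 : (t : ℝ) ≠ 0 := by linarith
      unfold gg
      field_simp
    have e2 : ∏ t ∈ Ioc j m, (1 + Y t / ((t : ℝ) - k)) = Pr * (1 + Y m / ((m : ℝ) - k)) := by
      obtain ⟨q, hq⟩ : ∃ q, m = q + 1 := ⟨m - 1, by omega⟩
      have hjq : j ≤ q := by omega
      rw [hPr, hq, Nat.add_sub_cancel, Finset.prod_Ioc_succ_top hjq]
    rw [e1, e2]
    congr 2
    unfold gg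
    field_simp
  have hPr1 : 0 < Pr := by
    apply prod_pos
    intro t ht
    rw [mem_Ioc] at ht
    have h1 : (k : ℝ) < t := by
      have : k < t := by omega
      exact_mod_cast this
    have := (hlt t (by omega) (by omega)).1
    have h2 : 0 ≤ Y t / ((t : ℝ) - k) := div_nonneg this (by linarith)
    linarith
  obtain ⟨hYj0, hYj1⟩ := hlt j hj (by omega)
  have hrec := S.recY j hj hjn
  rw [← hm] at hrec
  set X := Psi k s Y j * j / (s * k) with hX
  have hPsi : Psi k s Y j = s * k / j * X := by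
    rw [hX]; field_simp
  have hPsi0 : 0 ≤ Psi k s Y j := by
    unfold Psi
    have : 0 ≤ s * (k - Y j) / j := by
      apply div_nonneg _ hjr.le
      exact mul_nonneg hs.le (by linarith)
    linarith
  have hX0 : 0 ≤ X := by rw [hX]; positivity
  have hX1 : X ≤ 1 + max 0 (1 - s / j) * (ρ * ZZm d k s j * j / (s * k)) := by
    have e1 : X = 1 + (1 - s / j) * (Y j * j / (s * k)) := by
      rw [hX]; unfold Psi; field_simp; ring
    rw [e1]
    have h1 : (1 - s / j) * (Y j * j / (s * k)) ≤ max 0 (1 - s / j) * (Y j * j / (s * k)) :=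
      mul_le_mul_of_nonneg_right (le_max_right _ _) (by positivity)
    have h2 : Y j * j / (s * k) ≤ ρ * ZZm d k s j * j / (s * k) := by
      apply div_le_div_of_nonneg_right _ (by positivity)
      exact mul_le_mul_of_nonneg_right hYj1 hjr.le
    have h3 := mul_le_mul_of_nonneg_left h2 (le_max_left 0 (1 - s / (j : ℝ)))
    linarith
  -- `Y_m (m-k) = Z_m Pr X g_m`
  have hkey : Y m * ((m : ℝ) - k) = ZZm d k s m * Pr * X * gg k Y m := by
    rw [hdec, hPsi] at hrec
    rw [hZ]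
    have : 2 * Y m * ((m : ℝ) - k) = aa d k m * (Pr * gg k Y m) * (s * k / j * X) := by
      rw [hrec]; field_simp
    have h2 : Y m * ((m : ℝ) - k) = (aa d k m * (Pr * gg k Y m) * (s * k / j * X)) / 2 := by
      linarith
    rw [h2]
    field_simp
  have hg := S.gpos m (by omega) hjn
  have hYm0 : 0 ≤ Y m := by
    have : 0 ≤ Y m * ((m : ℝ) - k) := by rw [hkey]; positivity
    exact nonneg_of_mul_nonneg_left this hmk
  refine ⟨hYm0, ?_⟩
  -- the upper bound
  set F := Pr * X with hF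
  have hPle : Pr ≤ ∏ t ∈ Ioc j (m - 1), (1 + ρ * ZZm d k s t / ((t : ℝ) - k)) := by
    apply prod_le_prod
    · intro t ht
      rw [mem_Ioc] at ht
      have h1 : (k : ℝ) < t := by
        have : k < t := by omega
        exact_mod_cast this
      have := (hlt t (by omega) (by omega)).1
      have h2 : 0 ≤ Y t / ((t : ℝ) - k) := div_nonneg this (by linarith)
      linarith
    · intro t ht
      rw [mem_Ioc] at ht
      have h1 : (k : ℝ) < t := by
        have : k < t := by omega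
        exact_mod_cast this
      have := (hlt t (by omega) (by omega)).2
      have h2 : Y t / ((t : ℝ) - k) ≤ ρ * ZZm d k s t / ((t : ℝ) - k) :=
        div_le_div_of_nonneg_right this (by linarith)
      linarith
  have hsplit : ∏ t ∈ Ioc j m, (1 + ρ * ZZm d k s t / ((t : ℝ) - k)) =
      (∏ t ∈ Ioc j (m - 1), (1 + ρ * ZZm d k s t / ((t : ℝ) - k))) *
        (1 + ρ * ZZm d k s m / ((m : ℝ) - k)) := by
    obtain ⟨q, hq⟩ : ∃ q, m = q + 1 := ⟨m - 1, by omega⟩
    have hjq : j ≤ q := by omega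
    rw [hq, Nat.add_sub_cancel, Finset.prod_Ioc_succ_top hjq]
  rw [hsplit] at N1
  set P' := ∏ t ∈ Ioc j (m - 1), (1 + ρ * ZZm d k s t / ((t : ℝ) - k)) with hP'
  set B := 1 + max 0 (1 - s / (j : ℝ)) * (ρ * ZZm d k s j * j / (s * k)) with hB
  have hP'0 : 0 < P' := lt_of_lt_of_le hPr1 hPle
  have hB0 : 0 ≤ B := le_trans hX0 hX1
  have hFle : F ≤ P' * B := by
    rw [hF]
    exact mul_le_mul hPle hX1 hX0 hP'0.le
  set c := ρ * ZZm d k s m / ((m : ℝ) - k) with hc
  have hc0 : 0 < c := by positivity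
  have hF1 : F * (1 + c) ≤ ρ := by
    have : F * (1 + c) ≤ P' * B * (1 + c) := mul_le_mul_of_nonneg_right hFle (by linarith)
    nlinarith
  by_contra hcon
  push Not at hcon
  -- `Y_m (m-k) = Z F (m - k + Y_m)`
  have hkey2 : Y m * ((m : ℝ) - k) = ZZm d k s m * F * ((m : ℝ) - k + Y m) := by
    rw [hkey, hF]; unfold gg; ring
  have hcm : c * ((m : ℝ) - k) = ρ * ZZm d k s m := by rw [hc]; field_simp
  have hF0 : 0 ≤ F := by rw [hF]; positivity
  -- Z F < m - k ... compare
  have h1 : ZZm d k s m * F * (1 + c) ≤ ρ * ZZm d k s m := by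
    have := mul_le_mul_of_nonneg_left hF1 hZpos.le
    linarith
  -- multiply
  have h2 : Y m * (c * ((m : ℝ) - k)) < Y m * Y m := by
    apply mul_lt_mul_of_pos_left _ (lt_of_le_of_lt (by positivity) hcon)
    rw [hcm]; exact hcon
  -- from hkey2 : Y(m-k)(1+c) = Z F (1+c) (m-k+Y) ≤ ρ Z (m-k+Y) = c (m-k)(m-k+Y)
  have h3 : Y m * ((m : ℝ) - k) * (1 + c) ≤ c * ((m : ℝ) - k) * ((m : ℝ) - k + Y m) := by
    rw [hkey2, hcm]
    have h6 : 0 ≤ (m : ℝ) - k + Y m := by linarith
    have h7 := mul_le_mul_of_nonneg_right h1 h6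
    calc ZZm d k s m * F * ((m : ℝ) - k + Y m) * (1 + c)
        = ZZm d k s m * F * (1 + c) * ((m : ℝ) - k + Y m) := by ring
      _ ≤ _ := h7
  have h4 : Y m * ((m : ℝ) - k) ≤ c * ((m : ℝ) - k) * ((m : ℝ) - k) := by
    have e1 : c * ((m : ℝ) - k) * ((m : ℝ) - k + Y m) =
        c * ((m : ℝ) - k) * ((m : ℝ) - k) + Y m * ((m : ℝ) - k) * c := by ring
    have e2 : Y m * ((m : ℝ) - k) * (1 + c) =
        Y m * ((m : ℝ) - k) + Y m * ((m : ℝ) - k) * c := by ring
    rw [e1, e2] at h3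
    linarith
  have h5 : Y m ≤ c * ((m : ℝ) - k) := by
    by_contra h
    push Not at h
    have := mul_lt_mul_of_pos_right h hmk
    linarith
  rw [hcm] at h5
  linarith

end Pool.Agent.Lib.MP_99e3ed_co.H59
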