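import Pool.Agent.Lib.MP_99e3ed_co.H59.Seq1

/-!
(F-B): monotonicity of `Y` and the bound of its increments.
-/

set_option autoImplicit false

open Finset

namespace Pool.Agent.Lib.MP_99e3ed_co.H59

variable {d k n : ℕ} {s : ℝ} {Y y z : ℕ → ℝ}

theorem Psi_nonneg {j : ℕ} (hs : 0 ≤ s) (h0 : 0 ≤ Y j) (h1 : Y j ≤ k) :
    0 ≤ Psi k s Y j := by
  unfold Psi
  have : 0 ≤ s * (k - Y j) / j := by
    apply div_nonneg _ (Nat.cast_nonneg _)
    exact mul_nonneg hs (by linarith)
  linarith

/-- exact formula for the decrease of `Psi` -/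
theorem Psi_diff {i : ℕ} (hi : 0 < i) :
    Psi k s Y i - Psi k s Y (i + 1) = s * (k - Y i) / (i * (i + 1)) +
      (s / (i + 1) - 1) * (Y (i + 1) - Y i) := by
  have h1 : (0 : ℝ) < i := by exact_mod_cast hi
  unfold Psi
  push_cast
  field_simp
  ring

/-- step (P2) -/
theorem stepP2 (S : Sys d k n s Y y z) (hd : 1 ≤ d) (hs : 0 < s) {i : ℕ} (hi : k ≤ i)
    (hin : i + 1 + d ≤ n) (h0 : 0 ≤ Y (i + 1)) (h1 : Y (i + 1) ≤ k)
    (hmon : Y (i + 1) ≤ Y (i + d))
    (num : gg k Y (i + 1) / ((i : ℝ) + 1) * Psi k s Y i ≤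
      ((i : ℝ) + 1 + d - k + Y (i + 1)) / ((i : ℝ) + 1 + d) * Psi k s Y (i + 1)) :
    Y (i + d) ≤ Y (i + 1 + d) := by
  have hir : (0 : ℝ) ≤ i := Nat.cast_nonneg _
  have hdr : (0 : ℝ) < d := by exact_mod_cast hd
  have hki : (k : ℝ) ≤ i := by exact_mod_cast hi
  have hA := bet_pos S (j := i + 1) (by omega) hin
  have r1 := S.recY i hi (by omega)
  have r2 := S.recY (i + 1) (by omega) hin
  rw [al_bot hd] at r1
  rw [al_top hd] at r2
  have hg := S.gpos (i + 1 + d) (by omega) hin
  set A := bet d k Y (i + 1) with hAdef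
  set P1 := Psi k s Y (i + 1) with hP1
  set P0 := Psi k s Y i with hP0
  have hP1n : 0 ≤ P1 := Psi_nonneg hs.le h0 h1
  set q := A * P1 / 2 with hq
  have hq0 : 0 ≤ q := by positivity
  set M := (i : ℝ) + 1 + d with hM
  have hMpos : 0 < M := by positivity
  have hMk : 0 < M - k := by rw [hM]; linarith
  have hgm : gg k Y (i + 1 + d) = M - k + Y (i + 1 + d) := by
    unfold gg; rw [hM]; push_cast; ring
  have e2 : Y (i + 1 + d) * M = q * (M - k + Y (i + 1 + d)) := by
    rw [hgm] at r2
    have hc : (((i + 1 : ℕ) : ℝ) + d) = M := by rw [hM]; push_cast; ring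
    rw [hc] at r2
    have : 2 * Y (i + 1 + d) * M = A * (M - k + Y (i + 1 + d)) * P1 := by
      rw [r2]; field_simp
    rw [hq]; linarith
  have hqM : q < M := by
    by_contra h
    push Not at h
    rw [hgm] at hg
    have : M * (M - k + Y (i + 1 + d)) ≤ q * (M - k + Y (i + 1 + d)) :=
      mul_le_mul_of_nonneg_right h hg.le
    rw [← e2] at this
    have h3 : M * (M - k) ≤ 0 := by nlinarith
    nlinarith [mul_pos hMpos hMk]
  have e1 : Y (i + d) * M ≤ q * (M - k + Y (i + d)) := by
    have h2 : 2 * Y (i + d) = A * (gg k Y (i + 1) / ((i : ℝ) + 1) * P0) := by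
      rw [r1]; ring
    have h3 : A * (gg k Y (i + 1) / ((i : ℝ) + 1) * P0) ≤
        A * ((M - k + Y (i + 1)) / M * P1) := mul_le_mul_of_nonneg_left num hA.le
    have h4 : A * ((M - k + Y (i + 1)) / M * P1) = 2 * (q * (M - k + Y (i + 1)) / M) := by
      rw [hq]; ring
    have h5 : Y (i + d) ≤ q * (M - k + Y (i + 1)) / M := by linarith
    have h6 : Y (i + d) * M ≤ q * (M - k + Y (i + 1)) := by
      rwa [le_div_iff₀ hMpos] at h5
    have h7 : q * (M - k + Y (i + 1)) ≤ q * (M - k + Y (i + d)) :=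
      mul_le_mul_of_nonneg_left (by linarith) hq0
    linarith
  -- Y(i+d) (M-q) ≤ q (M-k) = Y(m)(M-q)
  have h8 : Y (i + d) * (M - q) ≤ Y (i + 1 + d) * (M - q) := by nlinarith
  exact le_of_mul_le_mul_right h8 (by linarith)

/-- step (P5) -/
theorem stepP5 (S : Sys d k n s Y y z) (hd : 1 ≤ d) (hk : 1 ≤ k) (hs : 0 < s) {j : ℕ}
    (hj : k ≤ j) (hjn : j + d ≤ n) (hjs : (j : ℝ) ≤ s)
    (hYj0 : 0 ≤ Y j) (hYj1 : Y j ≤ k) (hYm : 0 ≤ Y (j + d))
    (hmon : k < j → 0 ≤ Y (j - 1) ∧ Y (j - 1) ≤ Y j) :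
    gg k Y (j + d) * (Y (j + d) - Y (j + d - 1)) ≤
      Y (j + d) * (k * d / j + Y (j + d) - Y j) := by
  have hjr : (0 : ℝ) < j := by
    have : 0 < j := by omega
    exact_mod_cast this
  have hdr : (0 : ℝ) < d := by exact_mod_cast hd
  have hkr : (0 : ℝ) < k := by exact_mod_cast hk
  have hkj : (k : ℝ) ≤ j := by exact_mod_cast hj
  have hgm : gg k Y (j + d) = j + d - k + Y (j + d) := by unfold gg; push_cast; ring
  rcases Nat.eq_or_lt_of_le hj with hjk | hjk
  · -- j = k
    subst hjk
    have z1 := S.zero (k + d - 1) (by omega) (by omega) (by omega)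
    have z2 := S.zero k le_rfl (by omega) (by omega)
    rw [z1.1, z2.1, hgm]
    have : (k : ℝ) * d / k = d := by field_simp
    rw [this]
    apply le_of_eq
    ring
  · obtain ⟨i, rfl⟩ : ∃ i, j = i + 1 := ⟨j - 1, by omega⟩
    have hir : (0 : ℝ) < i := by
      have : 0 < i := by omega
      exact_mod_cast this
    have hmon' := hmon hjk
    rw [Nat.add_sub_cancel] at hmon'
    have hm1 : i + 1 + d - 1 = i + d := by omega
    rw [hm1]
    have hA := bet_pos S (j := i + 1) (by omega) hjn
    have r1 := S.recY i (by omega) (by omega)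
    have r2 := S.recY (i + 1) (by omega) hjn
    rw [al_bot hd] at r1
    rw [al_top hd] at r2
    have hg := S.gpos (i + 1 + d) (by omega) hjn
    have hgj := S.gpos (i + 1) (by omega) (by omega)
    set A := bet d k Y (i + 1) with hAdef
    have hPle : Psi k s Y (i + 1) ≤ Psi k s Y i := by
      have h1 := Psi_diff (k := k) (s := s) (Y := Y) (i := i) (by omega)
      push_cast at hjs
      have h2 : 0 ≤ s * (k - Y i) / (i * ((i : ℝ) + 1)) := by
        apply div_nonneg
        · exact mul_nonneg hs.le (by linarith)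
        · positivity
      have h3 : 0 ≤ (s / ((i : ℝ) + 1) - 1) * (Y (i + 1) - Y i) := by
        apply mul_nonneg _ (by linarith)
        rw [sub_nonneg, le_div_iff₀ (by positivity)]
        linarith
      linarith
    set P1 := Psi k s Y (i + 1) with hP1
    set P0 := Psi k s Y i with hP0
    set M := (i : ℝ) + 1 + d with hM
    have hMpos : 0 < M := by positivity
    have hc : (((i + 1 : ℕ) : ℝ) + d) = M := by rw [hM]; push_cast; ring
    rw [hc] at r2 hgm
    set g := gg k Y (i + 1 + d) with hgdef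
    set gj := gg k Y (i + 1) with hgjdef
    set Ym := Y (i + 1 + d) with hYmdef
    -- A P1 g = 2 Ym M
    have e2 : A * P1 * g = 2 * Ym * M := by
      rw [r2]; field_simp
    have e1 : 2 * Y (i + d) = gj / ((i : ℝ) + 1) * A * P0 := r1
    have h3 : gj / ((i : ℝ) + 1) * A * P1 ≤ 2 * Y (i + d) := by
      rw [e1]
      apply mul_le_mul_of_nonneg_left hPle
      positivity
    have h4 : gj / ((i : ℝ) + 1) * (2 * Ym * M) ≤ 2 * Y (i + d) * g := by
      rw [← e2]
      have := mul_le_mul_of_nonneg_right h3 hg.le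
      calc gj / ((i : ℝ) + 1) * (A * P1 * g) = gj / ((i : ℝ) + 1) * A * P1 * g := by ring
        _ ≤ _ := this
    -- conclusion
    have hgj2 : gj = (i : ℝ) + 1 - k + Y (i + 1) := by
      rw [hgjdef]; unfold gg; push_cast; ring
    have h5 : M / ((i : ℝ) + 1) * gj = M - k + Y (i + 1) - k * d / ((i : ℝ) + 1) +
        Y (i + 1) * (d / ((i : ℝ) + 1)) := by
      rw [hgj2, hM]; field_simp; ring
    have h6 : M - k + Y (i + 1) - k * d / ((i : ℝ) + 1) ≤ M / ((i : ℝ) + 1) * gj := by
      rw [h5]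
      have : 0 ≤ Y (i + 1) * (d / ((i : ℝ) + 1)) := by positivity
      linarith
    have h7 : Ym * (M / ((i : ℝ) + 1) * gj) ≤ Y (i + d) * g := by
      have e3 : gj / ((i : ℝ) + 1) * (2 * Ym * M) = 2 * (Ym * (M / ((i : ℝ) + 1) * gj)) := by
        field_simp
      rw [e3] at h4
      linarith
    have h8 := mul_le_mul_of_nonneg_left h6 hYm
    have hcast : (((i + 1 : ℕ) : ℝ)) = (i : ℝ) + 1 := by push_cast; ring
    rw [hcast]
    have e4 : g * (Ym - Y (i + d)) = Ym * g - Y (i + d) * g := by ring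
    rw [e4]
    have e5 : Ym * (k * d / ((i : ℝ) + 1) + Ym - Y (i + 1)) =
        Ym * g - Ym * (M - k + Y (i + 1) - k * d / ((i : ℝ) + 1)) := by
      rw [hgm]; ring
    rw [e5]
    linarith

/-- the increments of `Y` for indices `t ≤ s + d` -/
theorem eta_bound {ρ η : ℝ} {M : ℕ} (hd : 1 ≤ d) (hk : 1 ≤ k) (hη : 0 ≤ η)
    (hz : ∀ t, k ≤ t → t ≤ M → t < k + d → Y t = 0)
    (hY : ∀ t, k + d ≤ t → t ≤ M → 0 ≤ Y t ∧ Y t ≤ ρ * ZZm d k s t)
    (hP5 : ∀ j, k ≤ j → j + d ≤ M → (j : ℝ) ≤ s →
      gg k Y (j + d) * (Y (j + d) - Y (j + d - 1)) ≤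
        Y (j + d) * (k * d / j + Y (j + d) - Y j))
    (N6 : ∀ j, k ≤ j → j + d ≤ M → (j : ℝ) ≤ s →
      ρ * ZZm d k s (j + d) * ((j : ℝ) + d) * d * (1 + η) ≤ η * ((j : ℝ) + d - k) * j) :
    ∀ t, k < t → t ≤ M → (t : ℝ) ≤ s + d → (t : ℝ) * (Y t - Y (t - 1)) ≤ η * k := by
  intro t
  induction t using Nat.strong_induction_on with
  | _ t ih =>
    intro hkt htM hts
    have hkr : (0 : ℝ) < k := by exact_mod_cast hk
    have hdr : (0 : ℝ) < d := by exact_mod_cast hd
    rcases Nat.lt_or_ge t (k + d) with hlt | hge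
    · rw [hz t (by omega) htM hlt, hz (t - 1) (by omega) (by omega) (by omega)]
      simp only [sub_zero, mul_zero]
      positivity
    · obtain ⟨j, rfl⟩ : ∃ j, t = j + d := ⟨t - d, by omega⟩
      have hj : k ≤ j := by omega
      have hjr : (0 : ℝ) < j := by
        have : 0 < j := by omega
        exact_mod_cast this
      have hkj : (k : ℝ) ≤ j := by exact_mod_cast hj
      push_cast at hts
      have hjs : (j : ℝ) ≤ s := by linarith
      -- partial sums
      have hpart : ∀ e : ℕ, e < d → Y (j + e) - Y j ≤ e * (η * k / j) := by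
        intro e
        induction e with
        | zero => intro _; simp
        | succ e ihe =>
          intro he
          have h1 := ihe (by omega)
          have h2 := ih (j + (e + 1)) (by omega) (by omega) (by omega) (by
            push_cast
            have : ((e : ℝ) + 1) ≤ d := by exact_mod_cast he.le
            linarith)
          have h3 : j + (e + 1) - 1 = j + e := by omega
          rw [h3] at h2
          have hpos : (0 : ℝ) < ((j + (e + 1) : ℕ) : ℝ) := by positivity
          have h4 : Y (j + (e + 1)) - Y (j + e) ≤ η * k / ((j + (e + 1) : ℕ) : ℝ) := by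
            rw [le_div_iff₀ hpos]
            linarith
          have h5 : η * k / ((j + (e + 1) : ℕ) : ℝ) ≤ η * k / j := by
            apply div_le_div_of_nonneg_left (by positivity) hjr
            push_cast
            linarith [(Nat.cast_nonneg e : (0:ℝ) ≤ (e:ℝ))]
          push_cast at *
          linarith
      have h1 := hpart (d - 1) (by omega)
      have h2 : j + (d - 1) = j + d - 1 := by omega
      rw [h2] at h1
      have h3 : (((d - 1 : ℕ)) : ℝ) ≤ d := by
        have : d - 1 ≤ d := by omega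
        exact_mod_cast this
      have h4 : Y (j + d - 1) - Y j ≤ d * (η * k / j) := by
        have : (((d - 1 : ℕ)) : ℝ) * (η * k / j) ≤ d * (η * k / j) :=
          mul_le_mul_of_nonneg_right h3 (by positivity)
        linarith
      have h5 := hP5 j hj htM hjs
      obtain ⟨hY0, hY1⟩ := hY (j + d) (by omega) htM
      have hmk : (0 : ℝ) < (j : ℝ) + d - k := by linarith
      -- (m-k) Δ ≤ Y (kd/j + d η k/j)
      have h6 : ((j : ℝ) + d - k) * (Y (j + d) - Y (j + d - 1)) ≤
          Y (j + d) * (k * d / j + d * (η * k / j)) := by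
        have e1 : gg k Y (j + d) = (j : ℝ) + d - k + Y (j + d) := by unfold gg; push_cast; ring
        rw [e1] at h5
        have h7 : Y (j + d) * (Y (j + d - 1) - Y j) ≤ Y (j + d) * (d * (η * k / j)) :=
          mul_le_mul_of_nonneg_left h4 hY0
        nlinarith
      have h8 : Y (j + d) * (k * d / j + d * (η * k / j)) ≤
          ρ * ZZm d k s (j + d) * (k * d / j + d * (η * k / j)) :=
        mul_le_mul_of_nonneg_right hY1 (by positivity)
      have h9 := N6 j hj htM hjs
      -- multiply by (j+d)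
      have hm0 : (0 : ℝ) < (j : ℝ) + d := by linarith
      have h10 : ((j : ℝ) + d) * (ρ * ZZm d k s (j + d) * (k * d / j + d * (η * k / j))) ≤
          η * k * ((j : ℝ) + d - k) := by
        have e2 : ((j : ℝ) + d) * (ρ * ZZm d k s (j + d) * (k * d / j + d * (η * k / j))) =
            (ρ * ZZm d k s (j + d) * ((j : ℝ) + d) * d * (1 + η)) * (k / j) := by
          field_simp
        rw [e2]
        have h11 := mul_le_mul_of_nonneg_right h9 (show (0 : ℝ) ≤ k / j by positivity)
        have e3 : η * ((j : ℝ) + d - k) * j * (k / j) = η * k * ((j : ℝ) + d - k) := by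
          field_simp
        rw [e3] at h11
        exact h11
      have h12 : (((j : ℝ) + d) * (Y (j + d) - Y (j + d - 1))) * ((j : ℝ) + d - k) ≤
          η * k * ((j : ℝ) + d - k) := by
        have := mul_le_mul_of_nonneg_left (le_trans h6 h8) hm0.le
        calc (((j : ℝ) + d) * (Y (j + d) - Y (j + d - 1))) * ((j : ℝ) + d - k)
            = ((j : ℝ) + d) * (((j : ℝ) + d - k) * (Y (j + d) - Y (j + d - 1))) := by ring
          _ ≤ _ := this
          _ ≤ _ := h10
      have h13 := le_of_mul_le_mul_right h12 hmk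
      push_cast
      exact h13

end Pool.Agent.Lib.MP_99e3ed_co.H59
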