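import Pool.Agent.Lib.MP_99e3ed_co.H59.Seq2

/-!
(F-B): the derivative part of the recursion.
-/

set_option autoImplicit false

open Finset

namespace Pool.Agent.Lib.MP_99e3ed_co.H59

variable {d k n : ℕ} {s : ℝ} {Y y z : ℕ → ℝ}

/-- `Λ = ∑ 1/g_t` -/
noncomputable def Lam (d k : ℕ) (Y : ℕ → ℝ) (j : ℕ) : ℝ := ∑ t ∈ Ioc j (j + d), 1 / gg k Y t

/-- interior part of a sum over `Ioc j (j+d)` -/
noncomputable def Sin (d : ℕ) (f : ℕ → ℝ) (j : ℕ) : ℝ := ∑ t ∈ Ioc j (j + d - 1), f t

theorem sum_top (hd : 1 ≤ d) (f : ℕ → ℝ) (j : ℕ) :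
    ∑ t ∈ Ioc j (j + d), f t = Sin d f j + f (j + d) := by
  unfold Sin
  obtain ⟨e, rfl⟩ : ∃ e, d = e + 1 := ⟨d - 1, by omega⟩
  have h1 : j + (e + 1) - 1 = j + e := by omega
  rw [h1, ← add_assoc, Finset.sum_Ioc_succ_top (by omega)]

/-- solved form of `recy` -/
theorem recy' (S : Sys d k n s Y y z) (hd : 1 ≤ d) {j : ℕ} (hj : k ≤ j) (hjn : j + d ≤ n) :
    2 * y (j + d) * ((j : ℝ) + d - k) = gg k Y (j + d) * (al d k Y j *
      (Sin d (fun t => y t / gg k Y t) j * Psi k s Y j + Psi1 k s Y y j)) := by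
  have r1 := S.recY j hj hjn
  have r2 := S.recy j hj hjn
  have hg := S.gpos (j + d) (by omega) hjn
  have hgm : gg k Y (j + d) = j + d - k + Y (j + d) := by unfold gg; push_cast; ring
  unfold DD at r2
  rw [sum_top hd] at r2
  set D := Sin d (fun t => y t / gg k Y t) j with hD
  set A := al d k Y j with hA
  set P := Psi k s Y j with hP
  set P1 := Psi1 k s Y y j with hP1
  set g := gg k Y (j + d) with hgdef
  have e1 : 2 * y (j + d) * g = g * (A * (D * P + P1)) + 2 * Y (j + d) * y (j + d) := by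
    rw [r2, r1]
    field_simp
    ring
  have e2 : (j : ℝ) + d - k = g - Y (j + d) := by rw [hgm]; ring
  rw [e2]
  linarith

/-- solved form of `recz` -/
theorem recz' (S : Sys d k n s Y y z) (hd : 1 ≤ d) {j : ℕ} (hj : k ≤ j) (hjn : j + d ≤ n) :
    2 * z (j + d) * ((j : ℝ) + d - k) = gg k Y (j + d) * (al d k Y j *
      ((DD d k Y y j ^ 2 - ∑ t ∈ Ioc j (j + d), (y t / gg k Y t) ^ 2 +
        Sin d (fun t => z t / gg k Y t) j) * Psi k s Y j +
        2 * DD d k Y y j * Psi1 k s Y y j + Psi2 s y z j)) := by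
  have r1 := S.recY j hj hjn
  have r2 := S.recz j hj hjn
  have hg := S.gpos (j + d) (by omega) hjn
  have hgm : gg k Y (j + d) = j + d - k + Y (j + d) := by unfold gg; push_cast; ring
  unfold DD1 at r2
  rw [sum_sub_distrib, sum_top hd (fun t => z t / gg k Y t)] at r2
  set Q := ∑ t ∈ Ioc j (j + d), (y t / gg k Y t) ^ 2 with hQ
  set D := DD d k Y y j with hD
  set Z := Sin d (fun t => z t / gg k Y t) j with hZ
  set A := al d k Y j with hA
  set P := Psi k s Y j with hP
  set P1 := Psi1 k s Y y j with hP1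
  set P2 := Psi2 s y z j with hP2
  set g := gg k Y (j + d) with hgdef
  have e1 : 2 * z (j + d) * g = g * (A * ((D ^ 2 - Q + Z) * P + 2 * D * P1 + P2)) +
      2 * Y (j + d) * z (j + d) := by
    rw [r2, r1]
    field_simp
    ring
  have e2 : (j : ℝ) + d - k = g - Y (j + d) := by rw [hgm]; ring
  rw [e2]
  linarith

theorem sPsi1 {j : ℕ} (hj : 0 < j) : s * Psi1 k s Y y j =
    Psi k s Y j - Y j + (1 - s / j) * (s * y j) := by
  have : (0 : ℝ) < j := by exact_mod_cast hj
  unfold Psi1 Psi
  ring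

/-- step Low: `Y_m ≤ s y_m` -/
theorem stepLow (S : Sys d k n s Y y z) (hd : 1 ≤ d) (hk : 1 ≤ k) (hs : 0 < s) {E : ℝ} {j : ℕ}
    (hj : k ≤ j) (hjn : j + d ≤ n) (hYj0 : 0 ≤ Y j) (hYj1 : Y j ≤ k)
    (hmon : ∀ t, j ≤ t → t ≤ j + d → Y j ≤ Y t)
    (hlow : ∀ t, j < t → t < j + d → Y t ≤ s * y t)
    (hj1 : Y j ≤ s * y j) (hj2 : (j : ℝ) < s → s * y j ≤ E * Y j)
    (FO : 0 < Y j → 1 + max 0 (1 - j / s) * (E - 1) ≤ Lam d k Y j * (k - Y j)) :
    Y (j + d) ≤ s * y (j + d) := by
  have hjr : (0 : ℝ) < j := by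
    have : 0 < j := by omega
    exact_mod_cast this
  have hdr : (0 : ℝ) < d := by exact_mod_cast hd
  have hkj : (k : ℝ) ≤ j := by exact_mod_cast hj
  have hmk : (0 : ℝ) < (j : ℝ) + d - k := by linarith
  have hA := al_pos S hj hjn
  have hg := S.gpos (j + d) (by omega) hjn
  have hgm : gg k Y (j + d) = j + d - k + Y (j + d) := by unfold gg; push_cast; ring
  have r1 := S.recY j hj hjn
  have r2 := recy' S hd hj hjn
  have hP := sPsi1 (k := k) (s := s) (Y := Y) (y := y) (j := j) (by omega)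
  set D := Sin d (fun t => y t / gg k Y t) j with hD
  set A := al d k Y j with hAdef
  set P := Psi k s Y j with hPdef
  set P1 := Psi1 k s Y y j with hP1def
  set g := gg k Y (j + d) with hgdef
  have hP0 : s * (k - Y j) / j ≤ P := by
    rw [hPdef]; unfold Psi; linarith
  have hPn : 0 ≤ P := Psi_nonneg hs.le hYj0 hYj1
  -- lower bound of the sum
  have hsum : Y j * Lam d k Y j ≤ s * D + Y (j + d) / g := by
    have e1 : s * D = Sin d (fun t => s * y t / gg k Y t) j := by
      rw [hD]; unfold Sin; rw [mul_sum]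
      apply sum_congr rfl
      intro t _
      ring
    have e2 : Lam d k Y j = Sin d (fun t => 1 / gg k Y t) j + 1 / g := by
      unfold Lam; rw [sum_top hd]
    rw [e1, e2, mul_add]
    apply add_le_add
    · unfold Sin
      rw [mul_sum]
      apply sum_le_sum
      intro t ht
      rw [mem_Ioc] at ht
      have h1 := S.gpos t (by omega) (by omega)
      have h2 := hmon t (by omega) (by omega)
      have h3 := hlow t (by omega) (by omega)
      rw [mul_one_div]
      exact div_le_div_of_nonneg_right (by linarith) h1.le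
    · rw [mul_one_div]
      exact div_le_div_of_nonneg_right (hmon (j + d) (by omega) le_rfl) hg.le
  -- right side
  have hR : Y j - (1 - s / j) * (s * y j) ≤ s / j * Y j * (1 + max 0 (1 - j / s) * (E - 1)) := by
    rcases le_or_gt s j with h | h
    · have h1 : (1 : ℝ) - j / s ≤ 0 := by
        rw [sub_nonpos, le_div_iff₀ hs]; linarith
      rw [max_eq_left h1]
      have h2 : 0 ≤ 1 - s / (j : ℝ) := by
        rw [sub_nonneg, div_le_one hjr]; exact h
      have h3 := mul_le_mul_of_nonneg_left hj1 h2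
      linarith
    · have h1 : (0 : ℝ) ≤ 1 - j / s := by
        rw [sub_nonneg, div_le_one hs]; exact h.le
      rw [max_eq_right h1]
      have h2 : 0 ≤ s / (j : ℝ) - 1 := by
        rw [sub_nonneg, le_div_iff₀ hjr]; linarith
      have h3 := mul_le_mul_of_nonneg_left (hj2 h) h2
      have e1 : s / j * Y j * (1 + (1 - j / s) * (E - 1)) =
          Y j + (s / j - 1) * (E * Y j) := by
        field_simp
        ring
      rw [e1]
      linarith
  -- combine
  have hmain : Y j - (1 - s / j) * (s * y j) ≤ P * (s * D + Y (j + d) / g) := by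
    rcases hYj0.eq_or_lt with h0 | h0
    · -- Y j = 0
      have h1 : Y j - (1 - s / j) * (s * y j) ≤ 0 := by
        have := hR
        rw [← h0] at this ⊢
        simpa using this
      have h2 : 0 ≤ s * D + Y (j + d) / g := by
        have := hsum
        rw [← h0, zero_mul] at this
        exact this
      have := mul_nonneg hPn h2
      linarith
    · have hFO := FO h0
      have h1 : P * (Y j * Lam d k Y j) ≤ P * (s * D + Y (j + d) / g) :=
        mul_le_mul_of_nonneg_left hsum hPn
      have hLam : 0 ≤ Lam d k Y j := by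
        unfold Lam
        apply sum_nonneg
        intro t ht
        rw [mem_Ioc] at ht
        have := S.gpos t (by omega) (by omega)
        positivity
      have h2 : s * (k - Y j) / j * (Y j * Lam d k Y j) ≤ P * (Y j * Lam d k Y j) :=
        mul_le_mul_of_nonneg_right hP0 (by positivity)
      have h3 : s / j * Y j * (1 + max 0 (1 - j / s) * (E - 1)) ≤
          s / j * Y j * (Lam d k Y j * (k - Y j)) :=
        mul_le_mul_of_nonneg_left hFO (by positivity)
      have e1 : s / j * Y j * (Lam d k Y j * (k - Y j)) =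
          s * (k - Y j) / j * (Y j * Lam d k Y j) := by ring
      linarith
  -- finish
  have hfin : Y (j + d) * ((j : ℝ) + d - k) ≤ s * y (j + d) * ((j : ℝ) + d - k) := by
    have e1 : 2 * (s * y (j + d) * ((j : ℝ) + d - k)) = g * (A * (s * D * P + s * P1)) := by
      have : 2 * (s * y (j + d) * ((j : ℝ) + d - k)) =
          s * (2 * y (j + d) * ((j : ℝ) + d - k)) := by ring
      rw [this, r2]; ring
    have e2 : 2 * (Y (j + d) * ((j : ℝ) + d - k)) = A * P * (g - Y (j + d)) := by
      have : (j : ℝ) + d - k = g - Y (j + d) := by rw [hgm]; ring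
      rw [this, ← r1]; ring
    rw [hP] at e1
    have e3 : g * (A * (s * D * P + (P - Y j + (1 - s / j) * (s * y j)))) -
        A * P * (g - Y (j + d)) =
        g * A * (P * (s * D + Y (j + d) / g) - (Y j - (1 - s / j) * (s * y j))) := by
      field_simp
      ring
    have h4 : 0 ≤ g * A * (P * (s * D + Y (j + d) / g) - (Y j - (1 - s / j) * (s * y j))) := by
      apply mul_nonneg (by positivity)
      linarith
    linarith
  exact le_of_mul_le_mul_right hfin hmk

/-- step Up: `s y_m ≤ E Y_m` -/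
theorem stepUp (S : Sys d k n s Y y z) (hd : 1 ≤ d) (hk : 1 ≤ k) (hs : 0 < s) {E : ℝ}
    (hE : 1 ≤ E) {j : ℕ} (hj : k ≤ j) (hjn : j + d ≤ n) (hYj0 : 0 ≤ Y j) (hYj1 : Y j ≤ k)
    (hup : ∀ t, j < t → t < j + d → s * y t ≤ E * Y t)
    (hj1 : Y j ≤ s * y j) (hj2 : s * y j ≤ E * Y j)
    (N2 : Psi k s Y j * (E * (∑ t ∈ Ioc j (j + d), Y t / gg k Y t) + 1) +
      max 0 (max 0 (1 - s / j) * E - 1) * Y j ≤ E * Psi k s Y j) :
    s * y (j + d) ≤ E * Y (j + d) := by
  have hjr : (0 : ℝ) < j := by
    have : 0 < j := by omega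
    exact_mod_cast this
  have hdr : (0 : ℝ) < d := by exact_mod_cast hd
  have hkj : (k : ℝ) ≤ j := by exact_mod_cast hj
  have hmk : (0 : ℝ) < (j : ℝ) + d - k := by linarith
  have hA := al_pos S hj hjn
  have hg := S.gpos (j + d) (by omega) hjn
  have hgm : gg k Y (j + d) = j + d - k + Y (j + d) := by unfold gg; push_cast; ring
  have r1 := S.recY j hj hjn
  have r2 := recy' S hd hj hjn
  have hP := sPsi1 (k := k) (s := s) (Y := Y) (y := y) (j := j) (by omega)
  set D := Sin d (fun t => y t / gg k Y t) j with hD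
  set A := al d k Y j with hAdef
  set P := Psi k s Y j with hPdef
  set P1 := Psi1 k s Y y j with hP1def
  set g := gg k Y (j + d) with hgdef
  have hPn : 0 ≤ P := Psi_nonneg hs.le hYj0 hYj1
  rw [sum_top hd] at N2
  set SY := Sin d (fun t => Y t / gg k Y t) j with hSY
  have hsum : s * D ≤ E * SY := by
    have e1 : s * D = Sin d (fun t => s * y t / gg k Y t) j := by
      rw [hD]; unfold Sin; rw [mul_sum]
      apply sum_congr rfl
      intro t _
      ring
    rw [e1, hSY]
    unfold Sin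
    rw [mul_sum]
    apply sum_le_sum
    intro t ht
    rw [mem_Ioc] at ht
    have h1 := S.gpos t (by omega) (by omega)
    have h3 := hup t (by omega) (by omega)
    rw [← mul_div_assoc]
    exact div_le_div_of_nonneg_right h3 h1.le
  have hR : (1 - s / j) * (s * y j) - Y j ≤ max 0 (max 0 (1 - s / j) * E - 1) * Y j := by
    rcases le_or_gt s j with h | h
    · have h2 : 0 ≤ 1 - s / (j : ℝ) := by
        rw [sub_nonneg, div_le_one hjr]; exact h
      have h3 := mul_le_mul_of_nonneg_left hj2 h2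
      rw [max_eq_right h2]
      have h4 : ((1 - s / (j : ℝ)) * E - 1) * Y j ≤ max 0 ((1 - s / (j : ℝ)) * E - 1) * Y j :=
        mul_le_mul_of_nonneg_right (le_max_right _ _) hYj0
      linarith
    · have h2 : 1 - s / (j : ℝ) ≤ 0 := by
        rw [sub_nonpos, le_div_iff₀ hjr]; linarith
      have h3 : (1 - s / (j : ℝ)) * (s * y j) ≤ 0 :=
        mul_nonpos_of_nonpos_of_nonneg h2 (by linarith)
      have h4 : 0 ≤ max 0 (max 0 (1 - s / (j : ℝ)) * E - 1) * Y j :=
        mul_nonneg (le_max_left _ _) hYj0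
      linarith
  have hfin : s * y (j + d) * ((j : ℝ) + d - k) ≤ E * Y (j + d) * ((j : ℝ) + d - k) := by
    have e1 : 2 * (s * y (j + d) * ((j : ℝ) + d - k)) = g * (A * (s * D * P + s * P1)) := by
      have : 2 * (s * y (j + d) * ((j : ℝ) + d - k)) =
          s * (2 * y (j + d) * ((j : ℝ) + d - k)) := by ring
      rw [this, r2]; ring
    have e2 : 2 * (E * Y (j + d) * ((j : ℝ) + d - k)) = E * (A * P * (g - Y (j + d))) := by
      have : (j : ℝ) + d - k = g - Y (j + d) := by rw [hgm]; ring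
      rw [this, ← r1]; ring
    rw [hP] at e1
    have h1 : s * D * P ≤ E * SY * P := mul_le_mul_of_nonneg_right hsum hPn
    have h2 : s * D * P + (P - Y j + (1 - s / j) * (s * y j)) ≤
        E * P - E * P * (Y (j + d) / g) := by
      have e3 : P * (E * (SY + Y (j + d) / g) + 1) = E * SY * P + E * P * (Y (j + d) / g) + P := by
        ring
      rw [e3] at N2
      linarith
    have h3 : g * (A * (s * D * P + (P - Y j + (1 - s / j) * (s * y j)))) ≤
        g * (A * (E * P - E * P * (Y (j + d) / g))) :=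
      mul_le_mul_of_nonneg_left (mul_le_mul_of_nonneg_left h2 hA.le) hg.le
    have e4 : g * (A * (E * P - E * P * (Y (j + d) / g))) = E * (A * P * (g - Y (j + d))) := by
      field_simp
    linarith
  exact le_of_mul_le_mul_right hfin hmk

/-- step Z: `0 ≤ z_m` -/
theorem stepZ (S : Sys d k n s Y y z) (hd : 1 ≤ d) (hk : 1 ≤ k) (hs : 0 < s) {E C : ℝ}
    (hE : 0 ≤ E) (hC : 0 ≤ C) {j : ℕ} (hj : k ≤ j) (hjn : j + d ≤ n)
    (hYj0 : 0 ≤ Y j) (hYj1 : Y j ≤ k)
    (hmon : ∀ t, j ≤ t → t ≤ j + d → Y j ≤ Y t ∧ Y t ≤ Y (j + d))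
    (hlow : ∀ t, j ≤ t → t ≤ j + d → Y t ≤ s * y t)
    (hj2 : s * y j ≤ E * Y j) (hzj0 : 0 ≤ z j) (hzj : s * z j ≤ C * y j)
    (hz : ∀ t, j < t → t < j + d → 0 ≤ z t)
    (FO : 0 < Y j → E * (1 + max 0 (1 - j / s) * C / 2) ≤ Lam d k Y j *
      ((k - Y j) * (1 + ((d : ℝ) - 1) * Y j / (2 * gg k Y (j + d))) -
        max 0 (1 - j / s) * E * Y j)) :
    0 ≤ z (j + d) := by
  have hjr : (0 : ℝ) < j := by
    have : 0 < j := by omega
    exact_mod_cast this
  have hdr : (1 : ℝ) ≤ d := by exact_mod_cast hd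
  have hkj : (k : ℝ) ≤ j := by exact_mod_cast hj
  have hkr : (0 : ℝ) < k := by exact_mod_cast hk
  have hmk : (0 : ℝ) < (j : ℝ) + d - k := by linarith
  have hA := al_pos S hj hjn
  have hg := S.gpos (j + d) (by omega) hjn
  have r2 := recz' S hd hj hjn
  have hgt : ∀ t, j < t → t ≤ j + d → 0 < gg k Y t ∧ gg k Y t ≤ gg k Y (j + d) := by
    intro t h1 h2
    refine ⟨S.gpos t (by omega) (by omega), ?_⟩
    have h3 := (hmon t (by omega) h2).2
    have h4 : (t : ℝ) ≤ ((j + d : ℕ) : ℝ) := by exact_mod_cast h2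
    unfold gg
    linarith
  set w := max 0 (1 - (j : ℝ) / s) with hw
  have hw0 : 0 ≤ w := le_max_left _ _
  set X := Y j / s with hX
  have hX0 : 0 ≤ X := by positivity
  have hXs : X * s = Y j := by rw [hX]; field_simp
  set g := gg k Y (j + d) with hgdef
  set f : ℕ → ℝ := fun t => y t / gg k Y t with hf
  set D := DD d k Y y j with hD
  set c := X / g with hc
  have hc0 : 0 ≤ c := by positivity
  have hfge : ∀ t ∈ Ioc j (j + d), X / gg k Y t ≤ f t ∧ c ≤ f t := by
    intro t ht
    rw [mem_Ioc] at ht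
    obtain ⟨h1, h2⟩ := hgt t (by omega) (by omega)
    have h3 := (hmon t (by omega) (by omega)).1
    have h4 := hlow t (by omega) (by omega)
    have h5 : X ≤ y t := by
      rw [hX, div_le_iff₀ hs]; linarith
    have h6 : X / gg k Y t ≤ f t := div_le_div_of_nonneg_right h5 h1.le
    refine ⟨h6, le_trans ?_ h6⟩
    rw [hc]
    exact div_le_div_of_nonneg_left hX0 h1 h2
  have hDf : D = ∑ t ∈ Ioc j (j + d), f t := rfl
  have hcard : (Ioc j (j + d)).card = d := by simp
  have hDge : X * Lam d k Y j ≤ D := by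
    rw [hDf]; unfold Lam
    rw [mul_sum]
    apply sum_le_sum
    intro t ht
    rw [mul_one_div]
    exact (hfge t ht).1
  have hsq : D * (((d : ℝ) - 1) * c) ≤ D ^ 2 - ∑ t ∈ Ioc j (j + d), f t ^ 2 := by
    have h1 : ∀ t ∈ Ioc j (j + d), f t * (((d : ℝ) - 1) * c) ≤ f t * (D - f t) := by
      intro t ht
      have h2 : f t - c ≤ ∑ u ∈ Ioc j (j + d), (f u - c) :=
        single_le_sum (f := fun u => f u - c)
          (fun u hu => by have := (hfge u hu).2; simpa using this) ht
      rw [sum_sub_distrib, sum_const, hcard, nsmul_eq_mul, ← hDf] at h2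
      apply mul_le_mul_of_nonneg_left _ (le_trans hc0 (hfge t ht).2)
      linarith
    have h3 := sum_le_sum h1
    rw [← sum_mul, ← hDf] at h3
    have h4 : ∑ t ∈ Ioc j (j + d), f t * (D - f t) =
        D ^ 2 - ∑ t ∈ Ioc j (j + d), f t ^ 2 := by
      have : ∀ t ∈ Ioc j (j + d), f t * (D - f t) = f t * D - f t ^ 2 := by
        intro t _; ring
      rw [sum_congr rfl this, sum_sub_distrib, ← sum_mul, ← hDf]
      ring
    linarith
  have hZin : 0 ≤ Sin d (fun t => z t / gg k Y t) j := by
    unfold Sin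
    apply sum_nonneg
    intro t ht
    rw [mem_Ioc] at ht
    have h1 := S.gpos t (by omega) (by omega)
    have h2 := hz t (by omega) (by omega)
    positivity
  set P := Psi k s Y j with hPdef
  have hP0 : s * (k - Y j) / j ≤ P := by
    rw [hPdef]; unfold Psi; linarith
  have hPn : 0 ≤ P := Psi_nonneg hs.le hYj0 hYj1
  set P1 := Psi1 k s Y y j with hP1def
  set P2 := Psi2 s y z j with hP2def
  have hyj0 : 0 ≤ y j := by
    have h1 := hlow j le_rfl (by omega)
    have h2 : 0 ≤ s * y j := by linarith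
    exact nonneg_of_mul_nonneg_right h2 hs
  have hyE : y j ≤ E * X := by
    have : y j * s ≤ E * X * s := by
      calc y j * s = s * y j := by ring
        _ ≤ E * Y j := hj2
        _ = E * X * s := by rw [mul_assoc, hXs]
    exact le_of_mul_le_mul_right this hs
  -- lower bounds for P1, P2
  have hP1 : ((k : ℝ) - Y j - w * E * Y j) / j ≤ P1 ∧ -(y j) * (1 + w * C / 2) * (2 / j) ≤ P2 := by
    rcases le_or_gt s j with h | h
    · have h1 : (1 : ℝ) - j / s ≤ 0 := by
        rw [sub_nonpos, le_div_iff₀ hs]; linarith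
      have hw' : w = 0 := by rw [hw]; exact max_eq_left h1
      have h2 : 0 ≤ 1 - s / (j : ℝ) := by
        rw [sub_nonneg, div_le_one hjr]; exact h
      rw [hw']
      constructor
      · rw [hP1def]; unfold Psi1
        have := mul_nonneg h2 hyj0
        have e : ((k : ℝ) - Y j - 0 * E * Y j) / j = (k - Y j) / j := by ring
        rw [e]; linarith
      · rw [hP2def]; unfold Psi2
        have := mul_nonneg h2 hzj0
        have e : -(y j) * (1 + 0 * C / 2) * (2 / j) = -2 * y j / j := by ring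
        rw [e]; linarith
    · have h1 : (0 : ℝ) ≤ 1 - j / s := by
        rw [sub_nonneg, div_le_one hs]; exact h.le
      have hw' : w = 1 - j / s := by rw [hw]; exact max_eq_right h1
      have hsj : 1 - s / (j : ℝ) = -(w * (s / j)) := by rw [hw']; field_simp; ring
      constructor
      · rw [hP1def]; unfold Psi1
        rw [hsj]
        have h3 : w * (s / j) * y j ≤ w * E * Y j / j := by
          have e1 : w * (s / j) * y j = w * (s * y j) / j := by ring
          rw [e1]
          apply div_le_div_of_nonneg_right _ hjr.le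
          have := mul_le_mul_of_nonneg_left hj2 hw0
          linarith
        have e : ((k : ℝ) - Y j - w * E * Y j) / j = (k - Y j) / j - w * E * Y j / j := by ring
        rw [e]; linarith
      · rw [hP2def]; unfold Psi2
        rw [hsj]
        have h3 : w * (s / j) * z j ≤ w * C * y j / j := by
          have e1 : w * (s / j) * z j = w * (s * z j) / j := by ring
          rw [e1]
          apply div_le_div_of_nonneg_right _ hjr.le
          have := mul_le_mul_of_nonneg_left hzj hw0
          linarith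
        have e : -(y j) * (1 + w * C / 2) * (2 / j) = -2 * y j / j - w * C * y j / j := by ring
        rw [e]; linarith
  obtain ⟨hP1, hP2⟩ := hP1
  -- the bracket
  set V := ((k : ℝ) - Y j) * (1 + ((d : ℝ) - 1) * Y j / (2 * g)) - w * E * Y j with hV
  set W := ((d : ℝ) - 1) * c * P + 2 * P1 with hW
  have hWV : 2 / j * V ≤ W := by
    have h1 : ((d : ℝ) - 1) * c * (s * (k - Y j) / j) ≤ ((d : ℝ) - 1) * c * P :=
      mul_le_mul_of_nonneg_left hP0 (mul_nonneg (by linarith) hc0)
    have e1 : 2 / j * V = ((d : ℝ) - 1) * c * (s * (k - Y j) / j) +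
        2 * (((k : ℝ) - Y j - w * E * Y j) / j) := by
      rw [hV, hc, ← hXs]
      field_simp
      ring
    rw [e1]
    linarith
  have hV0 : 0 ≤ V := by
    rcases hYj0.eq_or_lt with h0 | h0
    · rw [hV, ← h0]; simp
    · have hFO := FO h0
      have h1 : 0 ≤ E * (1 + w * C / 2) := by positivity
      have h2 : 0 ≤ Lam d k Y j * V := le_trans h1 hFO
      have hLam : 0 < Lam d k Y j := by
        unfold Lam
        apply sum_pos
        · intro t ht
          rw [mem_Ioc] at ht
          have := (hgt t (by omega) (by omega)).1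
          positivity
        · rw [← card_pos, hcard]; omega
      exact nonneg_of_mul_nonneg_right h2 hLam
  have hW0 : 0 ≤ W := le_trans (by positivity) hWV
  have hbr : 0 ≤ X * Lam d k Y j * W + P2 := by
    have h1 : X * Lam d k Y j * (2 / j * V) ≤ X * Lam d k Y j * W := by
      apply mul_le_mul_of_nonneg_left hWV
      apply mul_nonneg hX0
      unfold Lam
      apply sum_nonneg
      intro t ht
      rw [mem_Ioc] at ht
      have := (hgt t (by omega) (by omega)).1
      positivity
    have h2 : -(E * X) * (1 + w * C / 2) * (2 / j) ≤ -(y j) * (1 + w * C / 2) * (2 / j) := by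
      apply mul_le_mul_of_nonneg_right _ (by positivity)
      apply mul_le_mul_of_nonneg_right _ (by positivity)
      linarith
    have h3 : X * (E * (1 + w * C / 2)) ≤ X * (Lam d k Y j * V) := by
      rcases hYj0.eq_or_lt with h0 | h0
      · rw [hX, ← h0]; simp
      · exact mul_le_mul_of_nonneg_left (FO h0) hX0
    have h4 := mul_le_mul_of_nonneg_right h3 (show (0 : ℝ) ≤ 2 / j by positivity)
    have e1 : X * Lam d k Y j * (2 / j * V) = X * (Lam d k Y j * V) * (2 / j) := by ring
    have e2 : -(E * X) * (1 + w * C / 2) * (2 / j) = -(X * (E * (1 + w * C / 2)) * (2 / j)) := by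
      ring
    linarith
  have hD0 : 0 ≤ D := by
    rw [hDf]
    apply sum_nonneg
    intro t ht
    exact le_trans hc0 (hfge t ht).2
  have hbig : 0 ≤ (D ^ 2 - ∑ t ∈ Ioc j (j + d), f t ^ 2 +
      Sin d (fun t => z t / gg k Y t) j) * P + 2 * D * P1 + P2 := by
    have h1 : D * (((d : ℝ) - 1) * c) * P ≤ (D ^ 2 - ∑ t ∈ Ioc j (j + d), f t ^ 2 +
      Sin d (fun t => z t / gg k Y t) j) * P := by
      apply mul_le_mul_of_nonneg_right _ hPn
      linarith
    have h2 : X * Lam d k Y j * W ≤ D * W := mul_le_mul_of_nonneg_right hDge hW0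
    have e1 : D * W = D * (((d : ℝ) - 1) * c) * P + 2 * D * P1 := by rw [hW]; ring
    linarith
  have hfin : 0 ≤ z (j + d) * ((j : ℝ) + d - k) := by
    have : 0 ≤ 2 * z (j + d) * ((j : ℝ) + d - k) := by
      rw [r2]
      exact mul_nonneg hg.le (mul_nonneg hA.le hbig)
    linarith
  exact nonneg_of_mul_nonneg_left hfin hmk

/-- step C: `s z_m ≤ C y_m`, `C = E^2 - 1` -/
theorem stepC (S : Sys d k n s Y y z) (hd : 1 ≤ d) (hk : 1 ≤ k) (hs : 0 < s) {E C : ℝ}
    (hE : 1 ≤ E) (hCE : C = E ^ 2 - 1) (hC2 : C ≤ 2) {j : ℕ} (hj : k ≤ j) (hjn : j + d ≤ n)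
    (hYj0 : 0 ≤ Y j) (hYj1 : Y j ≤ k)
    (hpos : ∀ t, j < t → t ≤ j + d → 0 ≤ y t)
    (hup : ∀ t, j < t → t ≤ j + d → s * y t ≤ E * Y t)
    (hj1 : Y j ≤ s * y j) (hzj0 : 0 ≤ z j) (hzj : s * z j ≤ C * y j)
    (hz : ∀ t, j < t → t < j + d → s * z t ≤ C * y t)
    (N2' : E * (∑ t ∈ Ioc j (j + d), Y t / gg k Y t) ≤ E - 1)
    (N4 : s ≤ j → E * (∑ t ∈ Ioc j (j + d), Y t / gg k Y t) ≤ s / j) :
    s * z (j + d) ≤ C * y (j + d) := by
  have hjr : (0 : ℝ) < j := by
    have : 0 < j := by omega
    exact_mod_cast this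
  have hdr : (1 : ℝ) ≤ d := by exact_mod_cast hd
  have hkj : (k : ℝ) ≤ j := by exact_mod_cast hj
  have hkr : (0 : ℝ) < k := by exact_mod_cast hk
  have hmk : (0 : ℝ) < (j : ℝ) + d - k := by linarith
  have hA := al_pos S hj hjn
  have hg := S.gpos (j + d) (by omega) hjn
  have r1 := recy' S hd hj hjn
  have r2 := recz' S hd hj hjn
  have hPe := sPsi1 (k := k) (s := s) (Y := Y) (y := y) (j := j) (by omega)
  have hC0 : 0 ≤ C := by rw [hCE]; nlinarith
  set D := DD d k Y y j with hD
  have hDtop : D = Sin d (fun t => y t / gg k Y t) j + y (j + d) / gg k Y (j + d) := by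
    rw [hD]; unfold DD; rw [sum_top hd]
  set Dm := Sin d (fun t => y t / gg k Y t) j with hDm
  set e := s * D with he
  have he1 : e ≤ E * (∑ t ∈ Ioc j (j + d), Y t / gg k Y t) := by
    rw [he, hD]; unfold DD
    rw [mul_sum, mul_sum]
    apply sum_le_sum
    intro t ht
    rw [mem_Ioc] at ht
    have h1 := S.gpos t (by omega) (by omega)
    have h3 := hup t (by omega) (by omega)
    rw [← mul_div_assoc, ← mul_div_assoc]
    exact div_le_div_of_nonneg_right h3 h1.le
  have he0 : 0 ≤ e := by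
    rw [he, hD]; unfold DD
    apply mul_nonneg hs.le
    apply sum_nonneg
    intro t ht
    rw [mem_Ioc] at ht
    have h1 := S.gpos t (by omega) (by omega)
    have h3 := hpos t (by omega) (by omega)
    positivity
  have heC : e ^ 2 + 2 * e ≤ C := by rw [hCE]; nlinarith
  set P := Psi k s Y j with hPdef
  have hPn : 0 ≤ P := Psi_nonneg hs.le hYj0 hYj1
  set P1 := Psi1 k s Y y j with hP1def
  set P2 := Psi2 s y z j with hP2def
  set Q := ∑ t ∈ Ioc j (j + d), (y t / gg k Y t) ^ 2 with hQ
  have hQ0 : 0 ≤ Q := sum_nonneg (fun t _ => sq_nonneg _)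
  set Zi := Sin d (fun t => z t / gg k Y t) j with hZi
  have hZle : s * Zi ≤ C * Dm := by
    rw [hZi, hDm]; unfold Sin
    rw [mul_sum, mul_sum]
    apply sum_le_sum
    intro t ht
    rw [mem_Ioc] at ht
    have h1 := S.gpos t (by omega) (by omega)
    have h3 := hz t (by omega) (by omega)
    rw [← mul_div_assoc, ← mul_div_assoc]
    exact div_le_div_of_nonneg_right h3 h1.le
  set u := s * y j with hu
  have hu0 : 0 ≤ u := le_trans hYj0 hj1
  set P0 := s * (k - Y j) / j with hP0
  have hP00 : 0 ≤ P0 := by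
    apply div_nonneg _ hjr.le
    exact mul_nonneg hs.le (by linarith)
  have hPP : P = P0 + Y j := by rw [hPdef, hP0]; unfold Psi; ring
  -- the core inequality multiplied by s
  have hcore : e ^ 2 * P + 2 * e * (s * P1) + s ^ 2 * P2 ≤ C * (s * P1) := by
    rw [hPe, hPP]
    set σ := s / (j : ℝ) with hσ
    have hσ0 : 0 < σ := by positivity
    have e2 : s ^ 2 * P2 = -2 * σ * u + (1 - σ) * (s * (s * z j)) := by
      rw [hP2def, hu, hσ]; unfold Psi2; field_simp
    rw [e2]
    have hzz : s * (s * z j) ≤ C * u := by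
      have := mul_le_mul_of_nonneg_left hzj hs.le
      rw [hu]; linarith
    have hzz0 : 0 ≤ s * (s * z j) := by positivity
    have h1 : (e ^ 2 + 2 * e - C) * P0 ≤ 0 :=
      mul_nonpos_of_nonpos_of_nonneg (by linarith) hP00
    have h2 : e ^ 2 * Y j ≤ e ^ 2 * u := mul_le_mul_of_nonneg_left hj1 (sq_nonneg e)
    rcases le_or_gt s j with h | h
    · have hσ1 : σ ≤ 1 := by rw [hσ, div_le_one hjr]; exact h
      have heσ : e ≤ σ := le_trans he1 (N4 h)
      have h3 : (1 - σ) * (s * (s * z j)) ≤ (1 - σ) * (C * u) :=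
        mul_le_mul_of_nonneg_left hzz (by linarith)
      have h4 : (e ^ 2 + 2 * e * (1 - σ) - 2 * σ) * u ≤ 0 := by
        apply mul_nonpos_of_nonpos_of_nonneg _ hu0
        have h5 : e * (1 - σ) ≤ σ * (1 - σ) := mul_le_mul_of_nonneg_right heσ (by linarith)
        have h6 : e ^ 2 ≤ σ ^ 2 := pow_le_pow_left₀ he0 heσ 2
        have h7 : 0 ≤ σ ^ 2 := sq_nonneg σ
        linarith
      linarith
    · have hσ1 : 1 < σ := by rw [hσ, lt_div_iff₀ hjr]; linarith
      have h3 : (1 - σ) * (s * (s * z j)) ≤ 0 :=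
        mul_nonpos_of_nonpos_of_nonneg (by linarith) hzz0
      have h4 : (e ^ 2 - 2 * e * (σ - 1) - 2 * σ + C * (σ - 1)) * u ≤ 0 := by
        apply mul_nonpos_of_nonpos_of_nonneg _ hu0
        have h5 := mul_nonneg he0 (show (0:ℝ) ≤ σ - 1 by linarith)
        have h6 : C * σ ≤ 2 * σ := mul_le_mul_of_nonneg_right hC2 hσ0.le
        linarith
      linarith
  have hcore2 : s * D ^ 2 * P + 2 * D * (s * P1) + s * P2 ≤ C * P1 := by
    have : s * (s * D ^ 2 * P + 2 * D * (s * P1) + s * P2) ≤ s * (C * P1) := by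
      have e1 : s * (s * D ^ 2 * P + 2 * D * (s * P1) + s * P2) =
          e ^ 2 * P + 2 * e * (s * P1) + s ^ 2 * P2 := by rw [he]; ring
      rw [e1]
      calc _ ≤ C * (s * P1) := hcore
        _ = s * (C * P1) := by ring
    exact le_of_mul_le_mul_left this hs
  -- finish
  have hfin : s * z (j + d) * ((j : ℝ) + d - k) ≤ C * y (j + d) * ((j : ℝ) + d - k) := by
    have e1 : 2 * (s * z (j + d) * ((j : ℝ) + d - k)) = gg k Y (j + d) * (al d k Y j *
        (s * ((D ^ 2 - Q + Zi) * P + 2 * D * P1 + P2))) := by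
      have : 2 * (s * z (j + d) * ((j : ℝ) + d - k)) =
          s * (2 * z (j + d) * ((j : ℝ) + d - k)) := by ring
      rw [this, r2]; ring
    have e2 : 2 * (C * y (j + d) * ((j : ℝ) + d - k)) = gg k Y (j + d) * (al d k Y j *
        (C * (Dm * P + P1))) := by
      have : 2 * (C * y (j + d) * ((j : ℝ) + d - k)) =
          C * (2 * y (j + d) * ((j : ℝ) + d - k)) := by ring
      rw [this, r1]; ring
    have h1 : s * ((D ^ 2 - Q + Zi) * P + 2 * D * P1 + P2) ≤ C * (Dm * P + P1) := by
      have h2 : s * Zi * P ≤ C * Dm * P := mul_le_mul_of_nonneg_right hZle hPn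
      have h3 : 0 ≤ s * Q * P := by positivity
      have e3 : s * ((D ^ 2 - Q + Zi) * P + 2 * D * P1 + P2) =
          (s * D ^ 2 * P + 2 * D * (s * P1) + s * P2) + s * Zi * P - s * Q * P := by ring
      have e4 : C * (Dm * P + P1) = C * Dm * P + C * P1 := by ring
      rw [e3, e4]
      linarith
    have h4 := mul_le_mul_of_nonneg_left (mul_le_mul_of_nonneg_left h1 hA.le) hg.le
    linarith
  exact le_of_mul_le_mul_right hfin hmk

end Pool.Agent.Lib.MP_99e3ed_co.H59
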