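import Pool.Agent.Lib.MP_99e3ed_co.H59.Seq3

/-!
(F-B): the induction.
-/

set_option autoImplicit false

open Finset

namespace Pool.Agent.Lib.MP_99e3ed_co.H59

variable {d k n : ℕ} {s : ℝ} {Y y z : ℕ → ℝ}

/-- `∑ Z_t/(t-k)` over `j < t ≤ j+d` -/
noncomputable def QQ (d k : ℕ) (s : ℝ) (j : ℕ) : ℝ :=
  ∑ t ∈ Ioc j (j + d), ZZm d k s t / ((t : ℝ) - k)

/-- the numerical hypotheses -/
structure Num (d k n : ℕ) (s ρ E C η B : ℝ) : Prop where
  hρ : 0 < ρ
  hE : 1 ≤ E
  hC : C = E ^ 2 - 1
  hC2 : C ≤ 2
  hη : 0 ≤ η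
  hB0 : 0 ≤ B
  hB1 : B < 1
  zle : ∀ j, k ≤ j → j + d ≤ n → ρ * ZZm d k s j ≤ B * k
  n1 : ∀ j, k ≤ j → j + d ≤ n → Real.exp (ρ * QQ d k s j) *
    (1 + max 0 (1 - s / j) * (ρ * ZZm d k s j * j / (s * k))) ≤ ρ
  p2a : ∀ j, k < j → j + d ≤ n → s ≤ j → ∀ b, 0 ≤ b → b ≤ ρ * ZZm d k s j →
    ((j : ℝ) + d) * (j - k + b) ≤ d * ((j : ℝ) - 1) * (k - b)
  p2b : ∀ j, k < j → j + d ≤ n → (j : ℝ) < s → ∀ b, 0 ≤ b → b ≤ ρ * ZZm d k s j →
    ((j : ℝ) + d) * (j - k + b) * k / ((j : ℝ) - 1) + (1 - j / s) * ((j : ℝ) + d) * (η * k) ≤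
      d * (k - b) * (k - (1 - j / s) * b)
  n6 : ∀ j, k ≤ j → j + d ≤ n → (j : ℝ) ≤ s →
      ρ * ZZm d k s (j + d) * ((j : ℝ) + d) * d * (1 + η) ≤ η * ((j : ℝ) + d - k) * j
  n2 : ∀ j, k ≤ j → j + d + d ≤ n → E * (ρ * QQ d k s j) +
    max 0 (max 0 (1 - s / j) * E - 1) * (ρ * ZZm d k s j * j / (s * k)) / (1 - B) ≤ E - 1
  n4 : ∀ j, k ≤ j → j + d + d ≤ n → s ≤ j → E * (ρ * QQ d k s j) ≤ s / j
  fl : ∀ j, k + d ≤ j → j + d ≤ n → ∀ b b', 0 ≤ b → b ≤ ρ * ZZm d k s j → 0 ≤ b' →
    b' ≤ ρ * ZZm d k s (j + d) → (1 + max 0 (1 - j / s) * (E - 1)) *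
      ((j : ℝ) - k + (d + 1) / 2 + b') ≤ d * (k - b)
  fo : ∀ j, k + d ≤ j → j + d ≤ n → ∀ b b', 0 ≤ b → b ≤ ρ * ZZm d k s j → 0 ≤ b' →
    b' ≤ ρ * ZZm d k s (j + d) → E * (1 + max 0 (1 - j / s) * C / 2) *
      ((j : ℝ) - k + (d + 1) / 2 + b') ≤
      d * ((k - b) * (1 + ((d : ℝ) - 1) * b / (2 * ((j : ℝ) + d - k + b'))) -
        max 0 (1 - j / s) * E * b)

theorem mono_chain {M : ℕ} (h : ∀ t, k < t → t ≤ M → Y (t - 1) ≤ Y t) {a b : ℕ} (ha : k ≤ a)
    (hab : a ≤ b) (hb : b ≤ M) : Y a ≤ Y b := by
  induction b, hab using Nat.le_induction with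
  | base => exact le_rfl
  | succ b hab ih =>
    have h1 := ih (by omega)
    have h2 := h (b + 1) (by omega) hb
    rw [Nat.add_sub_cancel] at h2
    linarith

/-- the reduction of the monotonicity condition to `p2a`, `p2b` -/
theorem p2_red {i : ℕ} {η : ℝ} (hd : 1 ≤ d) (hk : 1 ≤ k) (hs : 0 < s) (hi : k ≤ i)
    (hYi0 : 0 ≤ Y i) (hmon : Y i ≤ Y (i + 1)) (hYk : Y (i + 1) ≤ k)
    (hΔ : ((i : ℝ) + 1) < s → ((i : ℝ) + 1) * (Y (i + 1) - Y i) ≤ η * k)
    (pa : s ≤ (i : ℝ) + 1 → ((i : ℝ) + 1 + d) * (i + 1 - k + Y (i + 1)) ≤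
      d * (i : ℝ) * (k - Y (i + 1)))
    (pb : (i : ℝ) + 1 < s → ((i : ℝ) + 1 + d) * (i + 1 - k + Y (i + 1)) * k / (i : ℝ) +
      (1 - (i + 1) / s) * ((i : ℝ) + 1 + d) * (η * k) ≤
      d * (k - Y (i + 1)) * (k - (1 - (i + 1) / s) * Y (i + 1))) :
    gg k Y (i + 1) / ((i : ℝ) + 1) * Psi k s Y i ≤
      ((i : ℝ) + 1 + d - k + Y (i + 1)) / ((i : ℝ) + 1 + d) * Psi k s Y (i + 1) := by
  have hir : (0 : ℝ) < i := by
    have : 0 < i := by omega
    exact_mod_cast this
  have hdr : (0 : ℝ) < d := by exact_mod_cast hd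
  have hkr : (0 : ℝ) < k := by exact_mod_cast hk
  have hki : (k : ℝ) ≤ i := by exact_mod_cast hi
  set b := Y (i + 1) with hb
  set a := Y i with ha
  set J := (i : ℝ) + 1 with hJ
  have hJ0 : 0 < J := by positivity
  have hgg : gg k Y (i + 1) = J - k + b := by unfold gg; push_cast; rw [← hb]
  have hb0 : 0 ≤ b := le_trans hYi0 hmon
  have hg0 : 0 < J - k + b := by rw [hJ]; linarith
  have hPi : Psi k s Y i = s * (k - a) / i + a := rfl
  have hPj : Psi k s Y (i + 1) = s * (k - b) / J + b := by
    unfold Psi; push_cast; rfl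
  -- the key inequality
  have key : (J + d) * (J - k + b) * ((k - a) / i + (1 - J / s) * (b - a)) ≤
      d * (k - b) * ((k - b) + J / s * b) := by
    rcases le_or_gt s J with h | h
    · have h1 := pa h
      have h2 : (1 - J / s) * (b - a) ≤ 0 := by
        apply mul_nonpos_of_nonpos_of_nonneg _ (by linarith)
        rw [sub_nonpos, le_div_iff₀ hs]; linarith
      have h3 : (k - a) / i + (1 - J / s) * (b - a) ≤ k / i := by
        have : ((k : ℝ) - a) / i ≤ k / i := div_le_div_of_nonneg_right (by linarith) hir.le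
        linarith
      have h4 : (J + d) * (J - k + b) * ((k - a) / i + (1 - J / s) * (b - a)) ≤
          (J + d) * (J - k + b) * (k / i) := mul_le_mul_of_nonneg_left h3 (by positivity)
      have h5 : (J + d) * (J - k + b) * (k / i) ≤ d * (i : ℝ) * (k - b) * (k / i) :=
        mul_le_mul_of_nonneg_right h1 (by positivity)
      have e1 : d * (i : ℝ) * (k - b) * (k / i) = d * (k - b) * k := by field_simp
      have h6 : d * (k - b) * k ≤ d * (k - b) * ((k - b) + J / s * b) := by
        apply mul_le_mul_of_nonneg_left _ (mul_nonneg hdr.le (by linarith))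
        have : 1 ≤ J / s := by rw [le_div_iff₀ hs]; linarith
        nlinarith
      linarith
    · have h1 := pb h
      have h2 := hΔ h
      have hw : 0 ≤ 1 - J / s := by rw [sub_nonneg, div_le_one hs]; exact h.le
      have h3 : (J + d) * (J - k + b) * ((k - a) / i) ≤ (J + d) * (J - k + b) * k / i := by
        have : ((k : ℝ) - a) / i ≤ k / i := div_le_div_of_nonneg_right (by linarith) hir.le
        have := mul_le_mul_of_nonneg_left this (show 0 ≤ (J + d) * (J - k + b) by positivity)
        calc _ ≤ _ := this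
          _ = _ := by ring
      have h4 : (J + d) * (J - k + b) * ((1 - J / s) * (b - a)) ≤
          (1 - J / s) * (J + d) * (η * k) := by
        have h5 : (J - k + b) * (b - a) ≤ η * k := by
          have : (J - k + b) * (b - a) ≤ J * (b - a) :=
            mul_le_mul_of_nonneg_right (by linarith) (by linarith)
          linarith
        have := mul_le_mul_of_nonneg_left h5 (show 0 ≤ (1 - J / s) * (J + d) by positivity)
        calc (J + d) * (J - k + b) * ((1 - J / s) * (b - a))
            = (1 - J / s) * (J + d) * ((J - k + b) * (b - a)) := by ring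
          _ ≤ _ := this
      have e1 : d * (k - b) * (k - (1 - J / s) * b) = d * (k - b) * ((k - b) + J / s * b) := by
        ring
      rw [e1] at h1
      have e2 : (J + d) * (J - k + b) * ((k - a) / i + (1 - J / s) * (b - a)) =
          (J + d) * (J - k + b) * ((k - a) / i) +
          (J + d) * (J - k + b) * ((1 - J / s) * (b - a)) := by ring
      rw [e2]
      linarith
  rw [hgg, hPi, hPj]
  have hJd : 0 < J + d := by positivity
  have e3 : (J + d - k + b) / (J + d) * (s * (k - b) / J + b) -
      (J - k + b) / J * (s * (k - a) / i + a) =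
      s / (J ^ 2 * (J + d)) * (d * (k - b) * ((k - b) + J / s * b) -
        (J + d) * (J - k + b) * ((k - a) / i + (1 - J / s) * (b - a))) := by
    have hiJ : (i : ℝ) = J - 1 := by rw [hJ]; ring
    have hJ1 : J - 1 ≠ 0 := by rw [← hiJ]; exact hir.ne'
    rw [hiJ]
    field_simp
    ring
  have h7 : 0 ≤ s / (J ^ 2 * (J + d)) * (d * (k - b) * ((k - b) + J / s * b) -
        (J + d) * (J - k + b) * ((k - a) / i + (1 - J / s) * (b - a))) := by
    apply mul_nonneg (by positivity)
    linarith
  linarith

/-- first part of the induction -/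
theorem mainY {ρ E C η B : ℝ} (S : Sys d k n s Y y z) (hd : 1 ≤ d) (hk : 1 ≤ k)
    (hs : 0 < s) (H : Num d k n s ρ E C η B) :
    ∀ m, k ≤ m → m ≤ n → (0 ≤ Y m ∧ Y m ≤ ρ * ZZm d k s m) ∧ (k < m → Y (m - 1) ≤ Y m) := by
  have hkr : (0 : ℝ) < k := by exact_mod_cast hk
  intro m
  induction m using Nat.strong_induction_on with
  | _ m ih =>
    intro hkm hmn
    rcases Nat.lt_or_ge m (k + d) with hlt | hge
    · have z1 := (S.zero m hkm hmn hlt).1
      refine ⟨⟨by rw [z1], ?_⟩, ?_⟩
      · rw [z1]; exact mul_nonneg H.hρ.le (ZZm_nonneg hk hs)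
      · intro h
        rw [z1, (S.zero (m - 1) (by omega) (by omega) (by omega)).1]
    · obtain ⟨j, rfl⟩ : ∃ j, m = j + d := ⟨m - d, by omega⟩
      have hj : k ≤ j := by omega
      have hB := H.zle j hj hmn
      have hYj := (ih j (by omega) hj (by omega)).1
      have hYjk : Y j ≤ k := by
        have : B * k ≤ 1 * k := mul_le_mul_of_nonneg_right H.hB1.le hkr.le
        linarith [hYj.2]
      have hprod : (∏ t ∈ Ioc j (j + d), (1 + ρ * ZZm d k s t / ((t : ℝ) - k))) ≤
          Real.exp (ρ * QQ d k s j) := by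
        unfold QQ
        rw [mul_sum, Real.exp_sum]
        apply prod_le_prod
        · intro t ht
          rw [mem_Ioc] at ht
          have h1 : (k : ℝ) < t := by
            have : k < t := by omega
            exact_mod_cast this
          have h2 := ZZm_nonneg (d := d) (k := k) (s := s) (m := t) hk hs
          have : 0 ≤ ρ * ZZm d k s t / ((t : ℝ) - k) :=
            div_nonneg (mul_nonneg H.hρ.le h2) (by linarith)
          linarith
        · intro t _
          have := Real.add_one_le_exp (ρ * (ZZm d k s t / ((t : ℝ) - k)))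
          rw [mul_div_assoc]
          linarith
      have hP1 := stepP1 S hd hk hs H.hρ hj hmn
        (fun t h1 h2 => (ih t h2 h1 (by omega)).1) hYjk (by
          refine le_trans ?_ (H.n1 j hj hmn)
          apply mul_le_mul_of_nonneg_right hprod
          have h2 := ZZm_nonneg (d := d) (k := k) (s := s) (m := j) hk hs
          have h3 : 0 ≤ ρ * ZZm d k s j * j / (s * k) := by
            have := H.hρ
            positivity
          have := mul_nonneg (le_max_left 0 (1 - s / (j : ℝ))) h3
          linarith)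
      refine ⟨hP1, ?_⟩
      intro _
      rcases Nat.eq_or_lt_of_le hj with hjk | hjk
      · subst hjk
        rw [(S.zero (k + d - 1) (by omega) (by omega) (by omega)).1]
        exact hP1.1
      · obtain ⟨i, rfl⟩ : ∃ i, j = i + 1 := ⟨j - 1, by omega⟩
        have hi : k ≤ i := by omega
        have hmono : ∀ t, k < t → t ≤ i + d → Y (t - 1) ≤ Y t :=
          fun t h1 h2 => (ih t (by omega) (by omega) (by omega)).2 h1
        have hYi := (ih i (by omega) hi (by omega)).1
        have hij : Y i ≤ Y (i + 1) := by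
          have := hmono (i + 1) (by omega) (by omega)
          rwa [Nat.add_sub_cancel] at this
        have hcast : (((i + 1 : ℕ) : ℝ)) = (i : ℝ) + 1 := by push_cast; ring
        have hP5 : ∀ j', k ≤ j' → j' + d ≤ i + 1 → (j' : ℝ) ≤ s →
            gg k Y (j' + d) * (Y (j' + d) - Y (j' + d - 1)) ≤
              Y (j' + d) * (k * d / j' + Y (j' + d) - Y j') := by
          intro j' h1 h2 h3
          have hj' := (ih j' (by omega) h1 (by omega)).1
          apply stepP5 S hd hk hs h1 (by omega) h3 hj'.1
          · have h4 := H.zle j' h1 (by omega)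
            have : B * k ≤ 1 * k := mul_le_mul_of_nonneg_right H.hB1.le hkr.le
            linarith [hj'.2]
          · exact (ih (j' + d) (by omega) (by omega) (by omega)).1.1
          · intro h5
            exact ⟨(ih (j' - 1) (by omega) (by omega) (by omega)).1.1,
              (ih j' (by omega) h1 (by omega)).2 h5⟩
        have hnum := p2_red (Y := Y) (η := η) hd hk hs hi hYi.1 hij hYjk
          (by
            intro h1
            have h2 := eta_bound (d := d) (k := k) (s := s) (Y := Y) (ρ := ρ) (η := η)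
              (M := i + 1) hd hk H.hη
              (fun t h3 h4 h5 => (S.zero t h3 (by omega) h5).1)
              (fun t h3 h4 => (ih t (by omega) (by omega) (by omega)).1)
              hP5 (fun j' h3 h4 h5 => H.n6 j' h3 (by omega) h5) (i + 1) (by omega) le_rfl
              (by
                push_cast
                have : (0 : ℝ) ≤ d := Nat.cast_nonneg _
                linarith)
            rw [Nat.add_sub_cancel] at h2
            push_cast at h2
            exact h2)
          (by
            intro h1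
            have := H.p2a (i + 1) (by omega) hmn (by rw [hcast]; exact h1) (Y (i + 1))
              hYj.1 hYj.2
            rw [hcast] at this
            have e : (i : ℝ) + 1 - 1 = i := by ring
            rw [e] at this
            exact this)
          (by
            intro h1
            have := H.p2b (i + 1) (by omega) hmn (by rw [hcast]; exact h1) (Y (i + 1))
              hYj.1 hYj.2
            rw [hcast] at this
            have e : (i : ℝ) + 1 - 1 = i := by ring
            rw [e] at this
            exact this)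
        have h8 : i + 1 + d - 1 = i + d := by omega
        rw [h8]
        exact stepP2 S hd hs hi hmn hYj.1 hYjk
          (mono_chain hmono (by omega) (by omega) le_rfl) hnum

theorem Lam_ge (S : Sys d k n s Y y z) (hd : 1 ≤ d) {j : ℕ} (hj : k ≤ j)
    (hjn : j + d ≤ n) (hmon : ∀ t, j ≤ t → t ≤ j + d → Y t ≤ Y (j + d)) (h0 : 0 ≤ Y (j + d)) :
    (d : ℝ) / ((j : ℝ) - k + (d + 1) / 2 + Y (j + d)) ≤ Lam d k Y j := by
  have hdr : (0 : ℝ) < d := by exact_mod_cast hd
  have hkj : (k : ℝ) ≤ j := by exact_mod_cast hj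
  set c := (j : ℝ) - k + (d + 1) / 2 + Y (j + d) with hc
  have hc0 : 0 < c := by rw [hc]; linarith
  -- sum of g
  have hsum : ∑ t ∈ Ioc j (j + d), gg k Y t ≤ d * c := by
    have h1 : ∑ t ∈ Ioc j (j + d), gg k Y t ≤
        ∑ t ∈ Ioc j (j + d), ((t : ℝ) - k + Y (j + d)) := by
      apply sum_le_sum
      intro t ht
      rw [mem_Ioc] at ht
      have := hmon t (by omega) (by omega)
      unfold gg
      linarith
    have h2 : ∀ e : ℕ, ∑ t ∈ Ioc j (j + e), ((t : ℝ) - k + Y (j + d)) =
        e * ((j : ℝ) - k + (e + 1) / 2 + Y (j + d)) := by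
      intro e
      induction e with
      | zero => simp
      | succ e ih =>
        rw [← add_assoc, Finset.sum_Ioc_succ_top (by omega), ih]
        push_cast
        ring
    rw [h2 d] at h1
    exact h1
  have hterm : ∀ t ∈ Ioc j (j + d), 2 / c - gg k Y t / c ^ 2 ≤ 1 / gg k Y t := by
    intro t ht
    rw [mem_Ioc] at ht
    have hg := S.gpos t (by omega) (by omega)
    have e1 : 1 / gg k Y t - (2 / c - gg k Y t / c ^ 2) =
        (c - gg k Y t) ^ 2 / (gg k Y t * c ^ 2) := by
      field_simp
      ring
    have : 0 ≤ (c - gg k Y t) ^ 2 / (gg k Y t * c ^ 2) := by positivity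
    linarith
  have h3 := sum_le_sum hterm
  rw [sum_sub_distrib, sum_const, nsmul_eq_mul, ← sum_div] at h3
  have hcard : (Ioc j (j + d)).card = d := by simp
  rw [hcard] at h3
  have h4 : (∑ t ∈ Ioc j (j + d), gg k Y t) / c ^ 2 ≤ d * c / c ^ 2 :=
    div_le_div_of_nonneg_right hsum (by positivity)
  have e2 : d * (2 / c) - d * c / c ^ 2 = d / c := by
    field_simp
    ring
  unfold Lam
  linarith

/-- the main theorem of the recursion: `z_n ≥ 0` -/
theorem mainZ {ρ E C η B : ℝ} (S : Sys d k n s Y y z) (hd : 1 ≤ d) (hk : 1 ≤ k)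
    (hs : 0 < s) (H : Num d k n s ρ E C η B) (hkn : k ≤ n) : 0 ≤ z n := by
  have hkr : (0 : ℝ) < k := by exact_mod_cast hk
  have hdr : (1 : ℝ) ≤ d := by exact_mod_cast hd
  have HY := mainY S hd hk hs H
  have hmono : ∀ t, k < t → t ≤ n → Y (t - 1) ≤ Y t :=
    fun t h1 h2 => (HY t (by omega) h2).2 h1
  have hchain : ∀ a b, k ≤ a → a ≤ b → b ≤ n → Y a ≤ Y b :=
    fun a b h1 h2 h3 => mono_chain hmono h1 h2 h3
  have hC0 : 0 ≤ C := by
    rw [H.hC]
    have := H.hE
    nlinarith
  have main : ∀ m, k ≤ m → m ≤ n → (Y m ≤ s * y m ∧ 0 ≤ z m) ∧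
      (m + d ≤ n → s * y m ≤ E * Y m ∧ s * z m ≤ C * y m) := by
    intro m
    induction m using Nat.strong_induction_on with
    | _ m ih =>
      intro hkm hmn
      rcases Nat.lt_or_ge m (k + d) with hlt | hge
      · obtain ⟨z1, z2, z3⟩ := S.zero m hkm hmn hlt
        rw [z1, z2, z3]
        simp
      · obtain ⟨j, rfl⟩ : ∃ j, m = j + d := ⟨m - d, by omega⟩
        have hj : k ≤ j := by omega
        have hjr : (0 : ℝ) < j := by
          have : 0 < j := by omega
          exact_mod_cast this
        have hkj : (k : ℝ) ≤ j := by exact_mod_cast hj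
        obtain ⟨hYj0, hYj1⟩ := (HY j hj (by omega)).1
        obtain ⟨hYm0, hYm1⟩ := (HY (j + d) (by omega) hmn).1
        have hBj := H.zle j hj hmn
        have hYjB : Y j ≤ B * k := le_trans hYj1 hBj
        have hYjk : Y j ≤ k := by
          have : B * k ≤ 1 * k := mul_le_mul_of_nonneg_right H.hB1.le hkr.le
          linarith
        obtain ⟨⟨hj1, hzj0⟩, hj3⟩ := ih j (by omega) hj (by omega)
        obtain ⟨hj2, hzj⟩ := hj3 hmn
        have hgm : gg k Y (j + d) = j + d - k + Y (j + d) := by unfold gg; push_cast; ring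
        have hg := S.gpos (j + d) (by omega) hmn
        have hLam := Lam_ge S hd hj hmn (fun t h1 h2 => hchain t (j + d) (by omega) h2 hmn) hYm0
        have hc0 : 0 < (j : ℝ) - k + (d + 1) / 2 + Y (j + d) := by linarith
        -- positivity of Y j implies k + d ≤ j
        have hposj : 0 < Y j → k + d ≤ j := by
          intro h
          by_contra hcon
          push Not at hcon
          rw [(S.zero j hj (by omega) hcon).1] at h
          exact lt_irrefl _ h
        have hFL : 0 < Y j → 1 + max 0 (1 - j / s) * (E - 1) ≤ Lam d k Y j * (k - Y j) := by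
          intro h
          have h1 := H.fl j (hposj h) hmn (Y j) (Y (j + d)) hYj0 hYj1 hYm0 hYm1
          have h2 : 1 + max 0 (1 - j / s) * (E - 1) ≤
              (d : ℝ) / ((j : ℝ) - k + (d + 1) / 2 + Y (j + d)) * (k - Y j) := by
            rw [div_mul_eq_mul_div, le_div_iff₀ hc0]
            exact h1
          have h3 := mul_le_mul_of_nonneg_right hLam (show 0 ≤ (k : ℝ) - Y j by linarith)
          linarith
        have hLow : Y (j + d) ≤ s * y (j + d) :=
          stepLow S hd hk hs (E := E) hj hmn hYj0 hYjk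
            (fun t h1 h2 => hchain j t hj h1 (by omega))
            (fun t h1 h2 => (ih t h2 (by omega) (by omega)).1.1)
            hj1 (fun _ => hj2) hFL
        have hlowall : ∀ t, j ≤ t → t ≤ j + d → Y t ≤ s * y t := by
          intro t h1 h2
          rcases Nat.lt_or_ge t (j + d) with h3 | h3
          · exact (ih t h3 (by omega) (by omega)).1.1
          · have : t = j + d := by omega
            rw [this]; exact hLow
        have hZ : 0 ≤ z (j + d) := by
          refine stepZ S hd hk hs (E := E) (C := C) (by linarith [H.hE]) hC0 hj hmn hYj0 hYjk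
            (fun t h1 h2 => ⟨hchain j t hj h1 (by omega), hchain t (j + d) (by omega) h2 hmn⟩)
            hlowall hj2 hzj0 hzj (fun t h1 h2 => (ih t h2 (by omega) (by omega)).1.2) ?_
          intro h
          have h1 := H.fo j (hposj h) hmn (Y j) (Y (j + d)) hYj0 hYj1 hYm0 hYm1
          rw [hgm]
          set V := ((k : ℝ) - Y j) * (1 + ((d : ℝ) - 1) * Y j /
            (2 * ((j : ℝ) + d - k + Y (j + d)))) - max 0 (1 - j / s) * E * Y j with hV
          have h2 : E * (1 + max 0 (1 - j / s) * C / 2) ≤
              (d : ℝ) / ((j : ℝ) - k + (d + 1) / 2 + Y (j + d)) * V := by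
            rw [div_mul_eq_mul_div, le_div_iff₀ hc0]
            exact h1
          have hV0 : 0 ≤ V := by
            have h3 : 0 ≤ E * (1 + max 0 (1 - j / s) * C / 2) := by
              have := H.hE
              have := le_max_left 0 (1 - (j : ℝ) / s)
              positivity
            have h4 : 0 < (d : ℝ) / ((j : ℝ) - k + (d + 1) / 2 + Y (j + d)) := by positivity
            exact nonneg_of_mul_nonneg_right (le_trans h3 h2) h4
          have h5 := mul_le_mul_of_nonneg_right hLam hV0
          linarith
        refine ⟨⟨hLow, hZ⟩, ?_⟩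
        intro hmd
        -- the sum of Y/g
        have hSY : ∑ t ∈ Ioc j (j + d), Y t / gg k Y t ≤ ρ * QQ d k s j := by
          unfold QQ
          rw [mul_sum]
          apply sum_le_sum
          intro t ht
          rw [mem_Ioc] at ht
          have h1 : (k : ℝ) < t := by
            have : k < t := by omega
            exact_mod_cast this
          obtain ⟨h2, h3⟩ := (HY t (by omega) (by omega)).1
          have h4 : (t : ℝ) - k ≤ gg k Y t := by unfold gg; linarith
          calc Y t / gg k Y t ≤ Y t / ((t : ℝ) - k) :=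
                div_le_div_of_nonneg_left h2 (by linarith) h4
            _ ≤ ρ * ZZm d k s t / ((t : ℝ) - k) := div_le_div_of_nonneg_right h3 (by linarith)
            _ = ρ * (ZZm d k s t / ((t : ℝ) - k)) := by ring
        have hN2 := H.n2 j hj hmd
        have hE1 := H.hE
        have hEle : E * (∑ t ∈ Ioc j (j + d), Y t / gg k Y t) ≤ E * (ρ * QQ d k s j) :=
          mul_le_mul_of_nonneg_left hSY (by linarith)
        have hε0 : 0 ≤ max 0 (max 0 (1 - s / (j : ℝ)) * E - 1) *
            (ρ * ZZm d k s j * j / (s * k)) / (1 - B) := by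
          have h1 := ZZm_nonneg (d := d) (k := k) (s := s) (m := j) hk hs
          have h2 := le_max_left 0 (max 0 (1 - s / (j : ℝ)) * E - 1)
          have h3 := H.hρ
          have h4 : 0 < 1 - B := by linarith [H.hB1]
          positivity
        have hUp : s * y (j + d) ≤ E * Y (j + d) := by
          refine stepUp S hd hk hs hE1 hj hmn hYj0 hYjk
            (fun t h1 h2 => ((ih t h2 (by omega) (by omega)).2 (by omega)).1) hj1 hj2 ?_
          have hPn : 0 ≤ Psi k s Y j := Psi_nonneg hs.le hYj0 hYjk
          -- Y_j ≤ Psi * (ρ h)/(1-B)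
          have hY2 : Y j ≤ Psi k s Y j * ((ρ * ZZm d k s j * j / (s * k)) / (1 - B)) := by
            have h4 : 0 < 1 - B := by linarith [H.hB1]
            have h5 : s * k * (1 - B) / j ≤ Psi k s Y j := by
              have h6 : s * k * (1 - B) / j ≤ s * (k - Y j) / j := by
                apply div_le_div_of_nonneg_right _ hjr.le
                have : (k : ℝ) * (1 - B) ≤ k - Y j := by linarith
                have := mul_le_mul_of_nonneg_left this hs.le
                linarith
              unfold Psi
              linarith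
            have h7 : s * k * (1 - B) / j * ((ρ * ZZm d k s j * j / (s * k)) / (1 - B)) ≤
                Psi k s Y j * ((ρ * ZZm d k s j * j / (s * k)) / (1 - B)) := by
              apply mul_le_mul_of_nonneg_right h5
              have h1 := ZZm_nonneg (d := d) (k := k) (s := s) (m := j) hk hs
              have h3 := H.hρ
              positivity
            have e1 : s * k * (1 - B) / j * ((ρ * ZZm d k s j * j / (s * k)) / (1 - B)) =
                ρ * ZZm d k s j := by
              field_simp
            linarith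
          have h8 : max 0 (max 0 (1 - s / (j : ℝ)) * E - 1) * Y j ≤
              max 0 (max 0 (1 - s / (j : ℝ)) * E - 1) *
                (Psi k s Y j * ((ρ * ZZm d k s j * j / (s * k)) / (1 - B))) :=
            mul_le_mul_of_nonneg_left hY2 (le_max_left _ _)
          have h9 := mul_le_mul_of_nonneg_left hEle hPn
          have h10 := mul_le_mul_of_nonneg_left hN2 hPn
          have e2 : Psi k s Y j * (E * (ρ * QQ d k s j) + max 0 (max 0 (1 - s / (j : ℝ)) * E - 1) *
              (ρ * ZZm d k s j * j / (s * k)) / (1 - B)) =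
              Psi k s Y j * (E * (ρ * QQ d k s j)) + max 0 (max 0 (1 - s / (j : ℝ)) * E - 1) *
                (Psi k s Y j * ((ρ * ZZm d k s j * j / (s * k)) / (1 - B))) := by ring
          rw [e2] at h10
          have e3 : Psi k s Y j * (E * (∑ t ∈ Ioc j (j + d), Y t / gg k Y t) + 1) =
              Psi k s Y j * (E * ∑ t ∈ Ioc j (j + d), Y t / gg k Y t) + Psi k s Y j := by ring
          rw [e3]
          linarith
        refine ⟨hUp, ?_⟩
        have hypos : ∀ t, j < t → t ≤ j + d → 0 ≤ y t := by
          intro t h1 h2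
          have h3 := hlowall t (by omega) h2
          have h4 := (HY t (by omega) (by omega)).1.1
          exact nonneg_of_mul_nonneg_right (le_trans h4 h3) hs
        refine stepC S hd hk hs hE1 H.hC H.hC2 hj hmn hYj0 hYjk hypos ?_ hj1 hzj0 hzj
          (fun t h1 h2 => ((ih t h2 (by omega) (by omega)).2 (by omega)).2) ?_ ?_
        · intro t h1 h2
          rcases Nat.lt_or_ge t (j + d) with h3 | h3
          · exact ((ih t h3 (by omega) (by omega)).2 (by omega)).1
          · have : t = j + d := by omega
            rw [this]; exact hUp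
        · linarith
        · intro h
          exact le_trans hEle (H.n4 j hj hmd h)
  exact (main n hkn le_rfl).1.2

end Pool.Agent.Lib.MP_99e3ed_co.H59
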